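import Pool.Agent.Helper944.LN.Word

set_option autoImplicit false
set_option linter.unusedVariables false
set_option linter.unusedSectionVars false

namespace Pool.Agent.Helper944.LN

open Subgroup Topology
open scoped commutatorElement Pointwise

variable {G : Type*} [Group G] [TopologicalSpace G] [IsTopologicalGroup G]

/-- positive powers are dense. -/
lemma pos_dense [T2Space G] [Nontrivial G] (x : G)
    (hx : ∀ n : ℕ, 1 ≤ n → ∀ O : Set G, IsOpen O → O.Nonempty → ∃ k : ℤ, (x ^ n) ^ k ∈ O)
    (O : Set G) (hO : IsOpen O) (hne : O.Nonempty) : ∃ n : ℕ, 1 ≤ n ∧ x ^ n ∈ O := by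
  obtain ⟨n, hn⟩ := hx 1 le_rfl O hO hne
  rw [pow_one] at hn
  let W : Set G := (fun w => w * x ^ n) ⁻¹' O
  have hWo : IsOpen W := hO.preimage (by fun_prop)
  have hW1 : (1 : G) ∈ W := by simpa [W] using hn
  have hWW : W ∩ W⁻¹ ∈ 𝓝 (1 : G) := (hWo.inter hWo.inv).mem_nhds ⟨hW1, by simpa using hW1⟩
  obtain ⟨V, hV, hVd⟩ := exists_nhds_split_inv hWW
  obtain ⟨V', hV'V, hV'o, hV'1⟩ := mem_nhds_iff.1 hV
  obtain ⟨g, hg⟩ := exists_ne (1 : G)
  let O' : Set G := ((fun y => y * g⁻¹) ⁻¹' V') ∩ {1}ᶜ
  have hO'o : IsOpen O' := (hV'o.preimage (by fun_prop)).inter isOpen_compl_singleton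
  have hO'n : O'.Nonempty := ⟨g, by simpa using hV'1, hg⟩
  let N : ℕ := n.natAbs + 1
  obtain ⟨k, hk⟩ := hx N (by omega) O' hO'o hO'n
  have hk0 : k ≠ 0 := by
    rintro rfl
    exact hk.2 (by simp)
  let N' : ℕ := N * (k.natAbs + 1)
  obtain ⟨k', hk'⟩ := hx N' (by
    have : 0 < N * (k.natAbs + 1) := by positivity
    exact this) O' hO'o hO'n
  have hk'0 : k' ≠ 0 := by
    rintro rfl
    exact hk'.2 (by simp)
  have hd : (x ^ N') ^ k' * ((x ^ N) ^ k)⁻¹ ∈ W ∩ W⁻¹ := by
    have := hVd _ (hV'V hk'.1) _ (hV'V hk.1)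
    simpa [div_eq_mul_inv, mul_assoc] using this
  let M : ℤ := (N' : ℤ) * k' - N * k
  have hM : (x ^ N') ^ k' * ((x ^ N) ^ k)⁻¹ = x ^ M := by
    simp only [M]
    rw [← zpow_natCast x N', ← zpow_natCast x N, ← zpow_mul, ← zpow_mul, zpow_sub]
  rw [hM] at hd
  have hMdvd : (N : ℤ) ∣ M := by
    refine ⟨(k.natAbs + 1 : ℤ) * k' - k, ?_⟩
    simp only [M, N']
    push_cast
    ring
  have hM0 : M ≠ 0 := by
    intro h
    have h1 : ((N' : ℤ) * k').natAbs = ((N : ℤ) * k).natAbs := by
      have : (N' : ℤ) * k' = N * k := by simp only [M] at h; omega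
      rw [this]
    rw [Int.natAbs_mul, Int.natAbs_mul, Int.natAbs_natCast, Int.natAbs_natCast] at h1
    have h2 : 1 ≤ k'.natAbs := Int.natAbs_pos.2 hk'0
    have h3 : N * k.natAbs < N' * k'.natAbs := by
      calc N * k.natAbs < N * (k.natAbs + 1) := by
            apply Nat.mul_lt_mul_of_pos_left _ (by omega)
            omega
        _ = N' * 1 := by simp [N']
        _ ≤ N' * k'.natAbs := Nat.mul_le_mul_left _ h2
    omega
  have hMn : N ≤ M.natAbs := by
    have := Int.natAbs_dvd_natAbs.2 hMdvd
    rw [Int.natAbs_natCast] at this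
    exact Nat.le_of_dvd (Int.natAbs_pos.2 hM0) this
  have hW2 : x ^ (M.natAbs : ℤ) ∈ W := by
    rcases Int.natAbs_eq M with h | h
    · rw [← h]; exact hd.1
    · have h1 : ((M.natAbs : ℤ)) = -M := by omega
      rw [h1, zpow_neg]
      exact hd.2
  have h3 : x ^ (M.natAbs : ℤ) * x ^ n ∈ O := hW2
  rw [← zpow_add] at h3
  have h4 : (1 : ℤ) ≤ (M.natAbs : ℤ) + n := by
    have : n.natAbs + 1 ≤ M.natAbs := hMn
    omega
  refine ⟨((M.natAbs : ℤ) + n).toNat, by omega, ?_⟩
  rw [← zpow_natCast, Int.toNat_of_nonneg (by omega)]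
  exact h3

/-- Weil's argument. -/
lemma weil [T2Space G] [LocallyCompactSpace G] [Nontrivial G] (x : G)
    (hx : ∀ n : ℕ, 1 ≤ n → ∀ O : Set G, IsOpen O → O.Nonempty → ∃ k : ℤ, (x ^ n) ^ k ∈ O) :
    CompactSpace G := by
  have hpos := pos_dense x hx
  obtain ⟨K, hKc, hK1, -⟩ := exists_compact_subset (isOpen_univ (X := G)) (Set.mem_univ 1)
  have h1 : ∀ q : G, ∃ n : ℕ, 1 ≤ n ∧ x ^ n * q ∈ interior K := by
    intro q
    exact hpos ((fun y => y * q) ⁻¹' interior K) (isOpen_interior.preimage (by fun_prop))
      ⟨q⁻¹, by simpa using hK1⟩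
  have h2 : ∀ q : G, ∃ n : ℕ, 1 ≤ n ∧ (x ^ n)⁻¹ * q ∈ interior K := by
    intro q
    exact hpos ((fun y => y⁻¹ * q) ⁻¹' interior K) (isOpen_interior.preimage (by fun_prop))
      ⟨q, by simpa using hK1⟩
  obtain ⟨t, ht⟩ := hKc.elim_finite_subcover
    (fun n : ℕ => (fun q => (x ^ (n + 1))⁻¹ * q) ⁻¹' interior K)
    (fun n => isOpen_interior.preimage (by fun_prop)) (by
      intro q _
      obtain ⟨n, hn, hq⟩ := h2 q
      rw [Set.mem_iUnion]
      refine ⟨n - 1, ?_⟩
      rw [Set.mem_preimage, Nat.sub_add_cancel hn]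
      exact hq)
  let m := t.sup id + 1
  have h3 : (Set.univ : Set G) ⊆ ⋃ n ∈ Finset.range (m + 1), (fun k => (x ^ n)⁻¹ * k) '' K := by
    intro q _
    classical
    have h4 : ∃ n : ℕ, 1 ≤ n ∧ x ^ n * q ∈ K := by
      obtain ⟨n, hn, hq⟩ := h1 q
      exact ⟨n, hn, interior_subset hq⟩
    let n := Nat.find h4
    have hn : 1 ≤ n ∧ x ^ n * q ∈ K := Nat.find_spec h4
    have h5 := ht hn.2
    simp only [Set.mem_iUnion] at h5
    obtain ⟨j, hj, hjK⟩ := h5
    have hjK' : (x ^ (j + 1))⁻¹ * (x ^ n * q) ∈ K := interior_subset hjK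
    have hle : n ≤ j + 1 := by
      by_contra hlt
      push Not at hlt
      have h6 : (x ^ (j + 1))⁻¹ * (x ^ n * q) = x ^ (n - (j + 1)) * q := by
        have : n = (j + 1) + (n - (j + 1)) := by omega
        conv_lhs => rw [this, pow_add]
        group
      rw [h6] at hjK'
      exact Nat.find_min h4 (m := n - (j + 1)) (by omega) ⟨by omega, hjK'⟩
    have hjm : j ≤ t.sup id := Finset.le_sup (f := id) hj
    simp only [Set.mem_iUnion]
    refine ⟨n, by simp [m]; omega, x ^ n * q, hn.2, by simp⟩
  constructor
  refine IsCompact.of_isClosed_subset ?_ isClosed_univ h3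
  apply (Finset.range (m + 1)).isCompact_biUnion
  intro n _
  exact hKc.image (by fun_prop)

lemma compact_ext [T2Space G] (B : Subgroup G) [B.Normal] (hB : IsCompact (B : Set G))
    (h : CompactSpace (G ⧸ B)) : CompactSpace G := by
  have hp : IsProperMap (QuotientGroup.mk : G → G ⧸ B) := by
    rw [isProperMap_iff_isClosedMap_and_compact_fibers]
    refine ⟨QuotientGroup.continuous_mk, QuotientGroup.isClosedMap_coe hB, ?_⟩
    intro y
    obtain ⟨g, rfl⟩ := QuotientGroup.mk_surjective y
    have : (QuotientGroup.mk : G → G ⧸ B) ⁻¹' {(g : G ⧸ B)} = (fun b => g * b) '' (B : Set G) := by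
      ext a
      simp only [Set.mem_preimage, Set.mem_singleton_iff, Set.mem_image, SetLike.mem_coe]
      rw [eq_comm, QuotientGroup.eq]
      constructor
      · intro h; exact ⟨_, h, by group⟩
      · rintro ⟨b, hb, rfl⟩; simpa using hb
    rw [this]
    exact hB.image (by fun_prop)
  constructor
  have := hp.isCompact_preimage (K := Set.univ) isCompact_univ
  simpa using this

lemma normal_of_comm_le {B : Subgroup G} (h : commutator G ≤ B) : B.Normal := by
  constructor
  intro n hn g
  have h1 : ⁅g, n⁆ ∈ B := h (Subgroup.commutator_mem_commutator trivial trivial)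
  have : g * n * g⁻¹ = ⁅g, n⁆ * n := by simp only [commutatorElement_def]; group
  rw [this]
  exact mul_mem h1 hn

lemma fin_gen [T2Space G] [LocallyCompactSpace G]
    (hH : ∀ N : Subgroup G, N.Normal → IsClosed (N : Set G) → N ≠ ⊤ → IsCompact (N : Set G))
    (D : Subgroup G) (hD : IsCompact (D : Set G)) (hcD : commutator G ≤ D) :
    ∀ F : Finset G, (Subgroup.closure (F : Set G) ⊔ D).topologicalClosure = ⊤ → CompactSpace G := by
  classical
  intro F
  induction F using Finset.induction with
  | empty =>
    intro h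
    rw [Finset.coe_empty, Subgroup.closure_empty, bot_sup_eq] at h
    have h1 : D = ⊤ := by
      rw [← h]
      exact le_antisymm (Subgroup.le_topologicalClosure _)
        (Subgroup.topologicalClosure_minimal _ le_rfl hD.isClosed)
    rw [h1] at hD
    exact ⟨by simpa using hD⟩
  | insert x F' hxF ih =>
    intro h
    set B := (Subgroup.closure (F' : Set G) ⊔ D).topologicalClosure with hB
    by_cases hBt : B = ⊤
    · exact ih hBt
    have hDB : D ≤ B := le_sup_right.trans (Subgroup.le_topologicalClosure _)
    have hFB : Subgroup.closure (F' : Set G) ≤ B :=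
      le_sup_left.trans (Subgroup.le_topologicalClosure _)
    have hBn : B.Normal := normal_of_comm_le (hcD.trans hDB)
    have hBcl : IsClosed (B : Set G) := Subgroup.isClosed_topologicalClosure _
    have hBc : IsCompact (B : Set G) := hH B hBn hBcl hBt
    have hnt : Nontrivial (G ⧸ B) := QuotientGroup.nontrivial_iff.2 hBt
    by_cases hd : ∀ n : ℕ, 1 ≤ n → ∀ O : Set (G ⧸ B), IsOpen O → O.Nonempty →
        ∃ k : ℤ, ((x : G ⧸ B) ^ n) ^ k ∈ O
    · exact compact_ext B hBc (weil (x : G ⧸ B) hd)
    · push Not at hd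
      obtain ⟨n, hn, O, hO, hOne, hk⟩ := hd
      let Z : Subgroup (G ⧸ B) := (Subgroup.zpowers ((x : G ⧸ B) ^ n)).topologicalClosure
      have hZcl : IsClosed (Z : Set (G ⧸ B)) := Subgroup.isClosed_topologicalClosure _
      have hZt : Z ≠ ⊤ := by
        intro hZ
        obtain ⟨q, hq⟩ := hOne
        have h1 : q ∈ Z := by rw [hZ]; trivial
        have h2 : q ∈ _root_.closure ((Subgroup.zpowers ((x : G ⧸ B) ^ n) : Subgroup (G ⧸ B)) : Set (G ⧸ B)) := h1
        rw [mem_closure_iff] at h2
        obtain ⟨_, hr1, ⟨k, rfl⟩⟩ := h2 O hO hq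
        exact hk k hr1
      let C : Subgroup G := Z.comap (QuotientGroup.mk' B)
      have hBC : B ≤ C := by
        intro b hb
        have : QuotientGroup.mk' B b = 1 := (QuotientGroup.eq_one_iff b).2 hb
        change QuotientGroup.mk' B b ∈ Z
        rw [this]; exact one_mem _
      have hCn : C.Normal := normal_of_comm_le (hcD.trans (hDB.trans hBC))
      have hCcl : IsClosed (C : Set G) := hZcl.preimage QuotientGroup.continuous_mk
      have hCt : C ≠ ⊤ := by
        intro hC
        apply hZt
        rw [eq_top_iff]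
        intro q _
        obtain ⟨g, rfl⟩ := QuotientGroup.mk'_surjective B q
        have : g ∈ C := by rw [hC]; trivial
        exact this
      have hCc : IsCompact (C : Set G) := hH C hCn hCcl hCt
      have hxn : x ^ n ∈ C := by
        change QuotientGroup.mk' B (x ^ n) ∈ Z
        rw [map_pow]
        exact Subgroup.le_topologicalClosure _ (Subgroup.mem_zpowers _)
      -- the quotient by `C` is finite
      have hfin : (((Subgroup.zpowers (x : G ⧸ C)) : Subgroup (G ⧸ C)) : Set (G ⧸ C)).Finite := by
        have hfo : IsOfFinOrder (x : G ⧸ C) := by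
          rw [isOfFinOrder_iff_pow_eq_one]
          refine ⟨n, hn, ?_⟩
          rw [← QuotientGroup.mk_pow]
          exact (QuotientGroup.eq_one_iff _).2 hxn
        exact finite_zpowers.2 hfo
      have htop : Subgroup.zpowers (x : G ⧸ C) = ⊤ := by
        have h1 : Subgroup.closure ((insert x F' : Finset G) : Set G) ⊔ D ≤
            (Subgroup.zpowers (x : G ⧸ C)).comap (QuotientGroup.mk' C) := by
          apply sup_le
          · rw [Subgroup.closure_le]
            intro y hy
            rw [Finset.coe_insert, Set.mem_insert_iff] at hy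
            rcases hy with rfl | hy
            · exact Subgroup.mem_zpowers _
            · have : QuotientGroup.mk' C y = 1 :=
                (QuotientGroup.eq_one_iff y).2 (hBC (hFB (Subgroup.subset_closure hy)))
              change QuotientGroup.mk' C y ∈ Subgroup.zpowers (x : G ⧸ C)
              rw [this]; exact one_mem _
          · intro y hy
            have : QuotientGroup.mk' C y = 1 := (QuotientGroup.eq_one_iff y).2 (hBC (hDB hy))
            change QuotientGroup.mk' C y ∈ Subgroup.zpowers (x : G ⧸ C)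
            rw [this]; exact one_mem _
        have h2 := Subgroup.topologicalClosure_minimal _ h1
          (hfin.isClosed.preimage QuotientGroup.continuous_mk)
        rw [h] at h2
        rw [eq_top_iff]
        intro q _
        obtain ⟨g, rfl⟩ := QuotientGroup.mk'_surjective C q
        exact h2 (Subgroup.mem_top g)
      rw [htop] at hfin
      have : Finite (G ⧸ C) := Set.finite_univ_iff.1 (by simpa using hfin)
      exact compact_ext C hCc inferInstance

/-- The case where the group is not topologically perfect. -/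
theorem abelian_case [T2Space G] [LocallyCompactSpace G]
    (hH : ∀ N : Subgroup G, N.Normal → IsClosed (N : Set G) → N ≠ ⊤ → IsCompact (N : Set G))
    (hp : (commutator G).topologicalClosure ≠ ⊤) :
    ∃ K : Subgroup G, K.Normal ∧ IsOpen (K : Set G) ∧ IsCompact (K : Set G) := by
  classical
  set D := (commutator G).topologicalClosure with hD
  have hDn : D.Normal := Subgroup.is_normal_topologicalClosure _
  have hDc : IsCompact (D : Set G) := hH D hDn (Subgroup.isClosed_topologicalClosure _) hp
  have hcD : commutator G ≤ D := Subgroup.le_topologicalClosure _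
  obtain ⟨C, hCc, hC1, -⟩ := exists_compact_subset (isOpen_univ (X := G)) (Set.mem_univ 1)
  let C1 : Set G := C ∪ C⁻¹
  have hC1c : IsCompact C1 := hCc.union hCc.inv
  have hC1i : ∀ y ∈ C1, y⁻¹ ∈ C1 := by
    rintro y (hy | hy)
    · exact Or.inr (by simpa using hy)
    · exact Or.inl hy
  have h1C1 : (1 : G) ∈ C1 := Or.inl (interior_subset hC1)
  by_cases hA : Subgroup.closure C1 ⊔ D = ⊤
  · -- compactly generated: then compact
    have hcomp : CompactSpace G := by
      have hCC : IsCompact (C1 * C1) := hC1c.mul hC1c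
      obtain ⟨t, -, ht⟩ := hCC.elim_nhds_subcover (fun x => x • interior C) (fun x _ => by
        apply (isOpen_interior.smul x).mem_nhds
        rw [Set.mem_smul_set]
        exact ⟨1, hC1, by simp⟩)
      by_cases hB : (Subgroup.closure (t : Set G) ⊔ D).topologicalClosure = ⊤
      · exact fin_gen hH D hDc hcD t hB
      set B := (Subgroup.closure (t : Set G) ⊔ D).topologicalClosure with hBdef
      have hDB : D ≤ B := le_sup_right.trans (Subgroup.le_topologicalClosure _)
      have htB : Subgroup.closure (t : Set G) ≤ B :=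
        le_sup_left.trans (Subgroup.le_topologicalClosure _)
      have hBn : B.Normal := normal_of_comm_le (hcD.trans hDB)
      have hBc : IsCompact (B : Set G) := hH B hBn (Subgroup.isClosed_topologicalClosure _) hB
      have key : ∀ x ∈ Subgroup.closure (C1 ∪ D), x ∈ (B : Set G) * C1 := by
        intro x hx
        have hmul : ∀ x, x ∈ (B : Set G) * C1 → ∀ y, (y ∈ C1 ∨ y ∈ D) → x * y ∈ (B : Set G) * C1 := by
          rintro _ ⟨b, hb, c, hc, rfl⟩ y (hy | hy)
          · have h1 := ht (Set.mul_mem_mul hc hy)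
            simp only [Set.mem_iUnion] at h1
            obtain ⟨f, hf, w, hw, hfw⟩ := h1
            refine ⟨b * f, mul_mem hb (htB (Subgroup.subset_closure hf)), w,
              Or.inl (interior_subset hw), ?_⟩
            have : f * w = c * y := hfw
            simp only [mul_assoc, this]
          · refine ⟨b * (c * y * c⁻¹), mul_mem hb (hDB (hDn.conj_mem y hy c)), c, hc, ?_⟩
            simp only [mul_assoc, inv_mul_cancel, mul_one]
        induction hx using Subgroup.closure_induction_right with
        | one => exact ⟨1, one_mem _, 1, h1C1, by simp⟩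
        | mul_right x hx y hy ih => exact hmul x ih y hy
        | mul_inv_cancel x hx y hy ih =>
          apply hmul x ih
          rcases hy with hy | hy
          · exact Or.inl (hC1i y hy)
          · exact Or.inr (inv_mem hy)
      have huniv : (Set.univ : Set G) ⊆ (B : Set G) * C1 := by
        intro x _
        apply key
        have : Subgroup.closure (C1 ∪ (D : Set G)) = ⊤ := by
          rw [Subgroup.closure_union, Subgroup.closure_eq, hA]
        rw [this]; trivial
      constructor
      exact IsCompact.of_isClosed_subset (hBc.mul hC1c) isClosed_univ huniv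
    exact ⟨⊤, inferInstance, isOpen_univ, by simpa using hcomp.isCompact_univ⟩
  · refine ⟨Subgroup.closure C1 ⊔ D, ?_, ?_, ?_⟩
    · exact normal_of_comm_le (hcD.trans le_sup_right)
    · apply Subgroup.isOpen_of_mem_nhds _ (g := 1)
      refine Filter.mem_of_superset (isOpen_interior.mem_nhds hC1) ?_
      intro y hy
      exact (le_sup_left : Subgroup.closure C1 ≤ _) (Subgroup.subset_closure (Or.inl (interior_subset hy)))
    · have hn : (Subgroup.closure C1 ⊔ D).Normal := normal_of_comm_le (hcD.trans le_sup_right)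
      have ho : IsOpen ((Subgroup.closure C1 ⊔ D : Subgroup G) : Set G) := by
        apply Subgroup.isOpen_of_mem_nhds _ (g := 1)
        refine Filter.mem_of_superset (isOpen_interior.mem_nhds hC1) ?_
        intro y hy
        exact (le_sup_left : Subgroup.closure C1 ≤ _)
          (Subgroup.subset_closure (Or.inl (interior_subset hy)))
      exact hH _ hn (Subgroup.isClosed_of_isOpen _ ho) hA

end Pool.Agent.Helper944.LN
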