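import Pool.Agent.Helper944.LN.Main

set_option autoImplicit false
set_option linter.unusedVariables false
set_option linter.unusedSectionVars false

namespace Pool.Agent.Helper944.LN

open Subgroup Topology
open scoped commutatorElement

/-- non-compact locally nilpotent groups all of whose proper closed subgroups are compact. -/
structure CG (G : Type*) [Group G] [TopologicalSpace G] : Prop where
  ln : LocNil G
  C : ∀ H : Subgroup G, IsClosed (H : Set G) → H ≠ ⊤ → IsCompact (H : Set G)
  nc : ¬ CompactSpace G

variable {G : Type*} [Group G] [TopologicalSpace G] [IsTopologicalGroup G]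

omit [IsTopologicalGroup G] in
lemma CG.nontrivial (hG : CG G) : Nontrivial G := by
  by_contra h
  rw [not_nontrivial_iff_subsingleton] at h
  exact hG.nc inferInstance

lemma CG.quotient [T2Space G] (hG : CG G) (N : Subgroup G) [N.Normal] (hN : IsClosed (N : Set G))
    (hNt : N ≠ ⊤) : CG (G ⧸ N) where
  ln := hG.ln.quotient N
  C := by
    intro H hH hHt
    have h1 : IsCompact ((H.comap (QuotientGroup.mk' N) : Subgroup G) : Set G) := by
      apply hG.C
      · exact hH.preimage QuotientGroup.continuous_mk
      · intro h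
        apply hHt
        rw [eq_top_iff]
        intro q _
        obtain ⟨g, rfl⟩ := QuotientGroup.mk'_surjective N q
        have : g ∈ H.comap (QuotientGroup.mk' N) := by rw [h]; trivial
        exact this
    have h2 := h1.image (f := (QuotientGroup.mk' N)) QuotientGroup.continuous_mk
    have h3 : (QuotientGroup.mk' N) '' ((H.comap (QuotientGroup.mk' N) : Subgroup G) : Set G)
        = (H : Set (G ⧸ N)) := by
      rw [Subgroup.coe_comap]
      exact Set.image_preimage_eq _ (QuotientGroup.mk'_surjective N)
    rwa [h3] at h2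
  nc := fun h => hG.nc (compact_ext N (hG.C N hN hNt) h)

/-- open subgroups form a basis. -/
def VD (G : Type*) [Group G] [TopologicalSpace G] : Prop :=
  ∀ U ∈ 𝓝 (1 : G), ∃ V : Subgroup G, IsOpen (V : Set G) ∧ (V : Set G) ⊆ U

lemma VD.quotient (hG : VD G) (N : Subgroup G) [N.Normal] : VD (G ⧸ N) := by
  intro U hU
  have h1 : (QuotientGroup.mk' N) ⁻¹' U ∈ 𝓝 (1 : G) := by
    apply QuotientGroup.continuous_mk.continuousAt.preimage_mem_nhds
    exact hU
  obtain ⟨V, hV, hVU⟩ := hG _ h1
  refine ⟨V.map (QuotientGroup.mk' N), QuotientGroup.isOpenMap_coe _ hV, ?_⟩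
  rintro _ ⟨v, hv, rfl⟩
  exact hVU hv

section discrete

variable {D : Type*} [Group D] [TopologicalSpace D] [IsTopologicalGroup D] [DiscreteTopology D]

lemma CG.infinite (hD : CG D) : Infinite D := by
  by_contra h
  rw [not_infinite_iff_finite] at h
  exact hD.nc inferInstance

lemma CG.finite_of_ne_top (hD : CG D) (H : Subgroup D) (hH : H ≠ ⊤) : (H : Set D).Finite :=
  (hD.C H (isClosed_discrete _) hH).finite_of_discrete

lemma CG.comm_of_discrete (hD : CG D) : ∀ a b : D, a * b = b * a := by
  have hinf := hD.infinite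
  have hnt := hD.nontrivial
  -- the commutator subgroup is proper
  have h1 : commutator D ≠ ⊤ := by
    intro h
    have hp : Perf D :=
      { ln := hD.ln
        H := fun N _ h1 h2 => hD.C N h1 h2
        perf := by rw [h]; exact top_le_iff.1 (Subgroup.le_topologicalClosure _)
        nontriv := hnt }
    obtain ⟨N, -, -, -, hNz, hN⟩ := exists_thin hp (U := {1}) (isOpen_discrete _) rfl
    apply hNz
    intro n hn
    obtain ⟨z, hz, hzn⟩ := hN n hn
    have : n = z := by
      have := Set.mem_singleton_iff.1 hzn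
      exact (inv_mul_eq_one.1 this).symm
    rw [this]; exact hz
  have hfin : (commutator D : Set D).Finite := hD.finite_of_ne_top _ h1
  intro a b
  have h2 : Subgroup.centralizer {b} = (⊤ : Subgroup D) := by
    by_contra h
    have hf := hD.finite_of_ne_top _ h
    have : Finite (commutator D) := hfin
    let f : D → commutator D := fun g => ⟨⁅g, b⁆, Subgroup.commutator_mem_commutator trivial trivial⟩
    obtain ⟨y, hy⟩ := Finite.exists_infinite_fiber f
    rw [Set.infinite_coe_iff] at hy
    obtain ⟨g0, hg0⟩ := hy.nonempty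
    apply hy
    apply Set.Finite.of_injOn (f := fun g => g⁻¹ * g0) (t := (Subgroup.centralizer {b} : Set D)) _ _ hf
    · intro g hg
      have h3 : ⁅g, b⁆ = ⁅g0, b⁆ := by
        have e1 : f g = y := hg
        have e2 : f g0 = y := hg0
        have := congrArg Subtype.val (e1.trans e2.symm)
        exact this
      rw [SetLike.mem_coe, Subgroup.mem_centralizer_iff]
      intro c hc
      rw [Set.mem_singleton_iff.1 hc]
      simp only [commutatorElement_def] at h3
      have h4 : g * b * g⁻¹ = g0 * b * g0⁻¹ := mul_right_cancel h3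
      have h5 : b * g⁻¹ = g⁻¹ * (g0 * b * g0⁻¹) := by rw [← h4]; group
      calc b * (g⁻¹ * g0) = (b * g⁻¹) * g0 := by group
        _ = g⁻¹ * (g0 * b * g0⁻¹) * g0 := by rw [h5]
        _ = g⁻¹ * g0 * b := by group
    · intro g _ g' _ h
      simpa using h
  have h3 : a ∈ Subgroup.centralizer {b} := by rw [h2]; trivial
  exact (Subgroup.mem_centralizer_iff.1 h3 b rfl).symm

/-- the power map of a commutative group. -/
def pwr (hc : ∀ a b : D, a * b = b * a) (m : ℕ) : D →* D :=
  { toFun := fun g => g ^ m
    map_one' := one_pow _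
    map_mul' := fun a b => (show Commute a b from hc a b).mul_pow m }

omit [TopologicalSpace D] [IsTopologicalGroup D] [DiscreteTopology D] in
lemma exists_infinite_submodule (p : ℕ) [Fact p.Prime] (V : Type*) [AddCommGroup V]
    [Module (ZMod p) V] [Infinite V] (y : V) (hy : y ≠ 0) :
    ∃ W : Submodule (ZMod p) V, W ≠ ⊤ ∧ ¬ (W : Set V).Finite := by
  obtain ⟨W, hW⟩ := exists_isCompl (Submodule.span (ZMod p) {y})
  refine ⟨W, ?_, ?_⟩
  · intro h
    rw [h] at hW
    have h2 : Submodule.span (ZMod p) {y} = ⊥ := eq_bot_of_isCompl_top hW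
    rw [Submodule.span_singleton_eq_bot] at h2
    exact hy h2
  · intro hf
    have hWf' : Finite W := hf
    have hfg : Module.Finite (ZMod p) V := by
      constructor
      rw [← hW.sup_eq_top]
      apply Submodule.FG.sup
      · exact Submodule.fg_span (Set.finite_singleton _)
      · have : Module.Finite (ZMod p) W := inferInstance
        exact Module.Finite.iff_fg.1 this
    have : Finite V := Module.finite_of_finite (ZMod p)
    exact not_finite V

omit [TopologicalSpace D] [IsTopologicalGroup D] [DiscreteTopology D] in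
lemma exists_infinite_subgroup [hinf : Infinite D] (hc : ∀ a b : D, a * b = b * a) (p : ℕ)
    [Fact p.Prime] (hexp : ∀ g : D, g ^ p = 1) (y : D) (hy : y ≠ 1) :
    ∃ W : Subgroup D, W ≠ ⊤ ∧ ¬ (W : Set D).Finite := by
  let i1 : CommGroup D := { (inferInstance : Group D) with mul_comm := hc }
  let i2 : Module (ZMod p) (Additive D) := AddCommGroup.zmodModule (n := p) (fun g => by
      have := hexp g.toMul
      exact congrArg Additive.ofMul this)
  have i3 : Infinite (Additive D) := hinf
  obtain ⟨W, hW1, hW2⟩ := exists_infinite_submodule p (Additive D) (Additive.ofMul y) hy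
  refine ⟨AddSubgroup.toSubgroup' W.toAddSubgroup, ?_, hW2⟩
  intro h
  apply hW1
  apply Submodule.eq_top_iff'.2
  intro w
  have : w.toMul ∈ AddSubgroup.toSubgroup' W.toAddSubgroup := by rw [h]; trivial
  exact this

/-- structure of discrete CG groups: Prüfer groups. -/
theorem CG.pruefer (hD : CG D) : ∃ p : ℕ, p.Prime ∧ ∃ x : ℕ → D, x 0 = 1 ∧ x 1 ≠ 1 ∧
    (∀ n, x (n + 1) ^ p = x n) ∧ (∀ n, orderOf (x n) = p ^ n) ∧ (∀ g, ∃ n, g ∈ Subgroup.zpowers (x n)) := by
  classical
  have hinf := hD.infinite
  have hnt := hD.nontrivial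
  have hc := hD.comm_of_discrete
  -- torsion
  have htor : ∀ g : D, IsOfFinOrder g := by
    intro g
    by_contra hg
    have h1 : Subgroup.zpowers (g ^ 2) = ⊤ := by
      by_contra h
      have hf := hD.finite_of_ne_top _ h
      have : IsOfFinOrder (g ^ 2) := finite_zpowers.1 hf
      exact hg ((isOfFinOrder_pow.1 this).resolve_right (by norm_num))
    have h2 : g ∈ Subgroup.zpowers (g ^ 2) := by rw [h1]; trivial
    obtain ⟨k, hk⟩ := Subgroup.mem_zpowers_iff.1 h2
    apply hg
    rw [isOfFinOrder_iff_zpow_eq_one]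
    refine ⟨2 * k - 1, by omega, ?_⟩
    rw [zpow_sub, zpow_mul, zpow_one]
    have : (g ^ (2 : ℤ)) ^ k = g := by
      have e : g ^ (2 : ℤ) = g ^ 2 := zpow_ofNat g 2
      rw [e]; exact hk
    rw [this, mul_inv_cancel]
  obtain ⟨x0, hx0⟩ := exists_ne (1 : D)
  have ho : orderOf x0 ≠ 1 := by
    intro h; exact hx0 (orderOf_eq_one_iff.1 h)
  let p := (orderOf x0).minFac
  have hp : p.Prime := Nat.minFac_prime ho
  have hfp : Fact p.Prime := ⟨hp⟩
  let y := x0 ^ (orderOf x0 / p)
  have hy : orderOf y = p := by
    have h0 : 0 < orderOf x0 := (htor x0).orderOf_pos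
    exact orderOf_pow_orderOf_div h0.ne' (Nat.minFac_dvd _)
  have hyp : y ^ p = 1 := by rw [← hy]; exact pow_orderOf_eq_one y
  have hy1 : y ≠ 1 := by
    intro h
    rw [h, orderOf_one] at hy
    exact hp.one_lt.ne hy
  -- divisibility
  have hdiv : (pwr hc p).range = ⊤ := by
    by_contra hr
    have hrf := hD.finite_of_ne_top _ hr
    have hker : (pwr hc p).ker = ⊤ := by
      by_contra hk
      have hkf := hD.finite_of_ne_top _ hk
      have f1 : Finite (pwr hc p).range := hrf
      have f2 : Finite (pwr hc p).ker := hkf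
      have f3 : Finite (D ⧸ (pwr hc p).ker) :=
        Finite.of_equiv _ (QuotientGroup.quotientKerEquivRange (pwr hc p)).symm.toEquiv
      have : Finite D := by
        have e := (Subgroup.groupEquivQuotientProdSubgroup (s := (pwr hc p).ker))
        exact Finite.of_equiv _ e.symm
      exact not_finite D
    have hexp : ∀ g : D, g ^ p = 1 := by
      intro g
      have : g ∈ (pwr hc p).ker := by rw [hker]; trivial
      exact this
    obtain ⟨W, hW1, hW2⟩ := exists_infinite_subgroup hc p hexp y hy1
    exact hW2 (hD.finite_of_ne_top W hW1)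
  have hroot : ∀ g : D, ∃ h : D, h ^ p = g := by
    intro g
    have : g ∈ (pwr hc p).range := by rw [hdiv]; trivial
    obtain ⟨h, hh⟩ := this
    exact ⟨h, hh⟩
  choose r hr using hroot
  let x : ℕ → D := fun n => Nat.rec 1 (fun k _ => r^[k] y) n
  have hx0' : x 0 = 1 := rfl
  have hxs : ∀ n, x (n + 1) = r^[n] y := fun n => rfl
  have hxp : ∀ n, x (n + 1) ^ p = x n := by
    intro n
    cases n with
    | zero => rw [hxs, hx0']; exact hyp
    | succ n => rw [hxs, hxs, Function.iterate_succ_apply', hr]
  have hpow : ∀ n k, x (n + k) ^ p ^ k = x n := by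
    intro n k
    induction k with
    | zero => simp
    | succ k ih =>
      rw [pow_succ', pow_mul, ← add_assoc, hxp, ih]
  have hord : ∀ n, orderOf (x n) = p ^ n := by
    intro n
    cases n with
    | zero => rw [hx0', orderOf_one, pow_zero]
    | succ n =>
      apply orderOf_eq_prime_pow
      · have := hpow 1 n
        rw [add_comm] at this
        rw [this]
        exact hy1
      · have := hpow 0 (n + 1)
        rw [zero_add] at this
        exact this.trans hx0'
  refine ⟨p, hp, x, hx0', hy1, hxp, hord, ?_⟩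
  have hmono : Monotone (fun n => Subgroup.zpowers (x n)) := by
    apply monotone_nat_of_le_succ
    intro n
    rw [Subgroup.zpowers_le]
    rw [← hxp n]
    exact Subgroup.pow_mem _ (Subgroup.mem_zpowers _) _
  let H : Subgroup D := ⨆ n, Subgroup.zpowers (x n)
  have hH : H = ⊤ := by
    by_contra h
    have hf := hD.finite_of_ne_top H h
    have : Finite H := hf
    obtain ⟨n, hn⟩ : ∃ n, Nat.card H < p ^ n := ⟨Nat.card H, Nat.lt_pow_self hp.one_lt⟩
    have h1 : x n ∈ H := (le_iSup (fun n => Subgroup.zpowers (x n)) n) (Subgroup.mem_zpowers _)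
    have h2 : orderOf (⟨x n, h1⟩ : H) ≤ Nat.card H := orderOf_le_card
    rw [Subgroup.orderOf_mk, hord] at h2
    omega
  intro g
  have : g ∈ H := by rw [hH]; trivial
  exact (Subgroup.mem_iSup_of_directed hmono.directed_le).1 this

/-- any two elements are comparable. -/
theorem CG.chain (hD : CG D) (g h : D) : g ∈ Subgroup.zpowers h ∨ h ∈ Subgroup.zpowers g := by
  obtain ⟨p, hp, x, hx0, hx1, hxp, hord, hgen⟩ := hD.pruefer
  have hpow : ∀ n k, x (n + k) ^ p ^ k = x n := by
    intro n k
    induction k with
    | zero => simp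
    | succ k ih =>
      rw [pow_succ', pow_mul, ← add_assoc, hxp, ih]
  have hmono : Monotone (fun n => Subgroup.zpowers (x n)) := by
    apply monotone_nat_of_le_succ
    intro n
    rw [Subgroup.zpowers_le]
    rw [← hxp n]
    exact Subgroup.pow_mem _ (Subgroup.mem_zpowers _) _
  have key : ∀ g : D, ∃ m, Subgroup.zpowers g = Subgroup.zpowers (x m) := by
    intro g
    obtain ⟨n, hn⟩ := hgen g
    have hfin : IsOfFinOrder (x n) := by
      rw [← orderOf_pos_iff, hord]; exact pow_pos hp.pos n
    obtain ⟨j, hj⟩ := (hfin.mem_powers_iff_mem_zpowers).2 hn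
    simp only at hj
    by_cases hj0 : j = 0
    · refine ⟨0, ?_⟩
      rw [← hj, hj0, pow_zero, hx0]
    obtain ⟨i, u, hu, hju⟩ := Nat.exists_eq_pow_mul_and_not_dvd hj0 p hp.ne_one
    by_cases hi : i ≤ n
    · refine ⟨n - i, ?_⟩
      have h1 : g = x (n - i) ^ u := by
        rw [← hj, hju, pow_mul]
        congr 1
        have := hpow (n - i) i
        rwa [Nat.sub_add_cancel hi] at this
      have hcop : (orderOf (x (n - i))).Coprime u := by
        rw [hord]
        exact Nat.Coprime.pow_left _ ((Nat.Prime.coprime_iff_not_dvd hp).2 hu)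
      rw [h1]
      apply le_antisymm
      · rw [Subgroup.zpowers_le]; exact Subgroup.pow_mem _ (Subgroup.mem_zpowers _) _
      · rw [Subgroup.zpowers_le]
        obtain ⟨m, hm⟩ := exists_pow_eq_self_of_coprime hcop.symm
        have : x (n - i) = (x (n - i) ^ u) ^ m := hm.symm
        rw [this]
        conv_rhs => rw [← hm]
        exact Subgroup.pow_mem _ (by rw [hm]; exact Subgroup.mem_zpowers _) _
    · refine ⟨0, ?_⟩
      have : g = 1 := by
        rw [← hj, hju, show i = n + (i - n) by omega, pow_add, mul_assoc, pow_mul, ← hord,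
          pow_orderOf_eq_one, one_pow]
      rw [this, hx0]
  obtain ⟨a, ha⟩ := key g
  obtain ⟨b, hb⟩ := key h
  rcases le_total a b with hab | hab
  · left
    rw [hb]
    exact hmono hab (show g ∈ Subgroup.zpowers (x a) by rw [← ha]; exact Subgroup.mem_zpowers _)
  · right
    rw [ha]
    exact hmono hab (show h ∈ Subgroup.zpowers (x b) by rw [← hb]; exact Subgroup.mem_zpowers _)

end discrete

/-- the locally monothetic property. -/
theorem CG.mono [T2Space G] [LocallyCompactSpace G] (hG : CG G) (hV : VD G)
    (hc : ∀ a b : G, a * b = b * a) (K : Subgroup G) (hK : IsOpen (K : Set G)) (g : G)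
    (hg : g ∉ K) : K ≤ (Subgroup.zpowers g).topologicalClosure := by
  intro k hk
  change k ∈ _root_.closure ((Subgroup.zpowers g : Subgroup G) : Set G)
  rw [mem_closure_iff_nhds]
  intro t ht
  have h1 : (fun u => k * u) ⁻¹' t ∈ 𝓝 (1 : G) := by
    apply (continuous_const_mul k).continuousAt.preimage_mem_nhds
    simpa using ht
  obtain ⟨V, hVo, hVt⟩ := hV _ h1
  let W : Subgroup G := V ⊓ K
  have hWo : IsOpen (W : Set G) := hVo.inter hK
  have hWn : W.Normal := ⟨fun n hn g => by
    rw [hc g n, mul_assoc, mul_inv_cancel, mul_one]; exact hn⟩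
  have hWt : W ≠ ⊤ := by
    intro h
    apply hg
    have : g ∈ W := by rw [h]; trivial
    exact this.2
  have hWcl : IsClosed (W : Set G) := W.isClosed_of_isOpen hWo
  have hQ : CG (G ⧸ W) := hG.quotient W hWcl hWt
  have hdis : DiscreteTopology (G ⧸ W) := QuotientGroup.discreteTopology hWo
  rcases hQ.chain (k : G ⧸ W) (g : G ⧸ W) with h | h
  · obtain ⟨j, hj⟩ := Subgroup.mem_zpowers_iff.1 h
    have h2 : k⁻¹ * g ^ j ∈ W := by
      rw [← QuotientGroup.eq, QuotientGroup.mk_zpow]
      exact hj.symm
    refine ⟨g ^ j, ?_, Subgroup.zpow_mem _ (Subgroup.mem_zpowers _) _⟩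
    have := hVt h2.1
    simpa using this
  · exfalso
    obtain ⟨j, hj⟩ := Subgroup.mem_zpowers_iff.1 h
    have h2 : g⁻¹ * k ^ j ∈ W := by
      rw [← QuotientGroup.eq, QuotientGroup.mk_zpow]
      exact hj.symm
    apply hg
    have h3 : g⁻¹ ∈ K := by
      have := K.mul_mem h2.2 (K.inv_mem (K.zpow_mem hk j))
      simpa [mul_assoc] using this
    simpa using K.inv_mem h3

end Pool.Agent.Helper944.LN
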