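import Pool.Agent.Helper944.LN.CG

set_option autoImplicit false
set_option linter.unusedVariables false
set_option linter.unusedSectionVars false

namespace Pool.Agent.Helper944.LN

open Subgroup Topology
open scoped commutatorElement

variable {G : Type*} [Group G] [TopologicalSpace G] [IsTopologicalGroup G]

/-- last stage. -/
theorem stage5 [T2Space G] [LocallyCompactSpace G] (hG : CG G) (M : Subgroup G) [hM : M.Normal]
    (hMo : IsOpen (M : Set G)) (hMcomm : ∀ a ∈ M, ∀ b ∈ M, a * b = b * a)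
    (hMZ : ∀ m ∈ M, m ∈ Subgroup.center G → m = 1) (hM1 : M ≠ ⊥) : False := by
  have hMt : M ≠ ⊤ := by
    intro h
    apply hM1
    rw [eq_bot_iff]
    intro m hm
    refine hMZ m hm ?_
    rw [Subgroup.mem_center_iff]
    intro g
    exact hMcomm g (by rw [h]; trivial) m hm
  have hMcl : IsClosed (M : Set G) := M.isClosed_of_isOpen hMo
  have hMc : IsCompact (M : Set G) := hG.C M hMcl hMt
  have hQ : CG (G ⧸ M) := hG.quotient M hMcl hMt
  have hdis : DiscreteTopology (G ⧸ M) := QuotientGroup.discreteTopology hMo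
  obtain ⟨p, hp, x, hx0, hx1, hxp, hord, hgen⟩ := hQ.pruefer
  have hpow : ∀ n k, x (n + k) ^ p ^ k = x n := by
    intro n k
    induction k with
    | zero => simp
    | succ k ih => rw [pow_succ', pow_mul, ← add_assoc, hxp, ih]
  have hmono : Monotone (fun n => Subgroup.zpowers (x n)) := by
    apply monotone_nat_of_le_succ
    intro n
    rw [Subgroup.zpowers_le]
    rw [← hxp n]
    exact Subgroup.pow_mem _ (Subgroup.mem_zpowers _) _
  choose X hX using fun n => QuotientGroup.mk_surjective (s := M) (x n)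
  -- nonemptiness of E_n
  have hE : ∀ n, ∃ g : G, (g : G ⧸ M) = x n ∧ g ^ p ^ n = 1 := by
    intro n
    let F : ℕ → Set G := fun k => {g : G | (X n)⁻¹ * g ∈ M ∧ g ^ p ^ n * X (n + k) = X (n + k) * g ^ p ^ n}
    have hmk : ∀ g : G, (X n)⁻¹ * g ∈ M → (g : G ⧸ M) = x n := by
      intro g hg
      rw [← QuotientGroup.eq] at hg
      rw [← hg, hX]
    have hgM : ∀ g : G, (X n)⁻¹ * g ∈ M → g ^ p ^ n ∈ M := by
      intro g hg
      rw [← QuotientGroup.eq_one_iff, QuotientGroup.mk_pow, hmk g hg, ← hord n, pow_orderOf_eq_one]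
    have hXn : IsCompact {g : G | (X n)⁻¹ * g ∈ M} := by
      have : {g : G | (X n)⁻¹ * g ∈ M} = (fun m => X n * m) '' (M : Set G) := by
        ext g
        constructor
        · intro h; exact ⟨_, h, by group⟩
        · rintro ⟨m, hm, rfl⟩
          simpa using hm
      rw [this]
      exact hMc.image (by fun_prop)
    have hFcl : ∀ k, IsClosed (F k) := by
      intro k
      exact (hMcl.preimage (by fun_prop)).inter (isClosed_eq (by fun_prop) (by fun_prop))
    have hFne : ∀ k, (F k).Nonempty := by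
      intro k
      refine ⟨X (n + k) ^ p ^ k, ?_, ?_⟩
      · rw [← QuotientGroup.eq, QuotientGroup.mk_pow, hX, hX, hpow]
      · rw [← pow_mul]
        exact ((Commute.refl (X (n + k))).pow_left _)
    have hFmono : ∀ k, F (k + 1) ⊆ F k := by
      rintro k g ⟨hg1, hg2⟩
      refine ⟨hg1, ?_⟩
      have h1 : ((X (n + (k + 1)) ^ p : G) : G ⧸ M) = X (n + k) := by
        rw [QuotientGroup.mk_pow, hX, hX]
        exact hxp (n + k)
      rw [QuotientGroup.eq] at h1
      obtain ⟨m, hm, hmX⟩ : ∃ m ∈ M, X (n + k) = X (n + (k + 1)) ^ p * m :=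
        ⟨_, h1, by group⟩
      have h2 : Commute (g ^ p ^ n) (X (n + (k + 1))) := hg2
      have h3 : Commute (g ^ p ^ n) m := hMcomm _ (hgM g hg1) _ hm
      rw [hmX]
      exact (h2.pow_right p).mul_right h3
    have hF0 : IsCompact (F 0) := hXn.of_isClosed_subset (hFcl 0) (fun g hg => hg.1)
    obtain ⟨g, hg⟩ := IsCompact.nonempty_iInter_of_sequence_nonempty_isCompact_isClosed F hFmono
      hFne hF0 hFcl
    rw [Set.mem_iInter] at hg
    have hg1 := (hg 0).1
    refine ⟨g, hmk g hg1, hMZ _ (hgM g hg1) ?_⟩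
    rw [Subgroup.mem_center_iff]
    intro h
    obtain ⟨N, hN⟩ := hgen (h : G ⧸ M)
    have hN' : (h : G ⧸ M) ∈ Subgroup.zpowers (x (n + N)) := hmono (Nat.le_add_left N n) hN
    obtain ⟨j, hj⟩ := Subgroup.mem_zpowers_iff.1 hN'
    have h1 : ((X (n + N) ^ j : G) : G ⧸ M) = h := by
      rw [QuotientGroup.mk_zpow, hX]; exact hj
    rw [QuotientGroup.eq] at h1
    obtain ⟨m, hm, hmX⟩ : ∃ m ∈ M, h = X (n + N) ^ j * m := ⟨_, h1, by group⟩
    have h2 : Commute (g ^ p ^ n) (X (n + N)) := (hg N).2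
    have h3 : Commute (g ^ p ^ n) m := hMcomm _ (hgM g hg1) _ hm
    rw [hmX]
    exact ((h2.zpow_right j).mul_right h3).eq.symm
  -- coherent sequence
  obtain ⟨f, hf0, hfx, hfp⟩ : ∃ f : ℕ → G, f 0 = 1 ∧ (∀ n, (f n : G ⧸ M) = x n) ∧
      ∀ n, f (n + 1) ^ p = f n := by
    let S : Set (ℕ → G) := Set.pi Set.univ (fun n => {g : G | (X n)⁻¹ * g ∈ M})
    have hSc : IsCompact S := by
      apply isCompact_univ_pi
      intro n
      have : {g : G | (X n)⁻¹ * g ∈ M} = (fun m => X n * m) '' (M : Set G) := by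
        ext g
        constructor
        · intro h; exact ⟨_, h, by group⟩
        · rintro ⟨m, hm, rfl⟩
          simpa using hm
      rw [this]
      exact hMc.image (by fun_prop)
    have hScl : IsClosed S := hSc.isClosed
    let F : ℕ → Set (ℕ → G) := fun N => {f | f ∈ S ∧ f 0 = 1 ∧ ∀ n < N, f (n + 1) ^ p = f n}
    have hFcl : ∀ N, IsClosed (F N) := by
      intro N
      have : F N = S ∩ ({f : ℕ → G | f 0 = 1} ∩ ⋂ n, ⋂ (_ : n < N), {f : ℕ → G | f (n + 1) ^ p = f n}) := by
        ext f; simp only [F, Set.mem_ofPred_eq, Set.mem_inter_iff, Set.mem_iInter]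
      rw [this]
      refine hScl.inter ((isClosed_eq (by fun_prop) (by fun_prop)).inter
        (isClosed_iInter fun n => isClosed_iInter fun _ => ?_))
      exact isClosed_eq (by fun_prop) (by fun_prop)
    have hFmono : ∀ N, F (N + 1) ⊆ F N := by
      rintro N f ⟨h1, h0, h2⟩
      exact ⟨h1, h0, fun n hn => h2 n (by omega)⟩
    have hFne : ∀ N, (F N).Nonempty := by
      intro N
      obtain ⟨e, he, he1⟩ := hE N
      refine ⟨fun n => if n ≤ N then e ^ p ^ (N - n) else X n, ?_, by simpa using he1, ?_⟩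
      · intro n _
        simp only [Set.mem_ofPred_eq]
        split_ifs with h
        · rw [← QuotientGroup.eq, QuotientGroup.mk_pow, he, hX]
          have := hpow n (N - n)
          rw [Nat.add_sub_cancel' h] at this
          exact this.symm
        · simp
      · intro n hn
        simp only
        rw [if_pos (by omega), if_pos (by omega), ← pow_mul, ← pow_succ]
        congr 2
        omega
    obtain ⟨f, hf⟩ := IsCompact.nonempty_iInter_of_sequence_nonempty_isCompact_isClosed F hFmono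
      hFne (hSc.of_isClosed_subset (hFcl 0) (fun f hf => hf.1)) hFcl
    rw [Set.mem_iInter] at hf
    refine ⟨f, (hf 0).2.1, fun n => ?_, fun n => (hf (n + 1)).2.2 n (by omega)⟩
    have := (hf 0).1 n trivial
    simp only [Set.mem_ofPred_eq] at this
    rw [← QuotientGroup.eq] at this
    rw [← this, hX]
  have hfpow : ∀ n, f n ^ p ^ n = 1 := by
    intro n
    have : ∀ k, f k ^ p ^ k = f 0 := by
      intro k
      induction k with
      | zero => simp
      | succ k ih => rw [pow_succ', pow_mul, hfp, ih]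
    rw [this, hf0]
  have hfmono : Monotone (fun n => Subgroup.zpowers (f n)) := by
    apply monotone_nat_of_le_succ
    intro n
    rw [Subgroup.zpowers_le]
    rw [← hfp n]
    exact Subgroup.pow_mem _ (Subgroup.mem_zpowers _) _
  let H : Subgroup G := ⨆ n, Subgroup.zpowers (f n)
  have hHM : ∀ h ∈ H, h ∈ M → h = 1 := by
    intro h hh hm
    obtain ⟨n, hn⟩ := (Subgroup.mem_iSup_of_directed hfmono.directed_le).1 hh
    obtain ⟨j, rfl⟩ := Subgroup.mem_zpowers_iff.1 hn
    have h1 : x n ^ j = 1 := by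
      rw [← hfx n, ← QuotientGroup.mk_zpow]
      exact (QuotientGroup.eq_one_iff _).2 hm
    rw [← orderOf_dvd_iff_zpow_eq_one, hord] at h1
    obtain ⟨i, hi⟩ := h1
    rw [hi, zpow_mul]
    have : f n ^ ((p ^ n : ℕ) : ℤ) = 1 := by rw [zpow_natCast]; exact hfpow n
    rw [this, one_zpow]
  have hHd : DiscreteTopology H := by
    apply discreteTopology_of_isOpen_singleton_one
    have : ({1} : Set H) = Subtype.val ⁻¹' (M : Set G) := by
      ext h
      constructor
      · intro h1
        rw [Set.mem_singleton_iff.1 h1]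
        exact one_mem M
      · intro h1
        exact Subtype.ext (hHM h h.2 h1)
    rw [this]
    exact hMo.preimage continuous_subtype_val
  have hHcl : IsClosed (H : Set G) := Subgroup.isClosed_of_discrete
  have hHt : H ≠ ⊤ := by
    intro h
    apply hM1
    rw [eq_bot_iff]
    intro m hm
    exact hHM m (by rw [h]; trivial) hm
  have hHc : IsCompact (H : Set G) := hG.C H hHcl hHt
  have hHcs : CompactSpace H := isCompact_iff_compactSpace.1 hHc
  have hHf : Finite H := finite_of_compact_of_discrete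
  obtain ⟨n, hn⟩ : ∃ n, Nat.card H < p ^ n := ⟨Nat.card H, Nat.lt_pow_self hp.one_lt⟩
  have h1 : f n ∈ H := (le_iSup (fun n => Subgroup.zpowers (f n)) n) (Subgroup.mem_zpowers _)
  have h2 : orderOf (⟨f n, h1⟩ : H) ≤ Nat.card H := orderOf_le_card
  rw [Subgroup.orderOf_mk] at h2
  have h3 : orderOf (x n) ∣ orderOf (f n) := by
    rw [← hfx n]
    exact orderOf_map_dvd (QuotientGroup.mk' M) (f n)
  have h4 : 0 < orderOf (f n) := by
    rw [orderOf_pos_iff, isOfFinOrder_iff_pow_eq_one]
    exact ⟨p ^ n, pow_pos hp.pos n, hfpow n⟩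
  rw [hord] at h3
  have := Nat.le_of_dvd h4 h3
  omega

/-- closures of cyclic groups commute. -/
lemma zp_comm [T2Space G] (g : G) : ∀ a ∈ (Subgroup.zpowers g).topologicalClosure,
    ∀ b ∈ (Subgroup.zpowers g).topologicalClosure, a * b = b * a := by
  have h1 : (Subgroup.zpowers g).topologicalClosure ≤ Subgroup.centralizer {g} := by
    apply Subgroup.topologicalClosure_minimal _ _ (isClosed_centralizer' _)
    rw [Subgroup.zpowers_le, Subgroup.mem_centralizer_iff]
    intro h hh
    rw [Set.mem_singleton_iff.1 hh]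
  have h2 : (Subgroup.zpowers g).topologicalClosure ≤
      Subgroup.centralizer ((Subgroup.zpowers g).topologicalClosure : Set G) := by
    apply Subgroup.topologicalClosure_minimal _ _ (isClosed_centralizer' _)
    rw [Subgroup.zpowers_le, Subgroup.mem_centralizer_iff]
    intro h hh
    exact ((Subgroup.mem_centralizer_iff.1 (h1 hh)) g rfl).symm
  intro a ha b hb
  exact (Subgroup.mem_centralizer_iff.1 (h2 hb)) a ha

lemma comm_quot_of_le {M : Subgroup G} [M.Normal] (h : commutator G ≤ M) :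
    ∀ a b : G ⧸ M, a * b = b * a := by
  intro a b
  obtain ⟨a, rfl⟩ := QuotientGroup.mk_surjective a
  obtain ⟨b, rfl⟩ := QuotientGroup.mk_surjective b
  rw [← commutatorElement_eq_one_iff_mul_comm]
  have h1 : ((⁅a, b⁆ : G) : G ⧸ M) = 1 :=
    (QuotientGroup.eq_one_iff _).2 (h (Subgroup.commutator_mem_commutator trivial trivial))
  rw [← h1]
  simp [commutatorElement_def]

/-- the local monothetic property modulo `M`. -/
lemma lm [T2Space G] [LocallyCompactSpace G] (hG : CG G) (M R : Subgroup G)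
    [hM : M.Normal] (hVM : VD (G ⧸ M)) (hMcl : IsClosed (M : Set G)) (hcM : commutator G ≤ M)
    (hRo : IsOpen (R : Set G)) (hMR : M ≤ R) {g : G} (hg : g ∉ R) {r : G} (hr : r ∈ R) :
    ∃ a ∈ (Subgroup.zpowers g).topologicalClosure, ∃ m ∈ M, r = a * m := by
  set P := (Subgroup.zpowers g).topologicalClosure with hP
  by_cases hPt : P = ⊤
  · exact ⟨r, by rw [hPt]; trivial, 1, one_mem _, by simp⟩
  have hPc : IsCompact (P : Set G) := hG.C P (Subgroup.isClosed_topologicalClosure _) hPt
  have hMt : M ≠ ⊤ := by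
    intro h
    apply hg
    rw [h, top_le_iff] at hMR
    rw [hMR]; trivial
  have hMcl' : IsClosed (M : Set G) := hMcl
  have hQ : CG (G ⧸ M) := hG.quotient M hMcl hMt
  have hcl : IsClosed ((P.map (QuotientGroup.mk' M) : Subgroup (G ⧸ M)) : Set (G ⧸ M)) := by
    rw [Subgroup.coe_map]
    exact (hPc.image QuotientGroup.continuous_mk).isClosed
  have hcomap : (R.map (QuotientGroup.mk' M)).comap (QuotientGroup.mk' M) = R := by
    rw [Subgroup.comap_map_eq, QuotientGroup.ker_mk', sup_eq_left.2 hMR]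
  have h1 := hQ.mono hVM (comm_quot_of_le hcM) (R.map (QuotientGroup.mk' M))
    (QuotientGroup.isOpenMap_coe _ hRo) (g : G ⧸ M) (by
      intro h
      apply hg
      rw [← hcomap]
      exact h)
  have h2 : (Subgroup.zpowers (g : G ⧸ M)).topologicalClosure ≤ P.map (QuotientGroup.mk' M) := by
    apply Subgroup.topologicalClosure_minimal _ _ hcl
    rw [Subgroup.zpowers_le]
    exact ⟨g, Subgroup.le_topologicalClosure _ (Subgroup.mem_zpowers _), rfl⟩
  obtain ⟨a, ha, har⟩ := h2 (h1 ⟨r, hr, rfl⟩)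
  refine ⟨a, ha, a⁻¹ * r, ?_, by group⟩
  rw [← QuotientGroup.eq]
  exact har

/-- stage 4. -/
theorem stage4 [T2Space G] [LocallyCompactSpace G] (hG : CG G) (hV : VD G) (R M : Subgroup G)
    [hR : R.Normal] [hM : M.Normal] (hRo : IsOpen (R : Set G)) (hRt : R ≠ ⊤)
    (hMcl : IsClosed (M : Set G)) (hMR : M ≤ R) (hcM : commutator G ≤ M)
    (hRM : ∀ r ∈ R, ∀ m ∈ M, r * m = m * r) (p : ℕ) (hp : p.Prime)
    (hpR : ∀ g : G, ∃ k, g ^ p ^ k ∈ R) (hexp : ∀ m ∈ M, m ^ p = 1)
    (hMz : ¬ M ≤ Subgroup.center G) : False := by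
  have hRcl : IsClosed (R : Set G) := R.isClosed_of_isOpen hRo
  have hRc : IsCompact (R : Set G) := hG.C R hRcl hRt
  have hMc : IsCompact (M : Set G) := hRc.of_isClosed_subset hMcl hMR
  have hMt : M ≠ ⊤ := by
    intro h
    rw [h, top_le_iff] at hMR
    exact hRt hMR
  have hLM := fun {g : G} (hg : g ∉ R) {r : G} (hr : r ∈ R) => lm hG M R (hV.quotient M) hMcl hcM hRo hMR hg hr
  -- R is commutative
  have hRcomm : ∀ a ∈ R, ∀ b ∈ R, a * b = b * a := by
    obtain ⟨g, -, hg⟩ := SetLike.exists_of_lt (lt_top_iff_ne_top.2 hRt)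
    intro r hr r' hr'
    obtain ⟨a, ha, m, hm, rfl⟩ := hLM hg hr
    obtain ⟨a', ha', m', hm', rfl⟩ := hLM hg hr'
    have haR : a ∈ R := by
      have := R.mul_mem hr (R.inv_mem (hMR hm))
      simpa using this
    have haR' : a' ∈ R := by
      have := R.mul_mem hr' (R.inv_mem (hMR hm'))
      simpa using this
    have c1 : Commute a a' := zp_comm g a ha a' ha'
    have c2 : Commute a m' := hRM a haR m' hm'
    have c3 : Commute m a' := (hRM a' haR' m hm).symm
    have c4 : Commute m m' := hRM m (hMR hm) m' hm'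
    exact ((c1.mul_right c2).mul_left (c3.mul_right c4)).eq
  -- structure of the discrete quotient
  have hRcl' : IsClosed (R : Set G) := hRcl
  have hQ : CG (G ⧸ R) := hG.quotient R hRcl hRt
  have hdis : DiscreteTopology (G ⧸ R) := QuotientGroup.discreteTopology hRo
  obtain ⟨q, hq, x, hx0, hx1, hxq, hord, hgen⟩ := hQ.pruefer
  have hqp : q = p := by
    obtain ⟨g, hg⟩ := QuotientGroup.mk_surjective (s := R) (x 1)
    obtain ⟨k, hk⟩ := hpR g
    have h1 : x 1 ^ p ^ k = 1 := by
      rw [← hg, ← QuotientGroup.mk_pow]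
      exact (QuotientGroup.eq_one_iff _).2 hk
    have h2 : q ∣ p ^ k := by
      have := orderOf_dvd_of_pow_eq_one h1
      rwa [hord, pow_one] at this
    exact (Nat.prime_dvd_prime_iff_eq hq hp).1 (hq.dvd_of_dvd_pow h2)
  subst hqp
  have hdivR : ∀ g : G, ∃ h : G, g⁻¹ * h ^ q ∈ R := by
    intro g
    obtain ⟨n, hn⟩ := hgen (g : G ⧸ R)
    obtain ⟨j, hj⟩ := Subgroup.mem_zpowers_iff.1 hn
    obtain ⟨X, hX⟩ := QuotientGroup.mk_surjective (s := R) (x (n + 1))
    refine ⟨X ^ j, ?_⟩
    rw [← QuotientGroup.eq, QuotientGroup.mk_pow, QuotientGroup.mk_zpow, hX, ← hj, ← hxq n,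
      ← zpow_natCast, ← zpow_natCast, ← zpow_mul, ← zpow_mul, mul_comm]
  choose X hX using fun n => QuotientGroup.mk_surjective (s := R) (x n)
  have hmono : Monotone (fun n => Subgroup.zpowers (x n)) := by
    apply monotone_nat_of_le_succ
    intro n
    rw [Subgroup.zpowers_le]
    rw [← hxq n]
    exact Subgroup.pow_mem _ (Subgroup.mem_zpowers _) _
  -- every coset of M in R meets the center
  have hcen : ∀ r ∈ R, ∃ m ∈ M, r * m ∈ Subgroup.center G := by
    intro r hr
    let F : ℕ → Set G := fun n => {m | m ∈ M ∧ (r * m) * X (n + 1) = X (n + 1) * (r * m)}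
    have hFcl : ∀ n, IsClosed (F n) := fun n =>
      hMcl.inter (isClosed_eq (by fun_prop) (by fun_prop))
    have hFne : ∀ n, (F n).Nonempty := by
      intro n
      have hXn : X (n + 1) ∉ R := by
        intro h
        have h1 : x (n + 1) = 1 := by rw [← hX]; exact (QuotientGroup.eq_one_iff _).2 h
        have h2 := hord (n + 1)
        rw [h1, orderOf_one] at h2
        have := Nat.one_lt_pow (n := n + 1) (by omega) hq.one_lt
        omega
      obtain ⟨a, ha, m, hm, ham⟩ := hLM hXn hr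
      refine ⟨m⁻¹, M.inv_mem hm, ?_⟩
      have : r * m⁻¹ = a := by rw [ham]; group
      rw [this]
      exact zp_comm _ a ha _ (Subgroup.le_topologicalClosure _ (Subgroup.mem_zpowers _))
    have hFmono : ∀ n, F (n + 1) ⊆ F n := by
      rintro n m ⟨hm, h1⟩
      refine ⟨hm, ?_⟩
      have h2 : ((X (n + 1 + 1) ^ q : G) : G ⧸ R) = X (n + 1) := by
        rw [QuotientGroup.mk_pow, hX, hX]
        exact hxq (n + 1)
      rw [QuotientGroup.eq] at h2
      obtain ⟨s, hs, hsX⟩ : ∃ s ∈ R, X (n + 1) = X (n + 1 + 1) ^ q * s := ⟨_, h2, by group⟩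
      have c1 : Commute (r * m) (X (n + 1 + 1)) := h1
      have c2 : Commute (r * m) s := hRcomm _ (R.mul_mem hr (hMR hm)) _ hs
      rw [hsX]
      exact ((c1.pow_right q).mul_right c2).eq
    obtain ⟨m, hm⟩ := IsCompact.nonempty_iInter_of_sequence_nonempty_isCompact_isClosed F hFmono
      hFne (hMc.of_isClosed_subset (hFcl 0) (fun m hm => hm.1)) hFcl
    rw [Set.mem_iInter] at hm
    refine ⟨m, (hm 0).1, ?_⟩
    rw [Subgroup.mem_center_iff]
    intro h
    obtain ⟨N, hN⟩ := hgen (h : G ⧸ R)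
    have hN' : (h : G ⧸ R) ∈ Subgroup.zpowers (x (N + 1)) := hmono (Nat.le_succ N) hN
    obtain ⟨j, hj⟩ := Subgroup.mem_zpowers_iff.1 hN'
    have h1 : ((X (N + 1) ^ j : G) : G ⧸ R) = h := by
      rw [QuotientGroup.mk_zpow, hX]; exact hj
    rw [QuotientGroup.eq] at h1
    obtain ⟨s, hs, hsX⟩ : ∃ s ∈ R, h = X (N + 1) ^ j * s := ⟨_, h1, by group⟩
    have h2 : Commute (r * m) (X (N + 1)) := (hm N).2
    have h3 : Commute (r * m) s := hRcomm _ (R.mul_mem hr (hMR (hm 0).1)) _ hs
    rw [hsX]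
    exact ((h2.zpow_right j).mul_right h3).eq.symm
  -- pass to the quotient
  let Z : Subgroup G := Subgroup.center G ⊓ R
  have hZn : Z.Normal := inferInstance
  have hZcl : IsClosed (Z : Set G) := isClosed_center'.inter hRcl
  have hZt : Z ≠ ⊤ := by
    intro h
    apply hRt
    rw [eq_top_iff, ← h]
    exact inf_le_right
  have hRn' : (R.map (QuotientGroup.mk' Z)).Normal := hR.map _ (QuotientGroup.mk'_surjective Z)
  refine stage5 (hG.quotient Z hZcl hZt) (R.map (QuotientGroup.mk' Z))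
    (QuotientGroup.isOpenMap_coe _ hRo) ?_ ?_ ?_
  · rintro _ ⟨a, ha, rfl⟩ _ ⟨b, hb, rfl⟩
    rw [← map_mul, hRcomm a ha b hb, map_mul]
  · rintro _ ⟨r, hr, rfl⟩ hc
    obtain ⟨m, hm, hrm⟩ := hcen r hr
    have h1 : QuotientGroup.mk' Z r = QuotientGroup.mk' Z m⁻¹ := by
      have : QuotientGroup.mk' Z (r * m) = 1 :=
        (QuotientGroup.eq_one_iff _).2 ⟨hrm, R.mul_mem hr (hMR hm)⟩
      rw [map_mul] at this
      rw [map_inv]
      exact eq_inv_of_mul_eq_one_left this
    rw [h1] at hc ⊢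
    have hmm := M.inv_mem hm
    generalize m⁻¹ = m' at hc hmm ⊢
    apply (QuotientGroup.eq_one_iff _).2
    refine ⟨?_, hMR hmm⟩
    rw [mem_center_iff_comm] at hc
    change m' ∈ Subgroup.center G
    rw [mem_center_iff_comm]
    have h2 : ∀ g : G, ⁅m', g⁆ ∈ Z := by
      intro g
      rw [← QuotientGroup.eq_one_iff]
      have := hc (g : G ⧸ Z)
      rw [← this]; simp [commutatorElement_def]
    intro g
    obtain ⟨h, hh⟩ := hdivR g
    have h3 : ∀ a b : G, ⁅m', a * b⁆ = ⁅m', a⁆ * ⁅m', b⁆ := by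
      intro a b
      have e1 : ⁅m', a * b⁆ = ⁅m', a⁆ * (a * ⁅m', b⁆ * a⁻¹) := by
        simp only [commutatorElement_def]; group
      rw [e1, (Subgroup.mem_center_iff.1 (h2 b).1 a)]
      group
    have h4 : ∀ (k : ℕ), ⁅m', h ^ k⁆ = ⁅m', h⁆ ^ k := by
      intro k
      induction k with
      | zero => simp
      | succ k ih => rw [pow_succ, h3, ih, pow_succ]
    have h5 : ⁅m', h⁆ ∈ M := by
      have := M.mul_mem hmm (hM.conj_mem _ (M.inv_mem hmm) h)
      simpa [commutatorElement_def, mul_assoc] using this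
    have h6 : ⁅m', h ^ q⁆ = 1 := by rw [h4, hexp _ h5]
    have h7 : ⁅m', g⁻¹ * h ^ q⁆ = 1 :=
      commutatorElement_eq_one_iff_mul_comm.2 (hRM _ hh _ hmm).symm
    have h8 : ⁅m', h ^ q⁆ = ⁅m', g⁆ * ⁅m', g⁻¹ * h ^ q⁆ := by
      rw [← h3]; congr 1; group
    rw [h6, h7, mul_one] at h8
    exact h8.symm
  · intro hb
    apply hMz
    intro m hm
    have h1 : QuotientGroup.mk' Z m ∈ R.map (QuotientGroup.mk' Z) := ⟨m, hMR hm, rfl⟩
    rw [hb, Subgroup.mem_bot] at h1
    exact ((QuotientGroup.eq_one_iff _).1 h1).1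

end Pool.Agent.Helper944.LN
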