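import Pool.Agent.Helper944.LN.CG2

set_option autoImplicit false
set_option linter.unusedVariables false
set_option linter.unusedSectionVars false

namespace Pool.Agent.Helper944.LN

open Subgroup Topology
open scoped commutatorElement Pointwise

variable {G : Type*} [Group G] [TopologicalSpace G] [IsTopologicalGroup G]

lemma comap_map_mk {N D : Subgroup G} [N.Normal] (h : N ≤ D) :
    (D.map (QuotientGroup.mk' N)).comap (QuotientGroup.mk' N) = D := by
  rw [Subgroup.comap_map_eq, QuotientGroup.ker_mk', sup_eq_left.2 h]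

lemma mem_map_mk {N D : Subgroup G} [N.Normal] (h : N ≤ D) {g : G} :
    (g : G ⧸ N) ∈ D.map (QuotientGroup.mk' N) ↔ g ∈ D := by
  conv_rhs => rw [← comap_map_mk h]
  exact Iff.rfl

lemma q_closed {N D : Subgroup G} [N.Normal] (h : N ≤ D) (hD : IsClosed (D : Set G)) :
    IsClosed ((D.map (QuotientGroup.mk' N) : Subgroup (G ⧸ N)) : Set (G ⧸ N)) := by
  rw [← (QuotientGroup.isQuotientMap_mk N).isClosed_preimage]
  have : (QuotientGroup.mk : G → G ⧸ N) ⁻¹'
      ((D.map (QuotientGroup.mk' N) : Subgroup (G ⧸ N)) : Set (G ⧸ N)) = (D : Set G) :=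
    congrArg (fun S : Subgroup G => (S : Set G)) (comap_map_mk h)
  rw [this]; exact hD

lemma q_ne_top {N D : Subgroup G} [N.Normal] (h : N ≤ D) (hD : D ≠ ⊤) :
    D.map (QuotientGroup.mk' N) ≠ ⊤ := by
  intro h1
  apply hD
  rw [← comap_map_mk h, h1, Subgroup.comap_top]

lemma q_ne_bot {N D : Subgroup G} [N.Normal] (h : N ≤ D) (hD : N ≠ D) :
    D.map (QuotientGroup.mk' N) ≠ ⊥ := by
  intro h1
  apply hD
  apply le_antisymm h
  intro d hd
  have : QuotientGroup.mk' N d ∈ D.map (QuotientGroup.mk' N) := ⟨d, hd, rfl⟩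
  rw [h1, Subgroup.mem_bot] at this
  exact (QuotientGroup.eq_one_iff _).1 this

lemma q_comm_le {N D : Subgroup G} [N.Normal] (h : commutator G ≤ D) :
    commutator (G ⧸ N) ≤ D.map (QuotientGroup.mk' N) := by
  have h1 : commutator (G ⧸ N) = (commutator G).map (QuotientGroup.mk' N) := by
    rw [commutator_def, commutator_def, Subgroup.map_commutator,
      Subgroup.map_top_of_surjective _ (QuotientGroup.mk'_surjective N)]
  rw [h1]
  exact Subgroup.map_mono h

lemma q_gc {N M : Subgroup G} [hN : N.Normal] [hM : M.Normal] (h : N ≤ M)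
    (hMcl : IsClosed (M : Set G)) (hgc : gc M = M) :
    gc (M.map (QuotientGroup.mk' N)) = M.map (QuotientGroup.mk' N) := by
  have hn : (M.map (QuotientGroup.mk' N)).Normal := hM.map _ (QuotientGroup.mk'_surjective N)
  apply le_antisymm (gc_le_self (q_closed h hMcl))
  rw [Subgroup.map_le_iff_le_comap]
  conv_lhs => rw [← hgc]
  apply gc_le ((isClosed_gc _).preimage QuotientGroup.continuous_mk)
  intro x hx g
  have h1 : ⁅(x : G ⧸ N), (g : G ⧸ N)⁆ ∈ gc (M.map (QuotientGroup.mk' N)) :=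
    comm_mem_gc (show (x : G ⧸ N) ∈ M.map (QuotientGroup.mk' N) from ⟨x, hx, rfl⟩) _
  have h2 : ((⁅x, g⁆ : G) : G ⧸ N) = ⁅(x : G ⧸ N), (g : G ⧸ N)⁆ := by simp [commutatorElement_def]
  change ((⁅x, g⁆ : G) : G ⧸ N) ∈ gc (M.map (QuotientGroup.mk' N))
  rw [h2]; exact h1

lemma gc_eq_bot [T2Space G] {M : Subgroup G} (h : M ≤ Subgroup.center G) : gc M = ⊥ := by
  rw [eq_bot_iff]
  apply gc_le (by simp)
  intro x hx g
  rw [Subgroup.mem_bot]
  exact mem_center_iff_comm.1 (h hx) g

/-- stage 3. -/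
theorem stage3 [T2Space G] [LocallyCompactSpace G] (hG : CG G) (hV : VD G) (R M : Subgroup G)
    [hR : R.Normal] [hM : M.Normal] (hRo : IsOpen (R : Set G)) (hRt : R ≠ ⊤)
    (hMcl : IsClosed (M : Set G)) (hMR : M ≤ R) (hcM : commutator G ≤ M)
    (hRM : ∀ r ∈ R, ∀ m ∈ M, r * m = m * r) (hgc : gc M = M) (hM1 : M ≠ ⊥) : False := by
  have hRcl : IsClosed (R : Set G) := R.isClosed_of_isOpen hRo
  have hRc : IsCompact (R : Set G) := hG.C R hRcl hRt
  have hMc : IsCompact (M : Set G) := hRc.of_isClosed_subset hMcl hMR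
  have hMcomm : ∀ a ∈ M, ∀ b ∈ M, a * b = b * a := fun a ha b hb => hRM a (hMR ha) b hb
  have hRcl' : IsClosed (R : Set G) := hRcl
  have hQ : CG (G ⧸ R) := hG.quotient R hRcl hRt
  have hdis : DiscreteTopology (G ⧸ R) := QuotientGroup.discreteTopology hRo
  obtain ⟨p, hp, x, hx0, hx1, hxp, hord, hgen⟩ := hQ.pruefer
  have hpR : ∀ g : G, ∃ k, g ^ p ^ k ∈ R := by
    intro g
    obtain ⟨n, hn⟩ := hgen (g : G ⧸ R)
    obtain ⟨j, hj⟩ := Subgroup.mem_zpowers_iff.1 hn
    refine ⟨n, (QuotientGroup.eq_one_iff _).1 ?_⟩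
    rw [QuotientGroup.mk_pow, ← hj, ← zpow_natCast, ← zpow_mul, mul_comm, zpow_mul, zpow_natCast,
      ← hord n, pow_orderOf_eq_one, one_zpow]
  -- the subgroup of p-th powers
  let Mp : Subgroup G :=
    { carrier := {g | ∃ m ∈ M, m ^ p = g}
      mul_mem' := by
        rintro _ _ ⟨a, ha, rfl⟩ ⟨b, hb, rfl⟩
        exact ⟨a * b, M.mul_mem ha hb, (show Commute a b from hMcomm a ha b hb).mul_pow p⟩
      one_mem' := ⟨1, one_mem _, one_pow _⟩
      inv_mem' := by
        rintro _ ⟨a, ha, rfl⟩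
        exact ⟨a⁻¹, M.inv_mem ha, inv_pow a p⟩ }
  have hMpn : Mp.Normal := ⟨by
    rintro _ ⟨a, ha, rfl⟩ g
    exact ⟨g * a * g⁻¹, hM.conj_mem a ha g, conj_pow⟩⟩
  have hMpM : Mp ≤ M := by
    rintro _ ⟨a, ha, rfl⟩
    exact M.pow_mem ha p
  have hMpcl : IsClosed (Mp : Set G) := by
    have : (Mp : Set G) = (fun m => m ^ p) '' (M : Set G) := by
      ext g; exact Iff.rfl
    rw [this]
    exact (hMc.image (by fun_prop)).isClosed
  by_cases hMp : Mp = M
  · -- the divisible case: the action is trivial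
    have hroot : ∀ k : ℕ, ∀ m ∈ M, ∃ m' ∈ M, m' ^ p ^ k = m := by
      intro k
      induction k with
      | zero => intro m hm; exact ⟨m, hm, by simp⟩
      | succ k ih =>
        intro m hm
        obtain ⟨m1, hm1, rfl⟩ := ih m hm
        have : m1 ∈ Mp := by rw [hMp]; exact hm1
        obtain ⟨m2, hm2, rfl⟩ := this
        exact ⟨m2, hm2, by rw [← pow_mul, ← pow_succ']⟩
    have hcen : M ≤ Subgroup.center G := by
      intro m hm
      rw [Subgroup.mem_center_iff]
      intro g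
      obtain ⟨c, hc⟩ := unif_one hG.ln M hMc hMcomm g
      obtain ⟨n, hn⟩ := hpR g
      have hstep : ∀ k, (∀ m ∈ M, (dl g)^[k + 1 + 1] m = 1) → ∀ m ∈ M, (dl g)^[k + 1] m = 1 := by
        intro k hk m hm
        -- exponent bound
        have hex : ∀ m ∈ M, ((dl g)^[k + 1] m) ^ p ^ n = 1 := by
          intro m hm
          set u := (dl g)^[k] m with hu
          set v := (dl g)^[k + 1] m with hv
          have huM : u ∈ M := dl_iter_mem hm g k
          have hvM : v ∈ M := dl_iter_mem hm g (k + 1)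
          have hvu : v = dl g u := by rw [hv, Function.iterate_succ_apply']
          have hgv : g * v * g⁻¹ = v := by
            have := hk m hm
            rw [Function.iterate_succ_apply', ← hv] at this
            exact mul_inv_eq_one.1 this
          have hgu : g * u * g⁻¹ = v * u := by
            rw [hvu]; simp only [dl, commutatorElement_def]; group
          have key : ∀ j : ℕ, g ^ j * u * (g ^ j)⁻¹ = v ^ j * u := by
            intro j
            induction j with
            | zero => simp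
            | succ j ih =>
              have e1 : g ^ (j + 1) * u * (g ^ (j + 1))⁻¹ = g * (g ^ j * u * (g ^ j)⁻¹) * g⁻¹ := by
                rw [pow_succ']; group
              have e2 : g * (v ^ j * u) * g⁻¹ = (g * v * g⁻¹) ^ j * (g * u * g⁻¹) := by
                rw [conj_pow]; group
              rw [e1, ih, e2, hgv, hgu, ← mul_assoc, ← pow_succ]
          have h2 := key (p ^ n)
          have h3 : g ^ p ^ n * u * (g ^ p ^ n)⁻¹ = u := by
            rw [hRM _ hn u huM]; group
          rw [h3] at h2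
          have : v ^ p ^ n * u = 1 * u := by rw [← h2, one_mul]
          exact mul_right_cancel this
        obtain ⟨m', hm', rfl⟩ := hroot n m hm
        have hpow : ∀ j : ℕ, (dl g)^[k + 1] (m' ^ j) = ((dl g)^[k + 1] m') ^ j := by
          intro j
          induction j with
          | zero => simp [dl_iter_one]
          | succ j ih => rw [pow_succ, dl_iter_mul hMcomm (M.pow_mem hm' j) hm', ih, pow_succ]
        rw [hpow]
        exact hex m' hm'
      have hdown : ∀ c, (∀ m ∈ M, (dl g)^[c + 1] m = 1) → ∀ m ∈ M, dl g m = 1 := by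
        intro c
        induction c with
        | zero => intro h; exact h
        | succ c ih => intro h; exact ih (hstep c h)
      have h1 := hdown c (fun m hm => by rw [Function.iterate_succ_apply', hc m hm, dl_one]) m hm
      exact commutatorElement_eq_one_iff_mul_comm.1 h1
    rw [gc_eq_bot hcen] at hgc
    exact hM1 hgc.symm
  · have hMpt : Mp ≠ ⊤ := by
      intro h
      apply hRt
      rw [eq_top_iff, ← h]
      exact hMpM.trans hMR
    have hMpR : Mp ≤ R := hMpM.trans hMR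
    have i1 : (R.map (QuotientGroup.mk' Mp)).Normal := hR.map _ (QuotientGroup.mk'_surjective Mp)
    have i2 : (M.map (QuotientGroup.mk' Mp)).Normal := hM.map _ (QuotientGroup.mk'_surjective Mp)
    have hgc' := q_gc hMpM hMcl hgc
    refine stage4 (hG.quotient Mp hMpcl hMpt) (hV.quotient Mp) (R.map (QuotientGroup.mk' Mp))
      (M.map (QuotientGroup.mk' Mp)) (QuotientGroup.isOpenMap_coe _ hRo) (q_ne_top hMpR hRt)
      (q_closed hMpM hMcl) (Subgroup.map_mono hMR) (q_comm_le hcM) ?_ p hp ?_ ?_ ?_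
    · rintro _ ⟨r, hr, rfl⟩ _ ⟨m, hm, rfl⟩
      rw [← map_mul, hRM r hr m hm, map_mul]
    · intro q
      obtain ⟨g, rfl⟩ := QuotientGroup.mk'_surjective Mp q
      obtain ⟨k, hk⟩ := hpR g
      exact ⟨k, g ^ p ^ k, hk, map_pow _ _ _⟩
    · rintro _ ⟨m, hm, rfl⟩
      rw [← map_pow]
      exact (QuotientGroup.eq_one_iff _).2 ⟨m, hm, rfl⟩
    · intro h
      rw [gc_eq_bot h] at hgc'
      exact q_ne_bot hMpM hMp hgc'.symm

/-- the commutator subgroup is contained in every proper open normal subgroup. -/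
lemma comm_le_open [T2Space G] [LocallyCompactSpace G] (hG : CG G) (R : Subgroup G) [R.Normal]
    (hRo : IsOpen (R : Set G)) (hRt : R ≠ ⊤) : commutator G ≤ R := by
  have hRcl : IsClosed (R : Set G) := R.isClosed_of_isOpen hRo
  have hQ : CG (G ⧸ R) := hG.quotient R hRcl hRt
  have hdis : DiscreteTopology (G ⧸ R) := QuotientGroup.discreteTopology hRo
  have hc := hQ.comm_of_discrete
  rw [commutator_def, Subgroup.commutator_le]
  intro a _ b _
  rw [← QuotientGroup.eq_one_iff]
  have : ((⁅a, b⁆ : G) : G ⧸ R) = ⁅(a : G ⧸ R), (b : G ⧸ R)⁆ := by simp [commutatorElement_def]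
  rw [this]
  exact commutatorElement_eq_one_iff_mul_comm.2 (hc _ _)

lemma exists_open_normal [T2Space G] [LocallyCompactSpace G] (hG : CG G) :
    ∃ R : Subgroup G, R.Normal ∧ IsOpen (R : Set G) ∧ R ≠ ⊤ := by
  obtain ⟨K, h1, h2, h3⟩ := main G hG.ln (fun N _ h1 h2 => hG.C N h1 h2)
  refine ⟨K, h1, h2, ?_⟩
  intro h
  rw [h] at h3
  exact hG.nc ⟨by simpa using h3⟩

/-- stage 2. -/
theorem stage2 [T2Space G] [LocallyCompactSpace G] (hG : CG G) (hV : VD G) (M : Subgroup G)
    [hM : M.Normal] (hMcl : IsClosed (M : Set G)) (hcM : commutator G ≤ M)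
    (hMcomm : ∀ a ∈ M, ∀ b ∈ M, a * b = b * a) (hgc : gc M = M) (hM1 : M ≠ ⊥) : False := by
  obtain ⟨R, hR, hRo, hRt⟩ := exists_open_normal hG
  have hRcl : IsClosed (R : Set G) := R.isClosed_of_isOpen hRo
  have hcR := comm_le_open hG R hRo hRt
  have hMR : M ≤ R := by
    rw [← hgc]
    exact gc_le hRcl (fun x _ g => hcR (Subgroup.commutator_mem_commutator trivial trivial))
  have hMt : M ≠ ⊤ := by
    intro h
    rw [h, top_le_iff] at hMR
    exact hRt hMR
  have hMc : IsCompact (M : Set G) := hG.C M hMcl hMt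
  obtain ⟨g0, -, hg0⟩ := SetLike.exists_of_lt (lt_top_iff_ne_top.2 hRt)
  let M1 : Subgroup G :=
    { carrier := {g | ∃ m ∈ M, dl g0 m = g}
      mul_mem' := by
        rintro _ _ ⟨a, ha, rfl⟩ ⟨b, hb, rfl⟩
        exact ⟨a * b, M.mul_mem ha hb, dl_mul hMcomm ha hb g0⟩
      one_mem' := ⟨1, one_mem _, dl_one _⟩
      inv_mem' := by
        rintro _ ⟨a, ha, rfl⟩
        exact ⟨a⁻¹, M.inv_mem ha, by simpa using dl_iter_inv hMcomm ha g0 1⟩ }
  have hM1n : M1.Normal := ⟨by
    rintro _ ⟨a, ha, rfl⟩ h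
    refine ⟨h * a * h⁻¹, hM.conj_mem a ha h, ?_⟩
    have h1 : ⁅h, g0⁆ ∈ M := hcM (Subgroup.commutator_mem_commutator trivial trivial)
    have h2 : h * dl g0 a * h⁻¹ = dl (⁅h, g0⁆ * g0) (h * a * h⁻¹) := by
      simp only [dl, commutatorElement_def]; group
    have h3 : g0 * (h * a * h⁻¹) * g0⁻¹ ∈ M := hM.conj_mem _ (hM.conj_mem a ha h) g0
    rw [h2]
    have h4 : dl (⁅h, g0⁆ * g0) (h * a * h⁻¹) =
      ⁅h, g0⁆ * (g0 * (h * a * h⁻¹) * g0⁻¹) * ⁅h, g0⁆⁻¹ * (h * a * h⁻¹)⁻¹ := by
      simp only [dl, commutatorElement_def]; group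
    rw [h4, hMcomm _ h1 _ h3]
    simp only [dl, commutatorElement_def]; group⟩
  have hM1M : M1 ≤ M := by
    rintro _ ⟨a, ha, rfl⟩
    exact dl_mem ha g0
  have hM1cl : IsClosed (M1 : Set G) := by
    have : (M1 : Set G) = (dl g0) '' (M : Set G) := by
      ext g; exact Iff.rfl
    rw [this]
    exact (hMc.image (continuous_dl g0)).isClosed
  have hM1ne : M1 ≠ M := by
    intro h
    obtain ⟨c, hc⟩ := unif_one hG.ln M hMc hMcomm g0
    have hs : ∀ k : ℕ, ∀ m ∈ M, ∃ m' ∈ M, (dl g0)^[k] m' = m := by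
      intro k
      induction k with
      | zero => intro m hm; exact ⟨m, hm, rfl⟩
      | succ k ih =>
        intro m hm
        obtain ⟨m1, hm1, rfl⟩ := ih m hm
        have : m1 ∈ M1 := by rw [h]; exact hm1
        obtain ⟨m2, hm2, rfl⟩ := this
        exact ⟨m2, hm2, by rw [Function.iterate_succ_apply]⟩
    apply hM1
    rw [eq_bot_iff]
    intro m hm
    obtain ⟨m', hm', rfl⟩ := hs c m hm
    rw [hc m' hm']; exact one_mem _
  have hM1t : M1 ≠ ⊤ := by
    intro h
    apply hMt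
    rw [eq_top_iff, ← h]
    exact hM1M
  have i1 : (R.map (QuotientGroup.mk' M1)).Normal := hR.map _ (QuotientGroup.mk'_surjective M1)
  have i2 : (M.map (QuotientGroup.mk' M1)).Normal := hM.map _ (QuotientGroup.mk'_surjective M1)
  -- the elements acting trivially modulo M1
  let Cc : Subgroup G := (Subgroup.centralizer ((M.map (QuotientGroup.mk' M1) : Subgroup (G ⧸ M1)) :
    Set (G ⧸ M1))).comap (QuotientGroup.mk' M1)
  have hM1cl' : IsClosed (M1 : Set G) := hM1cl
  have hCccl : IsClosed (Cc : Set G) := (isClosed_centralizer' _).preimage QuotientGroup.continuous_mk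
  have hg0C : g0 ∈ Cc := by
    change QuotientGroup.mk' M1 g0 ∈ Subgroup.centralizer _
    rw [Subgroup.mem_centralizer_iff]
    rintro _ ⟨m, hm, rfl⟩
    have h1 : QuotientGroup.mk' M1 (dl g0 m) = 1 := (QuotientGroup.eq_one_iff _).2 ⟨m, hm, rfl⟩
    have h2 : ⁅QuotientGroup.mk' M1 g0, QuotientGroup.mk' M1 m⁆ = 1 := by
      rw [← map_commutatorElement]; exact h1
    exact (commutatorElement_eq_one_iff_mul_comm.1 h2).symm
  have hMC : M ≤ Cc := by
    intro a ha
    change QuotientGroup.mk' M1 a ∈ Subgroup.centralizer _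
    rw [Subgroup.mem_centralizer_iff]
    rintro _ ⟨m, hm, rfl⟩
    rw [← map_mul, hMcomm m hm a ha, map_mul]
  have hRC : R ≤ Cc := by
    intro r hr
    obtain ⟨a, ha, m, hm, rfl⟩ := lm hG M R (hV.quotient M) hMcl hcM hRo hMR hg0 hr
    have : (Subgroup.zpowers g0).topologicalClosure ≤ Cc := by
      apply Subgroup.topologicalClosure_minimal _ _ hCccl
      rw [Subgroup.zpowers_le]; exact hg0C
    exact Cc.mul_mem (this ha) (hMC hm)
  refine stage3 (hG.quotient M1 hM1cl hM1t) (hV.quotient M1) (R.map (QuotientGroup.mk' M1))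
    (M.map (QuotientGroup.mk' M1)) (QuotientGroup.isOpenMap_coe _ hRo) (q_ne_top (hM1M.trans hMR) hRt)
    (q_closed hM1M hMcl) (Subgroup.map_mono hMR) (q_comm_le hcM) ?_ (q_gc hM1M hMcl hgc)
    (q_ne_bot hM1M hM1ne)
  rintro _ ⟨r, hr, rfl⟩ m hm
  exact ((Subgroup.mem_centralizer_iff.1 (hRC hr)) m hm).symm

/-- class two case. -/
theorem class2 [T2Space G] [LocallyCompactSpace G] (hG : CG G) (M : Subgroup G)
    [hM : M.Normal] (hVM : VD (G ⧸ M)) (hMcl : IsClosed (M : Set G)) (hcM : commutator G ≤ M)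
    (hMt : M ≠ ⊤) (hMz : M ≤ Subgroup.center G) : ∀ a b : G, a * b = b * a := by
  obtain ⟨R0, hR0, hR0o, hR0t⟩ := exists_open_normal hG
  have hR0cl : IsClosed (R0 : Set G) := R0.isClosed_of_isOpen hR0o
  have hcR0 := comm_le_open hG R0 hR0o hR0t
  have hMc : IsCompact (M : Set G) := hG.C M hMcl hMt
  have hR0c : IsCompact (R0 : Set G) := hG.C R0 hR0cl hR0t
  -- enlarge by M
  let R := R0 ⊔ M
  have hRn : R.Normal := inferInstance
  have hRo : IsOpen (R : Set G) := Subgroup.isOpen_mono le_sup_left hR0o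
  have hRt : R ≠ ⊤ := by
    intro h
    have h1 : (Set.univ : Set G) ⊆ (R0 : Set G) * (M : Set G) := by
      intro g _
      have : g ∈ R0 ⊔ M := by change g ∈ R; rw [h]; trivial
      rw [← Subgroup.mul_normal]
      exact this
    exact hG.nc ⟨(hR0c.mul hMc).of_isClosed_subset isClosed_univ h1⟩
  have hRcl : IsClosed (R : Set G) := R.isClosed_of_isOpen hRo
  have hQ : CG (G ⧸ R) := hG.quotient R hRcl hRt
  have hdis : DiscreteTopology (G ⧸ R) := QuotientGroup.discreteTopology hRo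
  obtain ⟨p, hp, x, hx0, hx1, hxp, hord, hgen⟩ := hQ.pruefer
  have hmono : Monotone (fun n => Subgroup.zpowers (x n)) := by
    apply monotone_nat_of_le_succ
    intro n
    rw [Subgroup.zpowers_le]
    rw [← hxp n]
    exact Subgroup.pow_mem _ (Subgroup.mem_zpowers _) _
  intro a b
  obtain ⟨n, hn⟩ := hgen (a : G ⧸ R)
  obtain ⟨n', hn'⟩ := hgen (b : G ⧸ R)
  let N := max n n'
  have ha : (a : G ⧸ R) ∈ Subgroup.zpowers (x N) := hmono (le_max_left _ _) hn
  have hb : (b : G ⧸ R) ∈ Subgroup.zpowers (x N) := hmono (le_max_right _ _) hn'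
  let R1 : Subgroup G := (Subgroup.zpowers (x N)).comap (QuotientGroup.mk' R)
  have hR1o : IsOpen (R1 : Set G) := by
    have := (isOpen_discrete ((Subgroup.zpowers (x N) : Subgroup (G ⧸ R)) : Set (G ⧸ R))).preimage
      (QuotientGroup.continuous_mk (N := R))
    exact this
  have hRR1 : R ≤ R1 := by
    intro r hr
    change QuotientGroup.mk' R r ∈ Subgroup.zpowers (x N)
    have : QuotientGroup.mk' R r = 1 := (QuotientGroup.eq_one_iff _).2 hr
    rw [this]; exact one_mem _
  obtain ⟨g, hg⟩ := QuotientGroup.mk_surjective (s := R) (x (N + 1))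
  have hg1 : g ∉ R1 := by
    intro h
    have h1 : x (N + 1) ∈ Subgroup.zpowers (x N) := by rw [← hg]; exact h
    have h2 := orderOf_dvd_of_mem_zpowers h1
    rw [hord, hord, Nat.pow_dvd_pow_iff_le_right hp.one_lt] at h2
    omega
  obtain ⟨a1, ha1, m, hm, rfl⟩ := lm hG M R1 hVM hMcl hcM hR1o (le_sup_right.trans hRR1) hg1 (r := a) ha
  obtain ⟨b1, hb1, m', hm', rfl⟩ := lm hG M R1 hVM hMcl hcM hR1o (le_sup_right.trans hRR1) hg1 (r := b) hb
  have c1 : Commute a1 b1 := zp_comm g a1 ha1 b1 hb1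
  have c2 : Commute a1 m' := (Subgroup.mem_center_iff.1 (hMz hm')) a1
  have c3 : Commute m (b1 * m') := ((Subgroup.mem_center_iff.1 (hMz hm)) (b1 * m')).symm
  exact ((c1.mul_right c2).mul_left c3).eq

end Pool.Agent.Helper944.LN
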