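import Pool.Agent.Helper944.LN.CG3

set_option autoImplicit false
set_option linter.unusedVariables false
set_option linter.unusedSectionVars false

namespace Pool.Agent.Helper944.LN

open Subgroup Topology
open scoped commutatorElement Pointwise

lemma LocNil.subgroup {G : Type*} [Group G] (h : LocNil G) (H : Subgroup G) : LocNil H := by
  classical
  intro s
  have h1 : (Subgroup.closure (s : Set H)).map H.subtype =
      Subgroup.closure ((s.image H.subtype : Finset G) : Set G) := by
    rw [MonoidHom.map_closure, Finset.coe_image]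
  obtain ⟨n, hn⟩ := (Subgroup.isNilpotent_iff_lowerCentralSeries _).1 (h (s.image H.subtype))
  rw [Subgroup.isNilpotent_iff_lowerCentralSeries]
  refine ⟨n, ?_⟩
  rw [← h1, ← Subgroup.map_lowerCentralSeries] at hn
  exact (Subgroup.map_eq_bot_iff_of_injective _ H.subtype_injective).1 hn

/-- nontrivial compact locally nilpotent groups are not topologically perfect. -/
theorem compact_not_perfect {D : Type*} [Group D] [TopologicalSpace D] [IsTopologicalGroup D]
    [CompactSpace D] [T2Space D] [Nontrivial D] (hLN : LocNil D) :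
    (commutator D).topologicalClosure ≠ ⊤ := by
  intro h
  obtain ⟨K, hKn, hKo, hKt⟩ := perf_exists_open (G := D) ⟨hLN, fun N _ hN _ => hN.isCompact, h, inferInstance⟩
  have hdis : DiscreteTopology (D ⧸ K) := QuotientGroup.discreteTopology hKo
  have hfin : Finite (D ⧸ K) := finite_of_compact_of_discrete
  have hnt : Nontrivial (D ⧸ K) := QuotientGroup.nontrivial_iff.2 hKt
  have hLNq := hLN.quotient K
  have hnil : Group.IsNilpotent (D ⧸ K) := by
    classical
    have := Fintype.ofFinite (D ⧸ K)
    have h1 := hLNq Finset.univ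
    rw [Finset.coe_univ, Subgroup.closure_univ] at h1
    exact Group.isNilpotent_top.1 h1
  have h2 : commutator (D ⧸ K) ≠ ⊤ := by
    intro h3
    rw [Subgroup.nilpotent_iff_lowerCentralSeries] at hnil
    obtain ⟨n, hn⟩ := hnil
    have : ∀ k, (⊤ : Subgroup (D ⧸ K)).lowerCentralSeries k = ⊤ := by
      intro k
      induction k with
      | zero => rfl
      | succ k ih =>
        rw [Subgroup.lowerCentralSeries_succ, ih]
        exact h3
    rw [this n] at hn
    exact top_ne_bot hn
  apply h2
  have hcl : IsClosed (((commutator (D ⧸ K)).comap (QuotientGroup.mk' K) : Subgroup D) : Set D) :=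
    (isClosed_discrete ((commutator (D ⧸ K) : Subgroup (D ⧸ K)) : Set (D ⧸ K))).preimage
      (QuotientGroup.continuous_mk (N := K))
  have h4 : (commutator D).topologicalClosure ≤ (commutator (D ⧸ K)).comap (QuotientGroup.mk' K) := by
    apply Subgroup.topologicalClosure_minimal _ _ hcl
    rw [_root_.commutator_def, Subgroup.commutator_le]
    intro a _ b _
    change QuotientGroup.mk' K ⁅a, b⁆ ∈ commutator (D ⧸ K)
    rw [map_commutatorElement]
    exact Subgroup.commutator_mem_commutator trivial trivial
  rw [h, top_le_iff] at h4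
  rw [eq_top_iff]
  intro q _
  obtain ⟨g, rfl⟩ := QuotientGroup.mk'_surjective K q
  have : g ∈ (commutator (D ⧸ K)).comap (QuotientGroup.mk' K) := by rw [h4]; trivial
  exact this

variable {G : Type*} [Group G] [TopologicalSpace G] [IsTopologicalGroup G]

/-- the totally disconnected case. -/
theorem comm_of_VD [T2Space G] [LocallyCompactSpace G] (hG : CG G) (hV : VD G) :
    ∀ a b : G, a * b = b * a := by
  by_contra hcon
  obtain ⟨R, hR, hRo, hRt⟩ := exists_open_normal hG
  have hRcl : IsClosed (R : Set G) := R.isClosed_of_isOpen hRo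
  have hcR := comm_le_open hG R hRo hRt
  set D := (commutator G).topologicalClosure with hDdef
  have hDn : D.Normal := Subgroup.is_normal_topologicalClosure _
  have hDcl : IsClosed (D : Set G) := Subgroup.isClosed_topologicalClosure _
  have hcD : commutator G ≤ D := Subgroup.le_topologicalClosure _
  have hDR : D ≤ R := Subgroup.topologicalClosure_minimal _ hcR hRcl
  have hDt : D ≠ ⊤ := by
    intro h
    rw [h, top_le_iff] at hDR
    exact hRt hDR
  have hDc : IsCompact (D : Set G) := hG.C D hDcl hDt
  have hDb : D ≠ ⊥ := by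
    intro h
    apply hcon
    intro a b
    have h1 : ⁅a, b⁆ ∈ D := hcD (Subgroup.commutator_mem_commutator trivial trivial)
    rw [h, Subgroup.mem_bot] at h1
    exact commutatorElement_eq_one_iff_mul_comm.1 h1
  -- second derived
  let D2 : Subgroup G := (⁅D, D⁆ : Subgroup G).topologicalClosure
  have hD2n : D2.Normal := Subgroup.is_normal_topologicalClosure _
  have hD2cl : IsClosed (D2 : Set G) := Subgroup.isClosed_topologicalClosure _
  have hD2D : D2 ≤ D := Subgroup.topologicalClosure_minimal _ (Subgroup.commutator_le_left D D) hDcl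
  have hD2ne : D2 ≠ D := by
    intro h
    have i1 : CompactSpace D := isCompact_iff_compactSpace.1 hDc
    have i2 : Nontrivial D := (Subgroup.nontrivial_iff_ne_bot D).2 hDb
    apply compact_not_perfect (hG.ln.subgroup D)
    rw [eq_top_iff]
    intro x _
    change x ∈ _root_.closure ((commutator D : Subgroup D) : Set D)
    rw [closure_subtype]
    have h1 : (x : G) ∈ D2 := by rw [h]; exact x.2
    have h2 : (x : G) ∈ _root_.closure ((⁅D, D⁆ : Subgroup G) : Set G) := h1
    have h3 : ((⁅D, D⁆ : Subgroup G) : Set G) = Subtype.val '' ((commutator D : Subgroup D) : Set D) := by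
      have : (⁅D, D⁆ : Subgroup G) = (commutator D).map D.subtype := by
        rw [_root_.commutator_def, Subgroup.map_commutator, ← MonoidHom.range_eq_map, Subgroup.range_subtype]
      rw [this]; rfl
    rw [← h3]; exact h2
  have hD2t : D2 ≠ ⊤ := by
    intro h
    apply hDt
    rw [eq_top_iff, ← h]
    exact hD2D
  -- pass to the quotient
  have hD2cl' : IsClosed (D2 : Set G) := hD2cl
  have hG1 : CG (G ⧸ D2) := hG.quotient D2 hD2cl hD2t
  have hV1 : VD (G ⧸ D2) := hV.quotient D2
  set M : Subgroup (G ⧸ D2) := D.map (QuotientGroup.mk' D2) with hMdef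
  have hMn : M.Normal := hDn.map _ (QuotientGroup.mk'_surjective D2)
  have hMcl : IsClosed (M : Set (G ⧸ D2)) := q_closed hD2D hDcl
  have hcM : commutator (G ⧸ D2) ≤ M := q_comm_le hcD
  have hMcomm : ∀ a ∈ M, ∀ b ∈ M, a * b = b * a := by
    rintro _ ⟨a, ha, rfl⟩ _ ⟨b, hb, rfl⟩
    rw [← commutatorElement_eq_one_iff_mul_comm, ← map_commutatorElement]
    exact (QuotientGroup.eq_one_iff _).2
      (Subgroup.le_topologicalClosure _ (Subgroup.commutator_mem_commutator ha hb))
  have hM1 : M ≠ ⊥ := q_ne_bot hD2D hD2ne
  have hMt : M ≠ ⊤ := q_ne_top hD2D hDt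
  have hMmin : ∀ K : Subgroup (G ⧸ D2), IsClosed (K : Set (G ⧸ D2)) → commutator (G ⧸ D2) ≤ K → M ≤ K := by
    intro K hK hcK
    rw [hMdef, Subgroup.map_le_iff_le_comap]
    apply Subgroup.topologicalClosure_minimal _ _ (hK.preimage QuotientGroup.continuous_mk)
    rw [_root_.commutator_def, Subgroup.commutator_le]
    intro a _ b _
    apply hcK
    rw [map_commutatorElement]
    exact Subgroup.commutator_mem_commutator trivial trivial
  by_cases hgc : gc M = M
  · exact stage2 hG1 hV1 M hMcl hcM hMcomm hgc hM1
  · -- class two quotient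
    have hgM : gc M ≤ M := gc_le_self hMcl
    have hgcl : IsClosed (gc M : Set (G ⧸ D2)) := isClosed_gc M
    have hgt : gc M ≠ ⊤ := by
      intro h
      apply hMt
      rw [eq_top_iff, ← h]
      exact hgM
    have hG2 : CG ((G ⧸ D2) ⧸ gc M) := hG1.quotient (gc M) hgcl hgt
    have hMn2 : (M.map (QuotientGroup.mk' (gc M))).Normal :=
      hMn.map _ (QuotientGroup.mk'_surjective (gc M))
    have hcomm := class2 hG2 (M.map (QuotientGroup.mk' (gc M)))
      ((hV1.quotient (gc M)).quotient _) (q_closed hgM hMcl) (q_comm_le hcM) (q_ne_top hgM hMt) (by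
        rintro _ ⟨m, hm, rfl⟩
        rw [mem_center_iff_comm]
        intro k
        obtain ⟨g, rfl⟩ := QuotientGroup.mk'_surjective (gc M) k
        rw [← map_commutatorElement]
        exact (QuotientGroup.eq_one_iff _).2 (comm_mem_gc hm g))
    apply hgc
    apply le_antisymm hgM
    apply hMmin _ hgcl
    rw [_root_.commutator_def, Subgroup.commutator_le]
    intro a _ b _
    rw [← QuotientGroup.eq_one_iff]
    have h5 : ((⁅a, b⁆ : G ⧸ D2) : (G ⧸ D2) ⧸ gc M) =
        ⁅(a : (G ⧸ D2) ⧸ gc M), (b : (G ⧸ D2) ⧸ gc M)⁆ := by simp [commutatorElement_def]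
    rw [h5]
    exact commutatorElement_eq_one_iff_mul_comm.2 (hcomm _ _)

end Pool.Agent.Helper944.LN
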