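import Pool.Agent.Helper944.LN.NOS2

set_option autoImplicit false
set_option linter.unusedVariables false
set_option linter.unusedSectionVars false

namespace Pool.Agent.Helper944.LN

open Subgroup Topology
open scoped commutatorElement Pointwise

variable {G : Type*} [Group G] [TopologicalSpace G] [IsTopologicalGroup G]

/-- the intersection of all open subgroups. -/
def coreO (G : Type*) [Group G] [TopologicalSpace G] : Subgroup G :=
  ⨅ V : {V : Subgroup G // IsOpen (V : Set G)}, V.1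

omit [IsTopologicalGroup G] in
lemma mem_coreO {x : G} : x ∈ coreO G ↔ ∀ V : Subgroup G, IsOpen (V : Set G) → x ∈ V := by
  simp [coreO, Subgroup.mem_iInf]

omit [IsTopologicalGroup G] in
lemma coreO_le (V : Subgroup G) (hV : IsOpen (V : Set G)) : coreO G ≤ V :=
  fun _ hx => mem_coreO.1 hx V hV

instance coreO_normal : (coreO G).Normal := ⟨by
  intro x hx g
  rw [mem_coreO] at hx ⊢
  intro V hV
  have h1 : IsOpen ((V.comap (MulAut.conj g).toMonoidHom : Subgroup G) : Set G) := by
    have : Continuous (fun y : G => g * y * g⁻¹) := by fun_prop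
    exact hV.preimage this
  exact hx _ h1⟩

lemma isClosed_coreO : IsClosed (coreO G : Set G) := by
  have : (coreO G : Set G) = ⋂ V : {V : Subgroup G // IsOpen (V : Set G)}, (V.1 : Set G) := by
    simp [coreO]
  rw [this]
  exact isClosed_iInter fun V => V.1.isClosed_of_isOpen V.2

lemma exists_open_sub (R : Subgroup G) (hRo : IsOpen (R : Set G)) (hRc : IsCompact (R : Set G))
    (O : Set G) (hO : IsOpen O) (hNO : (coreO G : Set G) ⊆ O) :
    ∃ V : Subgroup G, IsOpen (V : Set G) ∧ V ≤ R ∧ (V : Set G) ⊆ O := by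
  have hne : Nonempty {V : Subgroup G // IsOpen (V : Set G)} := ⟨⟨R, hRo⟩⟩
  obtain ⟨V, hV⟩ := (hRc.diff hO).elim_directed_family_closed
    (fun V : {V : Subgroup G // IsOpen (V : Set G)} => (V.1 : Set G))
    (fun V => V.1.isClosed_of_isOpen V.2) (by
      rw [Set.eq_empty_iff_forall_notMem]
      rintro x ⟨hx1, hx2⟩
      apply hx1.2
      apply hNO
      rw [SetLike.mem_coe, mem_coreO]
      intro V hV
      exact Set.mem_iInter.1 hx2 ⟨V, hV⟩) (by
      intro V W
      exact ⟨⟨V.1 ⊓ W.1, V.2.inter W.2⟩, fun x hx => hx.1, fun x hx => hx.2⟩)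
  refine ⟨V.1 ⊓ R, V.2.inter hRo, inf_le_right, ?_⟩
  intro x hx
  by_contra hxO
  have : x ∈ ((R : Set G) \ O) ∩ (V.1 : Set G) := ⟨⟨hx.2, hxO⟩, hx.1⟩
  rw [hV] at this
  exact this

lemma coreO_VD (R : Subgroup G) (hRo : IsOpen (R : Set G)) (hRc : IsCompact (R : Set G)) :
    VD (G ⧸ coreO G) := by
  intro U hU
  have h1 : IsOpen ((QuotientGroup.mk' (coreO G)) ⁻¹' (interior U)) :=
    isOpen_interior.preimage QuotientGroup.continuous_mk
  obtain ⟨V, hVo, -, hVO⟩ := exists_open_sub R hRo hRc _ h1 (by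
    intro x hx
    have : QuotientGroup.mk' (coreO G) x = 1 := (QuotientGroup.eq_one_iff _).2 hx
    rw [Set.mem_preimage, this]
    exact mem_interior_iff_mem_nhds.2 hU)
  refine ⟨V.map (QuotientGroup.mk' (coreO G)), QuotientGroup.isOpenMap_coe _ hVo, ?_⟩
  rintro _ ⟨v, hv, rfl⟩
  exact interior_subset (hVO hv)

lemma coreO_noOpen [T2Space G] (R : Subgroup G) (hRo : IsOpen (R : Set G))
    (hRc : IsCompact (R : Set G)) : NoOpen (coreO G) := by
  intro W hW
  have hNc : IsCompact (coreO G : Set G) := hRc.of_isClosed_subset isClosed_coreO (coreO_le R hRo)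
  have hcs : CompactSpace (coreO G) := isCompact_iff_compactSpace.1 hNc
  have hWcl : IsClosed (W : Set (coreO G)) := W.isClosed_of_isOpen hW
  have hK1 : IsCompact (Subtype.val '' (W : Set (coreO G)) : Set G) :=
    hWcl.isCompact.image continuous_subtype_val
  have hK2 : IsCompact (Subtype.val '' ((W : Set (coreO G))ᶜ) : Set G) :=
    hW.isClosed_compl.isCompact.image continuous_subtype_val
  have hdisj : Disjoint (Subtype.val '' (W : Set (coreO G)) : Set G)
      (Subtype.val '' ((W : Set (coreO G))ᶜ) : Set G) := by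
    rw [Set.disjoint_image_iff Subtype.val_injective]
    exact disjoint_compl_right
  obtain ⟨U1, U2, hU1, hU2, h1, h2, h12⟩ := SeparatedNhds.of_isCompact_isCompact hK1 hK2 hdisj
  obtain ⟨V, hVo, hVR, hVU⟩ := exists_open_sub R hRo hRc (U1 ∪ U2) (hU1.union hU2) (by
    intro x hx
    by_cases hxW : (⟨x, hx⟩ : coreO G) ∈ W
    · exact Or.inl (h1 ⟨⟨x, hx⟩, hxW, rfl⟩)
    · exact Or.inr (h2 ⟨⟨x, hx⟩, hxW, rfl⟩))
  have hVc : IsCompact (V : Set G) := hRc.of_isClosed_subset (V.isClosed_of_isOpen hVo) hVR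
  let Z : Set G := (V : Set G) ∩ U1
  have hZo : IsOpen Z := hVo.inter hU1
  have hZeq : Z = (V : Set G) \ U2 := by
    ext x
    constructor
    · rintro ⟨hx, hx1⟩
      exact ⟨hx, fun hx2 => Set.disjoint_left.1 h12 hx1 hx2⟩
    · rintro ⟨hx, hx2⟩
      exact ⟨hx, (hVU hx).resolve_right hx2⟩
  have hZc : IsCompact Z := by rw [hZeq]; exact hVc.diff hU2
  obtain ⟨V', hV', hZV'⟩ := compact_open_separated_mul_right hZc hZo (subset_refl Z)
  let S : Subgroup G :=
    { carrier := {g | ∀ z ∈ Z, z * g ∈ Z ∧ z * g⁻¹ ∈ Z}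
      mul_mem' := by
        intro a b ha hb z hz
        refine ⟨?_, ?_⟩
        · rw [← mul_assoc]; exact (hb _ (ha z hz).1).1
        · rw [mul_inv_rev, ← mul_assoc]; exact (ha _ (hb z hz).2).2
      one_mem' := by intro z hz; simpa using hz
      inv_mem' := by
        intro a ha z hz
        refine ⟨(ha z hz).2, ?_⟩
        rw [inv_inv]; exact (ha z hz).1 }
  have hSo : IsOpen (S : Set G) := by
    apply Subgroup.isOpen_of_mem_nhds _ (g := 1)
    have hV'' : (V')⁻¹ ∈ 𝓝 (1 : G) := inv_mem_nhds_one G hV'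
    filter_upwards [hV', hV''] with g hg hg' z hz
    exact ⟨hZV' (Set.mul_mem_mul hz hg), hZV' (Set.mul_mem_mul hz (Set.mem_inv.1 hg'))⟩
  rw [eq_top_iff]
  intro n _
  have hn : (n : G) ∈ S := coreO_le S hSo n.2
  have h1Z : (1 : G) ∈ Z := ⟨one_mem _, h1 ⟨1, one_mem _, rfl⟩⟩
  have hnZ := (hn 1 h1Z).1
  rw [one_mul] at hnZ
  by_contra hnW
  exact Set.disjoint_left.1 h12 hnZ.2 (h2 ⟨n, hnW, rfl⟩)

theorem coreO_central {G : Type*} [Group G] [TopologicalSpace G] [IsTopologicalGroup G]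
    [T2Space G] [LocallyCompactSpace G] (hG : CG G) : coreO G ≤ Subgroup.center G := by
  obtain ⟨R, hR, hRo, hRt⟩ := exists_open_normal hG
  have hRcl : IsClosed (R : Set G) := R.isClosed_of_isOpen hRo
  have hRc : IsCompact (R : Set G) := hG.C R hRcl hRt
  have hNO := coreO_noOpen R hRo hRc
  have hQ : CG (G ⧸ R) := hG.quotient R hRcl hRt
  have hdis : DiscreteTopology (G ⧸ R) := QuotientGroup.discreteTopology hRo
  have hinf := hQ.infinite
  obtain ⟨p, hp, x, hx0, hx1, hxp, hord, hgen⟩ := hQ.pruefer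
  intro n hn
  rw [Subgroup.mem_center_iff]
  intro γ
  obtain ⟨k, hk⟩ := hgen (γ : G ⧸ R)
  let Γ : Subgroup G := (Subgroup.zpowers (x k)).comap (QuotientGroup.mk' R)
  have hΓo : IsOpen (Γ : Set G) :=
    (isOpen_discrete ((Subgroup.zpowers (x k) : Subgroup (G ⧸ R)) : Set (G ⧸ R))).preimage
      (QuotientGroup.continuous_mk (N := R))
  have hfin : ((Subgroup.zpowers (x k) : Subgroup (G ⧸ R)) : Set (G ⧸ R)).Finite := by
    apply finite_zpowers.2
    rw [← orderOf_pos_iff, hord]
    exact pow_pos hp.pos k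
  have hΓt : Γ ≠ ⊤ := by
    intro h
    apply Set.infinite_univ (α := G ⧸ R)
    apply hfin.subset
    intro q _
    obtain ⟨g, rfl⟩ := QuotientGroup.mk'_surjective R q
    have : g ∈ Γ := by rw [h]; trivial
    exact this
  have hΓc : IsCompact (Γ : Set G) := hG.C Γ (Γ.isClosed_of_isOpen hΓo) hΓt
  have hcs : CompactSpace Γ := isCompact_iff_compactSpace.1 hΓc
  have hNΓ : coreO G ≤ Γ := coreO_le Γ hΓo
  have hNcl : IsClosed (((coreO G).subgroupOf Γ : Subgroup Γ) : Set Γ) :=
    isClosed_coreO.preimage continuous_subtype_val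
  let φ : coreO G →* ((coreO G).subgroupOf Γ) :=
    { toFun := fun n => ⟨⟨n, hNΓ n.2⟩, n.2⟩
      map_one' := rfl
      map_mul' := fun a b => rfl }
  have hφ : Continuous φ := by
    apply Continuous.subtype_mk
    exact Continuous.subtype_mk continuous_subtype_val _
  have hNO' : NoOpen ((coreO G).subgroupOf Γ) := by
    intro W hW
    have h1 := hNO (W.comap φ) (hW.preimage hφ)
    rw [eq_top_iff]
    intro w _
    have h2 : (⟨(w : Γ), w.2⟩ : coreO G) ∈ W.comap φ := by rw [h1]; trivial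
    exact h2
  have h3 := NoOpen.central (hG.ln.subgroup Γ) ((coreO G).subgroupOf Γ) hNcl hNO'
  have h4 : (⟨n, hNΓ hn⟩ : Γ) ∈ Subgroup.center Γ := h3 hn
  rw [Subgroup.mem_center_iff] at h4
  have h5 := h4 ⟨γ, hk⟩
  exact congrArg Subtype.val h5

theorem CG.comm {G : Type*} [Group G] [TopologicalSpace G] [IsTopologicalGroup G]
    [T2Space G] [LocallyCompactSpace G] (hG : CG G) : ∀ a b : G, a * b = b * a := by
  obtain ⟨R, hR, hRo, hRt⟩ := exists_open_normal hG
  have hRcl : IsClosed (R : Set G) := R.isClosed_of_isOpen hRo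
  have hRc : IsCompact (R : Set G) := hG.C R hRcl hRt
  have hNcl : IsClosed (coreO G : Set G) := isClosed_coreO
  have hNt : coreO G ≠ ⊤ := by
    intro h
    apply hRt
    rw [eq_top_iff, ← h]
    exact coreO_le R hRo
  have hV := coreO_VD R hRo hRc
  have hQ : CG (G ⧸ coreO G) := hG.quotient _ hNcl hNt
  have hc := comm_of_VD hQ hV
  apply class2 hG (coreO G) hV hNcl _ hNt (coreO_central hG)
  rw [_root_.commutator_def, Subgroup.commutator_le]
  intro a _ b _
  rw [← QuotientGroup.eq_one_iff]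
  have h5 : ((⁅a, b⁆ : G) : G ⧸ coreO G) = ⁅(a : G ⧸ coreO G), (b : G ⧸ coreO G)⁆ := by
    simp [commutatorElement_def]
  rw [h5]
  exact commutatorElement_eq_one_iff_mul_comm.2 (hc _ _)

end Pool.Agent.Helper944.LN
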