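import Pool.Agent.Helper944.LN.TD2

set_option autoImplicit false
set_option linter.unusedVariables false
set_option linter.unusedSectionVars false

namespace Pool.Agent.Helper944.LN

open Subgroup Topology
open scoped commutatorElement

/-- No small subgroups in normed algebras. -/
lemma nss {S : Type*} [Group S] {B : Type*} [NormedRing B] [NormedAlgebra ℂ B] (f : S →* B)
    (h : ∀ s, ‖f s - 1‖ ≤ 1 / 2) : ∀ s, f s = 1 := by
  have key : ∀ n : ℕ, ∀ s, ‖f s - 1‖ ≤ (1 / 2) * (3 / 4) ^ n := by
    intro n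
    induction n with
    | zero => intro s; simpa using h s
    | succ n ih =>
      intro s
      have h1 : (2 : ℂ) • (f s - 1) = (f (s * s) - 1) - (f s - 1) * (f s - 1) := by
        rw [map_mul]
        rw [two_smul]
        noncomm_ring
      have h2 : 2 * ‖f s - 1‖ = ‖(2 : ℂ) • (f s - 1)‖ := by
        rw [norm_smul]; norm_num
      have h3 : ‖(2 : ℂ) • (f s - 1)‖ ≤ ‖f (s * s) - 1‖ + ‖f s - 1‖ * ‖f s - 1‖ := by
        rw [h1]
        refine (norm_sub_le _ _).trans ?_
        gcongr
        exact norm_mul_le _ _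
      have h4 := ih (s * s)
      have h5 := ih s
      have h6 := h s
      have h7 : (0:ℝ) ≤ ‖f s - 1‖ := norm_nonneg _
      have h8 : ‖f s - 1‖ * ‖f s - 1‖ ≤ (1 / 2) * (3 / 4) ^ n * (1 / 2) := by
        gcongr
      rw [pow_succ]
      nlinarith
  intro s
  have h1 : Filter.Tendsto (fun n : ℕ => (1 / 2 : ℝ) * (3 / 4) ^ n) Filter.atTop (𝓝 ((1/2) * 0)) :=
    (tendsto_pow_atTop_nhds_zero_of_lt_one (by norm_num) (by norm_num)).const_mul _
  have h2 : ‖f s - 1‖ ≤ (1/2) * 0 := ge_of_tendsto' h1 (fun n => key n s)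
  have h3 : ‖f s - 1‖ = 0 := le_antisymm (by simpa using h2) (norm_nonneg _)
  rwa [norm_eq_zero, sub_eq_zero] at h3

variable {G : Type*} [Group G] [TopologicalSpace G] [IsTopologicalGroup G]

theorem rep_contra [LocallyCompactSpace G] [T2Space G] (hG : Perf G)
    (hno : ∀ V : Subgroup G, IsOpen (V : Set G) → V = ⊤) (N : Subgroup G) [hN : N.Normal]
    (hNcpt : IsCompact (N : Set G)) (hgc : gc N = N) {B : Type*} [NormedRing B]
    [NormedAlgebra ℂ B] (ρ : N →* B) (hρ : Continuous ρ) (x0 : N) (hx0 : ρ x0 ≠ 1) : False := by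
  have hNcl : IsClosed (N : Set G) := hNcpt.isClosed
  have hcs : CompactSpace N := isCompact_iff_compactSpace.1 hNcpt
  -- joint continuity of conjugation
  have hconj : Continuous (fun p : G × N => (MulAut.conjNormal p.1 p.2 : N)) := by
    apply Continuous.subtype_mk (f := fun p : G × N => (p.1 * (p.2 : G) * p.1⁻¹))
    fun_prop
  -- uniform smallness on compact subsets
  have hunif : ∀ (K : Set N), IsCompact K → ∀ f : G → N → B, Continuous (Function.uncurry f) →
      (∀ x ∈ K, f 1 x = 1) → ∀ᶠ g in 𝓝 (1 : G), ∀ x ∈ K, ‖f g x - 1‖ ≤ 1 / 2 := by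
    intro K hK f hf h1
    refine hK.eventually_forall_of_forall_eventually (P := fun g x => ‖f g x - 1‖ ≤ 1 / 2) ?_
    intro x hx
    have h2 : ContinuousAt (fun z : G × N => ‖f z.1 z.2 - 1‖) (1, x) := by
      have : Continuous (fun z : G × N => ‖f z.1 z.2 - 1‖) := (hf.sub continuous_const).norm
      exact this.continuousAt
    have h3 : ‖f 1 x - 1‖ < 1 / 2 := by rw [h1 x hx]; simp
    exact (h2.eventually (gt_mem_nhds h3)).mono (fun z hz => hz.le)
  -- the kernel
  let Bk : Subgroup G := ρ.ker.map N.subtype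
  have hBk : ∀ x : N, (x : G) ∈ Bk ↔ ρ x = 1 := by
    intro x
    constructor
    · rintro ⟨y, hy, hyx⟩
      have : y = x := Subtype.ext hyx
      rw [← this]; exact hy
    · intro h
      exact ⟨x, h, rfl⟩
  have hBkN : Bk ≤ N := by
    rintro _ ⟨y, hy, rfl⟩
    exact y.2
  have hkercl : IsClosed ((ρ.ker : Subgroup N) : Set N) := by
    have : ((ρ.ker : Subgroup N) : Set N) = ρ ⁻¹' {1} := by
      ext x; simp [MonoidHom.mem_ker]
    rw [this]
    exact isClosed_singleton.preimage hρ
  have hBkcl : IsClosed (Bk : Set G) := by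
    rw [Subgroup.coe_map]
    exact hNcl.isClosedEmbedding_subtypeVal.isClosedMap _ hkercl
  have hBkn : Bk.Normal := by
    rw [← Subgroup.normalizer_eq_top_iff]
    apply hno
    apply Subgroup.isOpen_of_mem_nhds _ (g := 1)
    have h1 := hunif (ρ.ker : Set N) hkercl.isCompact (fun g x => ρ (MulAut.conjNormal g x))
      (hρ.comp hconj) (by
        intro x hx
        simpa using hx)
    have h2 : ∀ᶠ g in 𝓝 (1 : G), ∀ x ∈ (ρ.ker : Set N), ‖ρ (MulAut.conjNormal g⁻¹ x) - 1‖ ≤ 1 / 2 := by
      have : Filter.Tendsto (fun g : G => g⁻¹) (𝓝 1) (𝓝 1) := by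
        simpa using (continuous_inv.tendsto (1 : G))
      exact this.eventually h1
    have h3 : ∀ g : G, (∀ x ∈ (ρ.ker : Set N), ‖ρ (MulAut.conjNormal g x) - 1‖ ≤ 1 / 2) →
        ∀ x ∈ Bk, g * x * g⁻¹ ∈ Bk := by
      intro g hg
      rintro _ ⟨x, hx, rfl⟩
      have h4 := nss (S := ρ.ker)
        ((ρ.comp (MulAut.conjNormal g : MulAut N).toMonoidHom).comp ρ.ker.subtype)
        (fun s => hg s s.2) ⟨x, hx⟩
      exact (hBk (MulAut.conjNormal g x)).2 h4
    filter_upwards [h1, h2] with g hg1 hg2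
    rw [SetLike.mem_coe, Subgroup.mem_normalizer_iff]
    intro x
    constructor
    · intro hx; exact h3 g hg1 x hx
    · intro hx
      have := h3 g⁻¹ hg2 _ hx
      simpa [mul_assoc] using this
  -- the center modulo the kernel
  have hZP : ∀ x : N, (∀ y : N, ρ (x * y) = ρ (y * x)) → ∀ g : G, ρ (MulAut.conjNormal g x) = ρ x := by
    let ZP : Subgroup N :=
      { carrier := {x | ∀ y : N, ρ (x * y) = ρ (y * x)}
        mul_mem' := by
          intro a b ha hb y
          simp only [Set.mem_ofPred_eq] at ha hb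
          calc ρ (a * b * y) = ρ a * ρ (b * y) := by rw [← map_mul, mul_assoc]
            _ = ρ a * ρ (y * b) := by rw [hb]
            _ = ρ (a * y) * ρ b := by rw [← map_mul, ← map_mul, mul_assoc]
            _ = ρ (y * a) * ρ b := by rw [ha]
            _ = _ := by rw [← map_mul, mul_assoc]
        one_mem' := by intro y; simp
        inv_mem' := by
          intro a ha y
          simp only [Set.mem_ofPred_eq] at ha ⊢
          have h1 := ha (a⁻¹ * y * a⁻¹)
          have h2 : a * (a⁻¹ * y * a⁻¹) = y * a⁻¹ := by group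
          have h3 : (a⁻¹ * y * a⁻¹) * a = a⁻¹ * y := by group
          rw [h2, h3] at h1
          exact h1.symm }
    have hZPcl : IsClosed (ZP : Set N) := by
      have : (ZP : Set N) = ⋂ y : N, {x | ρ (x * y) = ρ (y * x)} := by
        ext x; simp only [Set.mem_iInter]; exact Iff.rfl
      rw [this]
      exact isClosed_iInter fun y => isClosed_eq (hρ.comp (by fun_prop)) (hρ.comp (by fun_prop))
    have hZPn : ∀ g : G, ∀ x ∈ ZP, MulAut.conjNormal g x ∈ ZP := by
      intro g x hx y
      -- use normality of the kernel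
      have h1 := hx (MulAut.conjNormal g⁻¹ y)
      have h2 : ((x * MulAut.conjNormal g⁻¹ y * (MulAut.conjNormal g⁻¹ y * x)⁻¹ : N) : G) ∈ Bk := by
        rw [hBk, map_mul, h1, ← map_mul, mul_inv_cancel, map_one]
      have h3 := hBkn.conj_mem _ h2 g
      have h4 : g * ((x * MulAut.conjNormal g⁻¹ y * (MulAut.conjNormal g⁻¹ y * x)⁻¹ : N) : G) * g⁻¹ =
          ((MulAut.conjNormal g x * y * (y * MulAut.conjNormal g x)⁻¹ : N) : G) := by
        simp [MulAut.conjNormal_apply, mul_assoc]
      rw [h4, hBk, map_mul] at h3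
      have h5 : ρ (MulAut.conjNormal g x * y) * ρ ((y * MulAut.conjNormal g x)⁻¹) *
          ρ (y * MulAut.conjNormal g x) = ρ (y * MulAut.conjNormal g x) := by rw [h3, one_mul]
      rw [mul_assoc, ← map_mul ρ ((y * MulAut.conjNormal g x)⁻¹), inv_mul_cancel, map_one,
        mul_one] at h5
      exact h5
    let T : Subgroup G :=
      { carrier := {g | ∀ x ∈ ZP, ρ (MulAut.conjNormal g x) = ρ x}
        mul_mem' := by
          intro a b ha hb x hx
          rw [map_mul, MulAut.mul_apply, ha _ (hZPn b x hx), hb x hx]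
        one_mem' := by intro x hx; simp
        inv_mem' := by
          intro a ha x hx
          have := ha _ (hZPn a⁻¹ x hx)
          rw [← MulAut.mul_apply, ← map_mul, mul_inv_cancel, map_one, MulAut.one_apply] at this
          exact this.symm }
    have hT : T = ⊤ := by
      apply hno
      apply Subgroup.isOpen_of_mem_nhds _ (g := 1)
      have h1 := hunif (ZP : Set N) hZPcl.isCompact (fun g x => ρ (x⁻¹ * MulAut.conjNormal g x))
        (hρ.comp ((continuous_snd.inv).mul hconj)) (by intro x hx; simp)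
      filter_upwards [h1] with g hg x hx
      have hcomm : ∀ (a : N), a ∈ ZP → ∀ b : N, ρ a * ρ b = ρ b * ρ a := by
        intro a ha b
        rw [← map_mul, ← map_mul]; exact ha b
      let f : ZP →* B :=
        { toFun := fun s => ρ ((s : N)⁻¹ * MulAut.conjNormal g (s : N))
          map_one' := by simp
          map_mul' := by
            intro a b
            have e1 : ((a * b : ZP) : N)⁻¹ * MulAut.conjNormal g ((a * b : ZP) : N) =
              (b : N)⁻¹ * ((a : N)⁻¹ * MulAut.conjNormal g (a : N)) * MulAut.conjNormal g (b : N) := by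
              simp only [Subgroup.coe_mul, mul_inv_rev, map_mul, mul_assoc]
            rw [e1, map_mul, map_mul, hcomm _ (inv_mem b.2), mul_assoc, ← map_mul] }
      have h2 := nss f (fun s => hg s s.2) ⟨x, hx⟩
      have h3 : ρ (x⁻¹ * MulAut.conjNormal g x) = 1 := h2
      calc ρ (MulAut.conjNormal g x) = ρ x * ρ (x⁻¹ * MulAut.conjNormal g x) := by
            rw [← map_mul]; congr 1; group
        _ = ρ x := by rw [h3, mul_one]
    intro x hx g
    have : g ∈ T := by rw [hT]; trivial
    exact this x hx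
  -- the length function
  let E1 : Submodule ℂ B := Submodule.span ℂ (Set.range ρ)
  let Φ : N → (B →L[ℂ] B) := fun x => ContinuousLinearMap.mulLeftRight ℂ B (ρ x) (ρ x⁻¹)
  have hΦ : ∀ x a, Φ x a = ρ x * a * ρ x⁻¹ := fun x a => by
    simp [Φ, ContinuousLinearMap.mulLeftRight_apply]
  have hΦc : Continuous Φ := by
    have h1 : Continuous (fun x : N => ContinuousLinearMap.mulLeftRight ℂ B (ρ x)) :=
      (ContinuousLinearMap.mulLeftRight ℂ B).continuous.comp hρ
    exact h1.clm_apply (hρ.comp continuous_inv)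
  let d : N → ℝ := fun x => ‖(Φ x).comp E1.subtypeL - E1.subtypeL‖
  have hdc : Continuous d := by
    have h1 : Continuous (fun x => (Φ x).comp E1.subtypeL) := hΦc.clm_comp continuous_const
    have h2 : Continuous (fun x => (Φ x).comp E1.subtypeL - E1.subtypeL) :=
      h1.sub continuous_const
    exact (continuous_norm (E := E1 →L[ℂ] B)).comp h2
  have hdnn : ∀ x, 0 ≤ d x := fun x => norm_nonneg ((Φ x).comp E1.subtypeL - E1.subtypeL)
  have hE1 : ∀ x : N, ∀ a ∈ E1, Φ x a ∈ E1 := by
    intro x a ha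
    induction ha using Submodule.span_induction with
    | mem a ha =>
      obtain ⟨y, rfl⟩ := ha
      rw [hΦ, ← map_mul, ← map_mul]
      exact Submodule.subset_span ⟨_, rfl⟩
    | zero => rw [map_zero]; exact zero_mem _
    | add a b _ _ ha hb => rw [map_add]; exact add_mem ha hb
    | smul c a _ ha => rw [map_smul]; exact Submodule.smul_mem _ _ ha
  have hd_le : ∀ x : N, ∀ a ∈ E1, ‖Φ x a - a‖ ≤ d x * ‖a‖ := by
    intro x a ha
    exact ((Φ x).comp E1.subtypeL - E1.subtypeL).le_opNorm ⟨a, ha⟩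
  have hd_of : ∀ x : N, ∀ c : ℝ, 0 ≤ c → (∀ a ∈ E1, ‖Φ x a - a‖ ≤ c * ‖a‖) → d x ≤ c := by
    intro x c hc h
    exact ContinuousLinearMap.opNorm_le_bound _ hc (fun a => h a a.2)
  have hd0 : ∀ x : N, d x = 0 ↔ ∀ y : N, ρ (x * y) = ρ (y * x) := by
    intro x
    constructor
    · intro h y
      have h1 := hd_le x (ρ y) (Submodule.subset_span ⟨y, rfl⟩)
      rw [h, zero_mul, norm_le_zero_iff, sub_eq_zero, hΦ] at h1
      calc ρ (x * y) = ρ x * ρ y * ρ x⁻¹ * ρ x := by
            rw [← map_mul, ← map_mul, ← map_mul]; congr 1; group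
        _ = ρ (y * x) := by rw [h1, ← map_mul]
    · intro h
      apply le_antisymm _ (hdnn x)
      apply hd_of x 0 le_rfl
      intro a ha
      have : Φ x a = a := by
        induction ha using Submodule.span_induction with
        | mem a ha =>
          obtain ⟨y, rfl⟩ := ha
          rw [hΦ, ← map_mul, h y, ← map_mul]; congr 1; group
        | zero => rw [map_zero]
        | add a b _ _ ha hb => rw [map_add, ha, hb]
        | smul c a _ ha => rw [map_smul, ha]
      rw [this]; simp
  have hΦ1 : ∀ x : N, Φ (x * x) = (Φ x).comp (Φ x) := by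
    intro x
    ext a
    rw [ContinuousLinearMap.comp_apply, hΦ, hΦ, hΦ, mul_inv_rev, map_mul, map_mul]
    simp only [mul_assoc]
  have hdn : ∀ R : Subgroup N, (∀ x ∈ R, d x ≤ 1 / 4) → ∀ x ∈ R, d x = 0 := by
    intro R hR
    have key : ∀ n : ℕ, ∀ x ∈ R, d x ≤ (1 / 4) * (3 / 4) ^ n := by
      intro n
      induction n with
      | zero => intro x hx; simpa using hR x hx
      | succ n ih =>
        intro x hx
        apply hd_of x _ (by positivity)
        intro a ha
        have ha' : Φ x a - a ∈ E1 := sub_mem (hE1 x a ha) ha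
        have e1 : (2 : ℂ) • (Φ x a - a) = (Φ (x * x) a - a) - (Φ x (Φ x a - a) - (Φ x a - a)) := by
          rw [hΦ1, ContinuousLinearMap.comp_apply, map_sub, two_smul]
          abel
        have h2 : 2 * ‖Φ x a - a‖ = ‖(2 : ℂ) • (Φ x a - a)‖ := by
          rw [norm_smul]; norm_num
        have h3 : ‖(2 : ℂ) • (Φ x a - a)‖ ≤ d (x * x) * ‖a‖ + d x * ‖Φ x a - a‖ := by
          rw [e1]
          exact (norm_sub_le _ _).trans (add_le_add (hd_le _ a ha) (hd_le x _ ha'))
        have h4 := ih (x * x) (mul_mem hx hx)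
        have h6 := hR x hx
        have h7 : (0:ℝ) ≤ ‖Φ x a - a‖ := norm_nonneg _
        have h8 : (0:ℝ) ≤ ‖a‖ := norm_nonneg _
        have h9 : d (x * x) * ‖a‖ ≤ (1 / 4) * (3 / 4) ^ n * ‖a‖ := by gcongr
        have h10 : d x * ‖Φ x a - a‖ ≤ 1 / 4 * ‖Φ x a - a‖ := by gcongr
        have h11 : (0:ℝ) ≤ (1 / 4) * (3 / 4) ^ n * ‖a‖ := by positivity
        rw [pow_succ]
        nlinarith
    intro x hx
    have h1 : Filter.Tendsto (fun n : ℕ => (1 / 4 : ℝ) * (3 / 4) ^ n) Filter.atTop (𝓝 ((1/4) * 0)) :=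
      (tendsto_pow_atTop_nhds_zero_of_lt_one (by norm_num) (by norm_num)).const_mul _
    have h2 : d x ≤ (1/4) * 0 := ge_of_tendsto' h1 (fun n => key n x hx)
    exact le_antisymm (by simpa using h2) (hdnn x)
  -- elements with d = 0 are central modulo the kernel
  have hd0c : ∀ x : N, d x = 0 → ∀ g : G, ⁅(x : G), g⁆ ∈ Bk := by
    intro x hx g
    have h1 := hZP x ((hd0 x).1 hx) g
    have h2 : ((x * (MulAut.conjNormal g x)⁻¹ : N) : G) = ⁅(x : G), g⁆ := by
      simp [MulAut.conjNormal_apply, commutatorElement_def, mul_assoc]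
    rw [← h2, hBk]
    calc ρ (x * (MulAut.conjNormal g x)⁻¹) = ρ (MulAut.conjNormal g x) * ρ ((MulAut.conjNormal g x)⁻¹) := by
          rw [h1, ← map_mul]
      _ = 1 := by rw [← map_mul, mul_inv_cancel, map_one]
  -- the compactness lemma
  obtain ⟨O, hO, hOd⟩ := isOpen_induced_iff.1 (isOpen_lt (continuous_const (y := (1 / 4 : ℝ))) hdc)
  have hOd' : ∀ x : N, (x : G) ∈ O ↔ 1 / 4 < d x := by
    intro x
    have : x ∈ (Subtype.val ⁻¹' O : Set N) ↔ x ∈ {b : N | 1 / 4 < d b} := by rw [hOd]
    exact this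
  let A : Set G := Subtype.val '' {x : N | 1 / 4 ≤ d x}
  have hAc : IsCompact A :=
    ((isClosed_le continuous_const hdc).isCompact).image continuous_subtype_val
  have hd1 : d 1 = 0 := (hd0 1).2 (fun y => by simp)
  obtain ⟨x, hxA, hxR⟩ := exists_avoid hG.ln N (A := A) (O := O) hAc
    (by rintro _ ⟨y, _, rfl⟩; exact y.2)
    (by
      rintro ⟨y, hy, hy1⟩
      have : y = 1 := Subtype.ext hy1
      rw [this] at hy
      simp only [Set.mem_ofPred_eq] at hy
      rw [hd1] at hy
      norm_num at hy)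
    (by
      by_contra hne
      rw [Set.not_nonempty_iff_eq_empty] at hne
      have h1 : ∀ x : N, d x ≤ 1 / 4 := by
        intro x
        by_contra hx
        push Not at hx
        have : (x : G) ∈ A := ⟨x, hx.le, rfl⟩
        rw [hne] at this
        exact this
      have h2 : ∀ x : N, d x = 0 := fun x => hdn ⊤ (fun x _ => h1 x) x trivial
      have h3 : gc N ≤ Bk := gc_le hBkcl (fun x hx g => hd0c ⟨x, hx⟩ (h2 _) g)
      rw [hgc] at h3
      exact hx0 ((hBk x0).1 (h3 x0.2)))
    hO (fun y hy hyO => ⟨⟨y, hy⟩, ((hOd' ⟨y, hy⟩).1 hyO).le, rfl⟩)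
  obtain ⟨x', hx', rfl⟩ := hxA
  have hRN : Rn (x' : G) ≤ N := Rn_le_of_mem x'.2
  have h1 : ∀ r : N, (r : G) ∈ Rn (x' : G) → d r = 0 := by
    have := hdn ((Rn (x' : G)).comap N.subtype) (by
      intro r hr
      by_contra hr2
      push Not at hr2
      exact hxR r hr ((hOd' r).2 hr2))
    intro r hr
    exact this r hr
  have h2 : ∀ g, ⁅(x' : G), g⁆ ∈ Bk := by
    apply grun hG.perf Bk hBkcl
    intro g k
    have hm := comm_mem_Rn (x' : G) g
    exact hd0c ⟨_, hRN hm⟩ (h1 ⟨_, hRN hm⟩ hm) k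
  have h3 : d x' = 0 := by
    rw [hd0]
    intro y
    have h4 := h2 y
    have h5 : ((x' * y * (y * x')⁻¹ : N) : G) = ⁅(x' : G), (y : G)⁆ := by
      simp [commutatorElement_def, mul_assoc]
    rw [← h5, hBk, map_mul] at h4
    have h6 : ρ (x' * y) * ρ ((y * x')⁻¹) * ρ (y * x') = ρ (y * x') := by rw [h4, one_mul]
    rwa [mul_assoc, ← map_mul ρ ((y * x')⁻¹), inv_mul_cancel, map_one, mul_one] at h6
  simp only [Set.mem_ofPred_eq] at hx'
  rw [h3] at hx'
  norm_num at hx'

end Pool.Agent.Helper944.LN
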