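import Mathlib

set_option autoImplicit false
set_option linter.unusedVariables false
set_option linter.unusedSectionVars false

namespace Pool.Agent.Helper944.LN.PW

open MeasureTheory Topology

universe u

variable {N : Type u} [Group N] [TopologicalSpace N] [IsTopologicalGroup N] [CompactSpace N]
  [T2Space N] [MeasurableSpace N] [BorelSpace N] (μ : Measure N) [IsFiniteMeasure μ]

lemma integrable (g : C(N, ℂ)) : Integrable (fun x => g x) μ :=
  g.continuous.integrable_of_hasCompactSupport (HasCompactSupport.of_compactSpace g)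

/-- integration as a functional. -/
noncomputable def Int : C(N, ℂ) →L[ℂ] ℂ :=
  LinearMap.mkContinuous
    { toFun := fun g => ∫ x, g x ∂μ
      map_add' := fun f g => by
        simp only [ContinuousMap.add_apply]
        exact integral_add (integrable μ f) (integrable μ g)
      map_smul' := fun c f => by
        simp only [ContinuousMap.smul_apply, RingHom.id_apply]
        exact integral_smul c _ }
    (μ.real Set.univ) (fun g => by
      rw [mul_comm]
      exact norm_integral_le_of_norm_le_const (Filter.Eventually.of_forall (fun x => g.norm_coe_le_norm x)))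

lemma Int_apply (g : C(N, ℂ)) : Int μ g = ∫ x, g x ∂μ := rfl

/-- the integral operator with kernel `K`. -/
noncomputable def T (K : C(N, C(N, ℂ))) : C(N, ℂ) →L[ℂ] C(N, ℂ) :=
  LinearMap.mkContinuous
    { toFun := fun h => ⟨fun x => Int μ (K x * h), by fun_prop⟩
      map_add' := fun f g => by
        ext x
        simp [mul_add]
      map_smul' := fun c f => by
        ext x
        simp }
    (‖Int μ‖ * ‖K‖) (fun h => by
      rw [ContinuousMap.norm_le _ (by positivity)]
      intro x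
      simp only [LinearMap.coe_mk, AddHom.coe_mk, ContinuousMap.coe_mk]
      calc ‖Int μ (K x * h)‖ ≤ ‖Int μ‖ * ‖K x * h‖ := (Int μ).le_opNorm _
        _ ≤ ‖Int μ‖ * (‖K x‖ * ‖h‖) := by gcongr; exact norm_mul_le _ _
        _ ≤ ‖Int μ‖ * (‖K‖ * ‖h‖) := by gcongr; exact K.norm_coe_le_norm x
        _ = _ := by ring)

lemma T_apply (K : C(N, C(N, ℂ))) (h : C(N, ℂ)) (x : N) :
    T μ K h x = ∫ y, K x y * h y ∂μ := rfl

lemma T_diff (K : C(N, C(N, ℂ))) (h : C(N, ℂ)) (x x' : N) :
    ‖T μ K h x - T μ K h x'‖ ≤ ‖Int μ‖ * ‖K x - K x'‖ * ‖h‖ := by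
  have : T μ K h x - T μ K h x' = Int μ ((K x - K x') * h) := by
    rw [sub_mul, map_sub]; rfl
  rw [this]
  calc ‖Int μ ((K x - K x') * h)‖ ≤ ‖Int μ‖ * ‖(K x - K x') * h‖ := (Int μ).le_opNorm _
    _ ≤ ‖Int μ‖ * (‖K x - K x'‖ * ‖h‖) := by gcongr; exact norm_mul_le _ _
    _ = _ := by ring

lemma T_compact (K : C(N, C(N, ℂ))) : IsCompactOperator (T μ K) := by
  refine (isCompactOperator_iff_isCompact_closure_image_closedBall (T μ K).toLinearMap one_pos).2 ?_
  let e := ContinuousMap.linearIsometryBoundedOfCompact N ℂ ℂ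
  let S : Set (BoundedContinuousFunction N ℂ) := e '' (T μ K '' Metric.closedBall 0 1)
  have hS : IsCompact (closure S) := by
    apply BoundedContinuousFunction.arzela_ascoli (Metric.closedBall 0 (‖T μ K‖))
      (isCompact_closedBall _ _)
    · rintro _ x ⟨_, ⟨h, hh, rfl⟩, rfl⟩
      rw [mem_closedBall_zero_iff] at hh ⊢
      calc ‖e (T μ K h) x‖ ≤ ‖T μ K h‖ := (T μ K h).norm_coe_le_norm x
        _ ≤ ‖T μ K‖ * ‖h‖ := (T μ K).le_opNorm h
        _ ≤ ‖T μ K‖ * 1 := by gcongr
        _ = _ := mul_one _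
    · intro x
      rw [Metric.equicontinuousAt_iff_right]
      intro ε hε
      have h1 : ContinuousAt (fun x' => ‖Int μ‖ * ‖K x - K x'‖) x := by
        have : Continuous (fun x' => ‖Int μ‖ * ‖K x - K x'‖) := by fun_prop
        exact this.continuousAt
      have h2 : ∀ᶠ x' in 𝓝 x, ‖Int μ‖ * ‖K x - K x'‖ < ε := by
        apply h1.eventually (gt_mem_nhds _)
        simpa using hε
      filter_upwards [h2] with x' hx'
      rintro ⟨_, ⟨_, ⟨h, hh, rfl⟩, rfl⟩⟩
      rw [mem_closedBall_zero_iff] at hh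
      rw [dist_eq_norm]
      calc ‖T μ K h x - T μ K h x'‖ ≤ ‖Int μ‖ * ‖K x - K x'‖ * ‖h‖ := T_diff μ K h x x'
        _ ≤ ‖Int μ‖ * ‖K x - K x'‖ * 1 := by gcongr
        _ < ε := by rwa [mul_one]
  have h3 : closure (T μ K '' Metric.closedBall 0 1) = e.toHomeomorph.symm '' (closure S) := by
    rw [e.toHomeomorph.symm.image_closure]
    congr 1
    ext y
    constructor
    · intro hy
      exact ⟨e y, ⟨y, hy, rfl⟩, e.symm_apply_apply y⟩
    · rintro ⟨_, ⟨y', hy', rfl⟩, rfl⟩
      have : e.toHomeomorph.symm (e y') = y' := e.symm_apply_apply y'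
      rw [this]; exact hy'
  have h4 : IsCompact (closure (T μ K '' Metric.closedBall 0 1)) := by
    rw [h3]
    exact hS.image e.toHomeomorph.symm.continuous
  exact h4

open scoped InnerProductSpace ComplexConjugate ENNReal NNReal

lemma T_symm (K : C(N, C(N, ℂ))) (hK : ∀ x y, conj (K x y) = K y x) (g h : C(N, ℂ)) :
    ⟪ContinuousMap.toLp 2 μ ℂ (T μ K g), ContinuousMap.toLp 2 μ ℂ h⟫_ℂ =
      ⟪ContinuousMap.toLp 2 μ ℂ g, ContinuousMap.toLp 2 μ ℂ (T μ K h)⟫_ℂ := by
  rw [ContinuousMap.inner_toLp, ContinuousMap.inner_toLp]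
  have e1 : ∀ x, h x * conj (T μ K g x) = ∫ y, h x * (K y x * conj (g y)) ∂μ := by
    intro x
    rw [T_apply, ← integral_conj, ← integral_const_mul]
    congr 1
    ext y
    rw [map_mul, hK]
  have e2 : ∀ y, T μ K h y * conj (g y) = ∫ x, h x * (K y x * conj (g y)) ∂μ := by
    intro y
    rw [T_apply, ← integral_mul_const]
    congr 1
    ext x
    ring
  simp_rw [e1, e2]
  apply integral_integral_swap_of_hasCompactSupport
  · have : Continuous (fun p : N × N => K p.2 p.1) := by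
      have h1 : Continuous (fun p : N × N => K.uncurry (p.2, p.1)) := by fun_prop
      exact h1
    simp only [Function.uncurry_def]
    fun_prop
  · exact HasCompactSupport.of_compactSpace _

lemma growth (b : ℕ → ℝ) (h0 : 0 < b 0) (h1 : 0 < b 1) (h : ∀ n, b (n + 1) ^ 2 ≤ b n * b (n + 2)) :
    ∀ n, b 0 * (b 1 / b 0) ^ n ≤ b n := by
  set r := b 1 / b 0 with hr
  have hrpos : 0 < r := div_pos h1 h0
  have key : ∀ n, 0 < b n ∧ r * b n ≤ b (n + 1) := by
    intro n
    induction n with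
    | zero => exact ⟨h0, by rw [hr, div_mul_cancel₀ _ h0.ne']⟩
    | succ n ih =>
      obtain ⟨hp, hle⟩ := ih
      have hp1 : 0 < b (n + 1) := lt_of_lt_of_le (mul_pos hrpos hp) hle
      refine ⟨hp1, ?_⟩
      have h2 := h n
      have h3 : b n * (r * b (n + 1)) ≤ b n * b (n + 2) := by
        calc b n * (r * b (n + 1)) = (r * b n) * b (n + 1) := by ring
          _ ≤ b (n + 1) * b (n + 1) := by gcongr
          _ = b (n + 1) ^ 2 := by ring
          _ ≤ _ := h2
      exact le_of_mul_le_mul_left h3 hp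
  intro n
  induction n with
  | zero => simp
  | succ n ih =>
    calc b 0 * r ^ (n + 1) = r * (b 0 * r ^ n) := by ring
      _ ≤ r * b n := by gcongr
      _ ≤ b (n + 1) := (key n).2

/-- a symmetric nonzero integral operator has a nonzero eigenvalue. -/
theorem exists_eigenvalue [μ.IsOpenPosMeasure] (K : C(N, C(N, ℂ)))
    (hK : ∀ x y, conj (K x y) = K y x) (h0 : C(N, ℂ)) (hh0 : T μ K h0 ≠ 0) :
    ∃ z : ℂ, z ≠ 0 ∧ Module.End.HasEigenvalue (T μ K : Module.End ℂ C(N, ℂ)) z := by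
  set A := T μ K with hA
  let j : C(N, ℂ) →L[ℂ] Lp ℂ 2 μ := ContinuousMap.toLp 2 μ ℂ
  have hj : Function.Injective j := ContinuousMap.toLp_injective μ
  have hsym : ∀ g h, ⟪j (A g), j h⟫_ℂ = ⟪j g, j (A h)⟫_ℂ := T_symm μ K hK
  let b : ℕ → ℝ := fun n => ‖j ((A ^ n) h0)‖
  have hb0 : 0 < b 0 := by
    simp only [b, pow_zero, one_apply_eq_self]
    rw [norm_pos_iff]
    intro h
    have : h0 = 0 := hj (by rw [h, map_zero])
    exact hh0 (by rw [this, map_zero])
  have hb1 : 0 < b 1 := by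
    simp only [b, pow_one]
    rw [norm_pos_iff]
    intro h
    exact hh0 (hj (by rw [h, map_zero]))
  have hb : ∀ n, b (n + 1) ^ 2 ≤ b n * b (n + 2) := by
    intro n
    have h1 : (A ^ (n + 1)) h0 = A ((A ^ n) h0) := by rw [pow_succ']; rfl
    have h2 : (A ^ (n + 2)) h0 = A ((A ^ (n + 1)) h0) := by rw [pow_succ' A (n + 1)]; rfl
    have h3 : ((b (n + 1) ^ 2 : ℝ) : ℂ) = ⟪j ((A ^ n) h0), j ((A ^ (n + 2)) h0)⟫_ℂ := by
      simp only [b]
      rw [h2, ← hsym, ← h1, inner_self_eq_norm_sq_to_K]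
      simp
    have h4 : b (n + 1) ^ 2 = ‖⟪j ((A ^ n) h0), j ((A ^ (n + 2)) h0)⟫_ℂ‖ := by
      rw [← h3, Complex.norm_real, Real.norm_of_nonneg (by positivity)]
    rw [h4]
    exact norm_inner_le_norm _ _
  have hgrow := growth b hb0 hb1 hb
  set r := b 1 / b 0 with hr
  have hrpos : 0 < r := div_pos hb1 hb0
  have hh0' : h0 ≠ 0 := by
    intro h; exact hh0 (by rw [h, map_zero])
  have hjn : 0 < ‖j‖ := by
    rcases (norm_nonneg j).lt_or_eq with h | h
    · exact h
    · exfalso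
      have h1 : ‖j h0‖ ≤ ‖j‖ * ‖h0‖ := j.le_opNorm h0
      rw [← h, zero_mul] at h1
      have h2 : 0 < ‖j h0‖ := by simpa [b] using hb0
      linarith
  -- lower bound of norms
  have hlow : ∀ n, b 0 / (‖j‖ * ‖h0‖) * r ^ n ≤ ‖A ^ n‖ := by
    intro n
    have h1 : b n ≤ ‖j‖ * (‖A ^ n‖ * ‖h0‖) := by
      calc b n ≤ ‖j‖ * ‖(A ^ n) h0‖ := j.le_opNorm _
        _ ≤ _ := by gcongr; exact (A ^ n).le_opNorm _
    have h2 : 0 < ‖j‖ * ‖h0‖ := mul_pos hjn (norm_pos_iff.2 hh0')
    rw [div_mul_eq_mul_div, div_le_iff₀ h2]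
    calc b 0 * r ^ n ≤ b n := hgrow n
      _ ≤ ‖j‖ * (‖A ^ n‖ * ‖h0‖) := h1
      _ = _ := by ring
  by_contra hcon
  push Not at hcon
  have hspec : ∀ z ∈ spectrum ℂ A, z = 0 := by
    intro z hz
    by_contra hz0
    rcases (T_compact μ K).hasEigenvalue_or_mem_resolventSet hz0 with h | h
    · exact hcon z hz0 h
    · exact hz h
  have hsr : spectralRadius ℂ A = 0 := by
    rw [spectralRadius]
    simp only [ENNReal.iSup_eq_zero]
    intro z hz
    rw [hspec z hz]; simp
  have hlim := spectrum.pow_norm_pow_one_div_tendsto_nhds_spectralRadius A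
  rw [hsr] at hlim
  have hc : 0 < b 0 / (‖j‖ * ‖h0‖) := div_pos hb0 (mul_pos hjn (norm_pos_iff.2 hh0'))
  set c := b 0 / (‖j‖ * ‖h0‖) with hcdef
  have h1 : ∀ᶠ n : ℕ in Filter.atTop, ENNReal.ofReal (‖A ^ n‖ ^ (1 / n : ℝ)) < ENNReal.ofReal (r / 2) :=
    hlim.eventually (gt_mem_nhds (by simpa using hrpos))
  have h2 : ∀ᶠ n : ℕ in Filter.atTop, (1 / 2 : ℝ) ^ n < c :=
    (tendsto_pow_atTop_nhds_zero_of_lt_one (by norm_num) (by norm_num)).eventually (gt_mem_nhds hc)
  obtain ⟨n, hn1, hn2, hn3⟩ := (h1.and (h2.and (Filter.eventually_ge_atTop 1))).exists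
  have h3 : ‖A ^ n‖ ^ (1 / n : ℝ) < r / 2 := by
    rw [ENNReal.ofReal_lt_ofReal_iff (by positivity)] at hn1
    exact hn1
  have h4 : ‖A ^ n‖ < (r / 2) ^ n := by
    have h5 := pow_lt_pow_left₀ h3 (by positivity) (by omega : n ≠ 0)
    rwa [one_div, Real.rpow_inv_natCast_pow (norm_nonneg _) (by omega)] at h5
  have h5 := hlow n
  have h6 : (r / 2) ^ n = (1 / 2) ^ n * r ^ n := by
    rw [← mul_pow]; congr 1; ring
  rw [h6] at h4
  have h7 : c * r ^ n < (1 / 2) ^ n * r ^ n := lt_of_le_of_lt h5 h4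
  have h8 := lt_of_mul_lt_mul_right h7 (by positivity)
  linarith

/-- left translation of functions. -/
noncomputable def Lt (g : N) : C(N, ℂ) →L[ℂ] C(N, ℂ) :=
  LinearMap.mkContinuous
    { toFun := fun h => h.comp ⟨fun x => g⁻¹ * x, by fun_prop⟩
      map_add' := fun f g => rfl
      map_smul' := fun c f => rfl } 1 (fun h => by
        rw [one_mul, ContinuousMap.norm_le _ (norm_nonneg _)]
        intro x
        exact h.norm_coe_le_norm _)

lemma Lt_apply (g : N) (h : C(N, ℂ)) (x : N) : Lt g h x = h (g⁻¹ * x) := rfl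

/-- the kernel of a function. -/
noncomputable def Ker (f : C(N, ℝ)) : C(N, C(N, ℂ)) :=
  ContinuousMap.curry ⟨fun p : N × N => ((f (p.1⁻¹ * p.2) : ℝ) : ℂ), by fun_prop⟩

lemma Ker_apply (f : C(N, ℝ)) (x y : N) : Ker f x y = ((f (x⁻¹ * y) : ℝ) : ℂ) := rfl

lemma T_Lt [μ.IsMulLeftInvariant] (f : C(N, ℝ)) (g : N) (h : C(N, ℂ)) :
    T μ (Ker f) (Lt g h) = Lt g (T μ (Ker f) h) := by
  ext x
  rw [T_apply, Lt_apply, T_apply]
  simp only [Ker_apply, Lt_apply]
  rw [← integral_mul_left_eq_self _ g]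
  congr 1
  ext y
  simp [mul_assoc]

omit [MeasurableSpace N] [BorelSpace N] in
theorem exists_rep [Nontrivial N] : ∃ (B : Type u) (_ : NormedRing B) (_ : NormedAlgebra ℂ B)
    (ρ : N →* B), Continuous ρ ∧ ∃ x, ρ x ≠ 1 := by
  borelize N
  let μ : Measure N := Measure.haar
  have hμfin : IsFiniteMeasure μ := inferInstance
  -- the function
  obtain ⟨x0, hx0⟩ := exists_ne (1 : N)
  obtain ⟨φ, hφ0, hφ1, -⟩ := exists_continuous_zero_one_of_isClosed
    (s := ({x0, x0⁻¹} : Set N)) (t := {1}) (Set.toFinite _).isClosed isClosed_singleton (by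
      rw [Set.disjoint_singleton_right]
      rintro (h | h)
      · exact hx0 h.symm
      · rw [Set.mem_singleton_iff, eq_comm, inv_eq_one] at h
        exact hx0 h)
  let f1 : C(N, ℝ) := φ + φ.comp ⟨fun x => x⁻¹, by fun_prop⟩
  have hf1 : ∀ x, f1 x = φ x + φ x⁻¹ := fun x => rfl
  let m : ℝ := (μ.real Set.univ)⁻¹ * ∫ x, f1 x ∂μ
  let f : C(N, ℝ) := f1 - ContinuousMap.const N m
  have hf : ∀ x, f x = φ x + φ x⁻¹ - m := fun x => rfl
  have hfinv : ∀ x, f x⁻¹ = f x := by
    intro x; rw [hf, hf, inv_inv, add_comm (φ x⁻¹)]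
  have hμ0 : 0 < μ.real Set.univ := by
    rw [Measure.real, ENNReal.toReal_pos_iff]
    exact ⟨isOpen_univ.measure_pos μ Set.univ_nonempty, measure_lt_top _ _⟩
  have hfmean : ∫ x, f x ∂μ = 0 := by
    have h1 : Integrable (fun x => f1 x) μ :=
      f1.continuous.integrable_of_hasCompactSupport (HasCompactSupport.of_compactSpace _)
    have h2 : ∫ x, f x ∂μ = ∫ x, f1 x ∂μ - ∫ x, m ∂μ := integral_sub h1 (integrable_const m)
    rw [h2, integral_const, smul_eq_mul]
    simp only [m]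
    field_simp
    ring
  have hfne : f ≠ 0 := by
    intro h
    have e1 : f 1 - f x0 = 2 := by
      rw [hf, hf]
      have a1 : φ 1 = 1 := hφ1 rfl
      have a2 : φ x0 = 0 := hφ0 (by simp)
      have a3 : φ x0⁻¹ = 0 := hφ0 (by simp)
      rw [inv_one, a1, a2, a3]; ring
    rw [h] at e1
    norm_num at e1
  -- the operator
  have hKsym : ∀ x y, conj (Ker f x y) = Ker f y x := by
    intro x y
    rw [Ker_apply, Ker_apply, Complex.conj_ofReal, ← hfinv (x⁻¹ * y)]
    simp
  let h0 : C(N, ℂ) := ⟨fun y => ((f y : ℝ) : ℂ), by fun_prop⟩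
  have hT0 : T μ (Ker f) h0 ≠ 0 := by
    intro h
    have h1 : T μ (Ker f) h0 1 = 0 := by rw [h]; rfl
    rw [T_apply] at h1
    have h2 : ∀ y, Ker f 1 y * h0 y = ((f y * f y : ℝ) : ℂ) := by
      intro y
      rw [Ker_apply]
      simp [h0]
    simp_rw [h2] at h1
    rw [integral_complex_ofReal, Complex.ofReal_eq_zero] at h1
    have h3 : 0 < ∫ y, f y * f y ∂μ := by
      obtain ⟨y0, hy0⟩ : ∃ y, f y ≠ 0 := by
        by_contra hc
        push Not at hc
        exact hfne (by ext y; exact hc y)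
      apply Continuous.integral_pos_of_hasCompactSupport_nonneg_nonzero (x := y0)
      · fun_prop
      · exact HasCompactSupport.of_compactSpace _
      · intro y; exact mul_self_nonneg _
      · exact mul_ne_zero hy0 hy0
    linarith
  obtain ⟨z, hz, hev⟩ := exists_eigenvalue μ (Ker f) hKsym h0 hT0
  let E : Submodule ℂ C(N, ℂ) := Module.End.eigenspace (T μ (Ker f) : Module.End ℂ C(N, ℂ)) z
  have hE : ∀ h, h ∈ E ↔ T μ (Ker f) h = z • h := by
    intro h
    exact Module.End.mem_eigenspace_iff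
  have hEcl : IsClosed (E : Set C(N, ℂ)) := by
    have : (E : Set C(N, ℂ)) = {h | T μ (Ker f) h = z • h} := by
      ext h; exact hE h
    rw [this]
    exact isClosed_eq (T μ (Ker f)).continuous (continuous_const_smul z)
  have hEcomp : CompleteSpace E := hEcl.completeSpace_coe
  have hEfin : FiniteDimensional ℂ E := by
    have h1 := (T_compact μ (Ker f)).restrict' (f := (T μ (Ker f)).toLinearMap) (V := E) (by
      intro v hv
      have : T μ (Ker f) v = z • v := (hE v).1 hv
      change T μ (Ker f) v ∈ E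
      rw [this]
      exact E.smul_mem z hv)
    have h2 : IsCompactOperator (fun v : E => z • v) := by
      convert h1 using 1
      ext v
      have : T μ (Ker f) v = z • (v : C(N, ℂ)) := (hE v).1 v.2
      simp only [LinearMap.restrict_apply]
      congr 1
      exact (this).symm
    have h3 : IsCompactOperator (z⁻¹ • (fun v : E => z • v)) := h2.smul z⁻¹
    have h4 : (z⁻¹ • (fun v : E => z • v)) = id := by
      ext1 v
      simp [smul_smul, inv_mul_cancel₀ hz]
    rw [h4] at h3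
    exact FiniteDimensional.of_isCompactOperator_id h3
  have hLE : ∀ g : N, ∀ h ∈ E, Lt g h ∈ E := by
    intro g h hh
    rw [hE] at hh ⊢
    rw [T_Lt, hh, map_smul]
  let ρ : N →* (E →L[ℂ] E) :=
    { toFun := fun g => ((Lt g).comp E.subtypeL).codRestrict E (fun h => hLE g h h.2)
      map_one' := by
        ext h x
        change (h : C(N, ℂ)) ((1 : N)⁻¹ * x) = (h : C(N, ℂ)) x
        simp
      map_mul' := by
        intro a b
        ext h x
        change (h : C(N, ℂ)) ((a * b)⁻¹ * x) = (h : C(N, ℂ)) (b⁻¹ * (a⁻¹ * x))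
        rw [mul_inv_rev, mul_assoc] }
  have hρ : ∀ g (h : E) (x : N), (ρ g h : C(N, ℂ)) x = (h : C(N, ℂ)) (g⁻¹ * x) := fun g h x => rfl
  refine ⟨E →L[ℂ] E, inferInstance, inferInstance, ρ, ?_, ?_⟩
  · rw [continuous_clm_apply]
    intro h
    apply Continuous.subtype_mk (f := fun g => Lt g (h : C(N, ℂ)))
    have : (fun g => Lt g (h : C(N, ℂ))) =
        ContinuousMap.curry ⟨fun p : N × N => (h : C(N, ℂ)) (p.1⁻¹ * p.2), by fun_prop⟩ := by
      ext g x; rfl
    rw [this]
    exact ContinuousMap.continuous _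
  · by_contra hcon
    push Not at hcon
    obtain ⟨h, hh, hh0⟩ := hev.exists_hasEigenvector
    have hhE : h ∈ E := hh
    have h1 : ∀ x, h x = h 1 := by
      intro x
      have := hcon x⁻¹
      have h2 : (ρ x⁻¹ ⟨h, hhE⟩ : C(N, ℂ)) 1 = h 1 := by rw [this]; rfl
      rw [hρ] at h2
      simpa using h2
    have h2 : T μ (Ker f) h = 0 := by
      ext x
      rw [T_apply]
      simp_rw [h1, Ker_apply]
      rw [integral_mul_const, integral_mul_left_eq_self (fun y => ((f y : ℝ) : ℂ)) x⁻¹,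
        integral_complex_ofReal, hfmean]
      simp
    have h3 := (hE h).1 hhE
    rw [h2] at h3
    rcases smul_eq_zero.1 h3.symm with h4 | h4
    · exact hz h4
    · exact hh0 h4

end Pool.Agent.Helper944.LN.PW
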