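import Pool.Agent.Helper944.LN.Conn
import Pool.Agent.Helper944.LN.PW
import Pool.Agent.Helper944.LN.Abel

set_option autoImplicit false
set_option linter.unusedVariables false
set_option linter.unusedSectionVars false

namespace Pool.Agent.Helper944.LN

open Subgroup Topology
open scoped commutatorElement

universe u

/-- A topologically perfect locally nilpotent locally compact group satisfying (H) has a proper
open normal subgroup. -/
theorem perf_exists_open {G : Type u} [Group G] [TopologicalSpace G] [IsTopologicalGroup G]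
    [LocallyCompactSpace G] [T2Space G] (hG : Perf G) :
    ∃ K : Subgroup G, K.Normal ∧ IsOpen (K : Set G) ∧ K ≠ ⊤ := by
  by_contra hcon
  push Not at hcon
  have hno : ∀ V : Subgroup G, IsOpen (V : Set G) → V = ⊤ := open_eq_top hG hcon
  obtain ⟨N0, hN0n, hN0c, hN0t, hN0z⟩ := exists_proper hG
  let N := gc N0
  have hNn : N.Normal := inferInstance
  have hNle : N ≤ N0 := gc_le_self hN0c
  have hNc : IsCompact (N : Set G) := (hG.H N0 hN0n hN0c hN0t).of_isClosed_subset
    (isClosed_gc N0) hNle
  have hgc : gc N = N := gc_gc hG.perf N0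
  have hcs : CompactSpace N := isCompact_iff_compactSpace.1 hNc
  have hnt : Nontrivial N := by
    rw [Subgroup.nontrivial_iff_ne_bot]
    intro hb
    apply hN0z
    intro y hy
    rw [mem_center_iff_comm]
    intro g
    have : ⁅y, g⁆ ∈ N := comm_mem_gc hy g
    rwa [hb, Subgroup.mem_bot] at this
  obtain ⟨B, i1, i2, ρ, hρ, x, hx⟩ := PW.exists_rep (N := N)
  exact rep_contra hG hno N hNc hgc ρ hρ x hx

theorem main (G : Type u) [Group G] [TopologicalSpace G] [IsTopologicalGroup G]
    [LocallyCompactSpace G] [T2Space G] (hLN : LocNil G)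
    (hH : ∀ N : Subgroup G, N.Normal → IsClosed (N : Set G) → N ≠ ⊤ → IsCompact (N : Set G)) :
    ∃ K : Subgroup G, K.Normal ∧ IsOpen (K : Set G) ∧ IsCompact (K : Set G) := by
  by_cases hp : (commutator G).topologicalClosure = ⊤
  · rcases subsingleton_or_nontrivial G with h | h
    · exact ⟨⊤, inferInstance, isOpen_univ, (Set.subsingleton_of_subsingleton).isCompact⟩
    · obtain ⟨K, h1, h2, h3⟩ := perf_exists_open (G := G) ⟨hLN, hH, hp, h⟩
      exact ⟨K, h1, h2, hH K h1 (K.isClosed_of_isOpen h2) h3⟩
  · exact abelian_case hH hp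

end Pool.Agent.Helper944.LN
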