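import Pool.Agent.Helper944.LN.CG4

set_option autoImplicit false
set_option linter.unusedVariables false
set_option linter.unusedSectionVars false

namespace Pool.Agent.Helper944.LN

open Subgroup Topology
open scoped commutatorElement Pointwise

/-- the length function of a representation. -/
lemma length_fn {N : Type*} [Group N] [TopologicalSpace N] [IsTopologicalGroup N] {B : Type*}
    [NormedRing B] [NormedAlgebra ℂ B] (ρ : N →* B) (hρ : Continuous ρ) :
    ∃ d : N → ℝ, Continuous d ∧ (∀ x, d x = 0 ↔ ∀ y, ρ (x * y) = ρ (y * x)) ∧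
      (∀ R : Subgroup N, (∀ x ∈ R, d x ≤ 1 / 4) → ∀ x ∈ R, d x = 0) := by
  let E1 : Submodule ℂ B := Submodule.span ℂ (Set.range ρ)
  let Φ : N → (B →L[ℂ] B) := fun x => ContinuousLinearMap.mulLeftRight ℂ B (ρ x) (ρ x⁻¹)
  have hΦ : ∀ x a, Φ x a = ρ x * a * ρ x⁻¹ := fun x a => by
    simp [Φ, ContinuousLinearMap.mulLeftRight_apply]
  have hΦc : Continuous Φ := by
    have h1 : Continuous (fun x : N => ContinuousLinearMap.mulLeftRight ℂ B (ρ x)) :=
      (ContinuousLinearMap.mulLeftRight ℂ B).continuous.comp hρ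
    exact h1.clm_apply (hρ.comp continuous_inv)
  let d : N → ℝ := fun x => ‖(Φ x).comp E1.subtypeL - E1.subtypeL‖
  have hdc : Continuous d := by
    have h1 : Continuous (fun x => (Φ x).comp E1.subtypeL) := hΦc.clm_comp continuous_const
    have h2 : Continuous (fun x => (Φ x).comp E1.subtypeL - E1.subtypeL) :=
      h1.sub continuous_const
    exact (continuous_norm (E := E1 →L[ℂ] B)).comp h2
  have hdnn : ∀ x, 0 ≤ d x := fun x => norm_nonneg ((Φ x).comp E1.subtypeL - E1.subtypeL)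
  have hE1 : ∀ x : N, ∀ a ∈ E1, Φ x a ∈ E1 := by
    intro x a ha
    induction ha using Submodule.span_induction with
    | mem a ha =>
      obtain ⟨y, rfl⟩ := ha
      rw [hΦ, ← map_mul, ← map_mul]
      exact Submodule.subset_span ⟨_, rfl⟩
    | zero => rw [map_zero]; exact zero_mem _
    | add a b _ _ ha hb => rw [map_add]; exact add_mem ha hb
    | smul c a _ ha => rw [map_smul]; exact Submodule.smul_mem _ _ ha
  have hd_le : ∀ x : N, ∀ a ∈ E1, ‖Φ x a - a‖ ≤ d x * ‖a‖ := by
    intro x a ha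
    exact ((Φ x).comp E1.subtypeL - E1.subtypeL).le_opNorm ⟨a, ha⟩
  have hd_of : ∀ x : N, ∀ c : ℝ, 0 ≤ c → (∀ a ∈ E1, ‖Φ x a - a‖ ≤ c * ‖a‖) → d x ≤ c := by
    intro x c hc h
    exact ContinuousLinearMap.opNorm_le_bound _ hc (fun a => h a a.2)
  have hd0 : ∀ x : N, d x = 0 ↔ ∀ y : N, ρ (x * y) = ρ (y * x) := by
    intro x
    constructor
    · intro h y
      have h1 := hd_le x (ρ y) (Submodule.subset_span ⟨y, rfl⟩)
      rw [h, zero_mul, norm_le_zero_iff, sub_eq_zero, hΦ] at h1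
      calc ρ (x * y) = ρ x * ρ y * ρ x⁻¹ * ρ x := by
            rw [← map_mul, ← map_mul, ← map_mul]; congr 1; group
        _ = ρ (y * x) := by rw [h1, ← map_mul]
    · intro h
      apply le_antisymm _ (hdnn x)
      apply hd_of x 0 le_rfl
      intro a ha
      have : Φ x a = a := by
        induction ha using Submodule.span_induction with
        | mem a ha =>
          obtain ⟨y, rfl⟩ := ha
          rw [hΦ, ← map_mul, h y, ← map_mul]; congr 1; group
        | zero => rw [map_zero]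
        | add a b _ _ ha hb => rw [map_add, ha, hb]
        | smul c a _ ha => rw [map_smul, ha]
      rw [this]; simp
  have hΦ1 : ∀ x : N, Φ (x * x) = (Φ x).comp (Φ x) := by
    intro x
    ext a
    rw [ContinuousLinearMap.comp_apply, hΦ, hΦ, hΦ, mul_inv_rev, map_mul, map_mul]
    simp only [mul_assoc]
  refine ⟨d, hdc, hd0, ?_⟩
  intro R hR
  have key : ∀ n : ℕ, ∀ x ∈ R, d x ≤ (1 / 4) * (3 / 4) ^ n := by
    intro n
    induction n with
    | zero => intro x hx; simpa using hR x hx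
    | succ n ih =>
      intro x hx
      apply hd_of x _ (by positivity)
      intro a ha
      have ha' : Φ x a - a ∈ E1 := sub_mem (hE1 x a ha) ha
      have e1 : (2 : ℂ) • (Φ x a - a) = (Φ (x * x) a - a) - (Φ x (Φ x a - a) - (Φ x a - a)) := by
        rw [hΦ1, ContinuousLinearMap.comp_apply, map_sub, two_smul]
        abel
      have h2 : 2 * ‖Φ x a - a‖ = ‖(2 : ℂ) • (Φ x a - a)‖ := by
        rw [norm_smul]; norm_num
      have h3 : ‖(2 : ℂ) • (Φ x a - a)‖ ≤ d (x * x) * ‖a‖ + d x * ‖Φ x a - a‖ := by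
        rw [e1]
        exact (norm_sub_le _ _).trans (add_le_add (hd_le _ a ha) (hd_le x _ ha'))
      have h4 := ih (x * x) (mul_mem hx hx)
      have h6 := hR x hx
      have h7 : (0:ℝ) ≤ ‖Φ x a - a‖ := norm_nonneg _
      have h8 : (0:ℝ) ≤ ‖a‖ := norm_nonneg _
      have h9 : d (x * x) * ‖a‖ ≤ (1 / 4) * (3 / 4) ^ n * ‖a‖ := by gcongr
      have h10 : d x * ‖Φ x a - a‖ ≤ 1 / 4 * ‖Φ x a - a‖ := by gcongr
      have h11 : (0:ℝ) ≤ (1 / 4) * (3 / 4) ^ n * ‖a‖ := by positivity
      rw [pow_succ]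
      nlinarith
  intro x hx
  have h1 : Filter.Tendsto (fun n : ℕ => (1 / 4 : ℝ) * (3 / 4) ^ n) Filter.atTop (𝓝 ((1/4) * 0)) :=
    (tendsto_pow_atTop_nhds_zero_of_lt_one (by norm_num) (by norm_num)).const_mul _
  have h2 : d x ≤ (1/4) * 0 := ge_of_tendsto' h1 (fun n => key n x hx)
  exact le_antisymm (by simpa using h2) (hdnn x)

lemma hunif {P T B : Type*} [TopologicalSpace P] [TopologicalSpace T] [NormedRing B]
    (p0 : P) (K : Set T) (hK : IsCompact K) (f : P → T → B) (hf : Continuous (Function.uncurry f))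
    (h1 : ∀ x ∈ K, f p0 x = 1) : ∀ᶠ g in 𝓝 p0, ∀ x ∈ K, ‖f g x - 1‖ ≤ 1 / 2 := by
  refine hK.eventually_forall_of_forall_eventually (P := fun g x => ‖f g x - 1‖ ≤ 1 / 2) ?_
  intro x hx
  have h2 : ContinuousAt (fun z : P × T => ‖f z.1 z.2 - 1‖) (p0, x) := by
    have : Continuous (fun z : P × T => ‖f z.1 z.2 - 1‖) := (hf.sub continuous_const).norm
    exact this.continuousAt
  have h3 : ‖f p0 x - 1‖ < 1 / 2 := by rw [h1 x hx]; simp
  exact (h2.eventually (gt_mem_nhds h3)).mono (fun z hz => hz.le)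

/-- no proper open subgroups. -/
def NoOpen (N : Type*) [Group N] [TopologicalSpace N] : Prop :=
  ∀ W : Subgroup N, IsOpen (W : Set N) → W = ⊤

lemma NoOpen.trivial_of_pow {N : Type*} [Group N] [TopologicalSpace N] [IsTopologicalGroup N]
    (hN : NoOpen N) {B : Type*} [NormedRing B] [NormedAlgebra ℂ B] (f : N →* B) (hf : Continuous f)
    (m : ℕ) (hm : 1 ≤ m) (h : ∀ x, f x ^ m = 1) : ∀ x, f x = 1 := by
  have h1 : f.ker = ⊤ := by
    apply hN
    apply Subgroup.isOpen_of_mem_nhds _ (g := 1)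
    have h2 : ∀ᶠ x in 𝓝 (1 : N), ∀ j ∈ Finset.range m, ‖f x ^ j - 1‖ ≤ 1 / 2 := by
      rw [Filter.eventually_all_finset]
      intro j _
      have hc : Continuous (fun x => ‖f x ^ j - 1‖) := ((hf.pow j).sub continuous_const).norm
      have h3 : ‖f 1 ^ j - 1‖ < 1 / 2 := by simp
      exact (hc.continuousAt.eventually (gt_mem_nhds h3)).mono (fun z hz => hz.le)
    filter_upwards [h2] with x hx
    have h3 := nss (S := Subgroup.zpowers x) (f.comp (Subgroup.zpowers x).subtype) (by
      rintro ⟨_, ⟨j, rfl⟩⟩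
      have hm0 : (0 : ℤ) < m := by exact_mod_cast hm
      have e1 : x ^ j = x ^ (j % (m : ℤ)) * (x ^ m) ^ (j / (m : ℤ)) := by
        conv_lhs => rw [← Int.emod_add_mul_ediv j m]
        rw [zpow_add, zpow_mul, zpow_natCast]
      have e2 : f ((x ^ m) ^ (j / (m : ℤ))) = 1 := by
        have hk : x ^ m ∈ f.ker := by rw [MonoidHom.mem_ker, map_pow, h]
        exact f.ker.zpow_mem hk _
      have e3 : x ^ (j % (m : ℤ)) = x ^ (j % (m : ℤ)).toNat := by
        conv_lhs => rw [← Int.toNat_of_nonneg (Int.emod_nonneg j hm0.ne')]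
        exact zpow_natCast _ _
      have e4 : f (x ^ j) = f x ^ (j % (m : ℤ)).toNat := by
        rw [e1, map_mul, e2, mul_one, e3, map_pow]
      change ‖f (x ^ j) - 1‖ ≤ 1 / 2
      rw [e4]
      apply hx
      rw [Finset.mem_range]
      have := Int.emod_lt_of_pos j hm0
      omega) ⟨x, Subgroup.mem_zpowers x⟩
    exact h3
  intro x
  have : x ∈ f.ker := by rw [h1]; trivial
  exact this

end Pool.Agent.Helper944.LN
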