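import Pool.Agent.Helper944.LN.NOS

set_option autoImplicit false
set_option linter.unusedVariables false
set_option linter.unusedSectionVars false

namespace Pool.Agent.Helper944.LN

open Subgroup Topology
open scoped commutatorElement Pointwise

universe u

/-- A closed normal subgroup without proper open subgroups of a compact locally nilpotent group
is central. -/
theorem NoOpen.central {Γ : Type u} [Group Γ] [TopologicalSpace Γ] [IsTopologicalGroup Γ]
    [CompactSpace Γ] [T2Space Γ] (hLN : LocNil Γ) (N : Subgroup Γ) [hN : N.Normal]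
    (hNcl : IsClosed (N : Set Γ)) (hNO : NoOpen N) : N ≤ Subgroup.center Γ := by
  classical
  by_contra hz
  set N1 : Subgroup Γ := gc N with hN1def
  have hN1n : N1.Normal := inferInstance
  have hN1cl : IsClosed (N1 : Set Γ) := isClosed_gc N
  have hN1N : N1 ≤ N := gc_le_self hNcl
  have hcs1 : CompactSpace N1 := isCompact_iff_compactSpace.1 hN1cl.isCompact
  have hcsN : CompactSpace N := isCompact_iff_compactSpace.1 hNcl.isCompact
  have hnt : Nontrivial N1 := by
    rw [Subgroup.nontrivial_iff_ne_bot]
    intro hb
    apply hz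
    intro y hy
    rw [mem_center_iff_comm]
    intro g
    have : ⁅y, g⁆ ∈ N1 := comm_mem_gc hy g
    rwa [hb, Subgroup.mem_bot] at this
  obtain ⟨B0, i1, i2, ρ0, hρ0, x0, hx0⟩ := PW.exists_rep (N := N1)
  have hconj : Continuous (fun p : Γ × N1 => (MulAut.conjNormal p.1 p.2 : N1)) := by
    apply Continuous.subtype_mk (f := fun p : Γ × N1 => (p.1 * (p.2 : Γ) * p.1⁻¹))
    fun_prop
  have hconj' : Continuous (fun p : N1 × Γ => (MulAut.conjNormal p.2 p.1 : N1)) :=
    hconj.comp continuous_swap
  -- the induced invariant representation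
  let ρc : C(N1, C(Γ, B0)) := ContinuousMap.curry ⟨fun p : N1 × Γ => ρ0 (MulAut.conjNormal p.2 p.1), hρ0.comp hconj'⟩
  have hρc : ∀ x γ, ρc x γ = ρ0 (MulAut.conjNormal γ x) := fun x γ => rfl
  let ρ : N1 →* C(Γ, B0) :=
    { toFun := fun x => ρc x
      map_one' := by
        ext γ
        rw [hρc, map_one, map_one]; rfl
      map_mul' := by
        intro x y
        ext γ
        rw [hρc, map_mul, map_mul]; rfl }
  have hρ : Continuous ρ := ρc.continuous
  have hρa : ∀ x γ, ρ x γ = ρ0 (MulAut.conjNormal γ x) := fun x γ => rfl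
  have hinv : ∀ a b : N1, ρ a = ρ b → ∀ g : Γ, ρ (MulAut.conjNormal g a) = ρ (MulAut.conjNormal g b) := by
    intro a b hab g
    ext γ
    have := congrArg (fun F : C(Γ, B0) => F (γ * g)) hab
    simp only [hρa] at this
    rw [hρa, hρa, ← MulAut.mul_apply, ← map_mul, this, map_mul, MulAut.mul_apply]
  have hinv1 : ∀ a : N1, ρ a = 1 → ∀ g : Γ, ρ (MulAut.conjNormal g a) = 1 := by
    intro a ha g
    have := hinv a 1 (by rw [ha, map_one]) g
    rw [this, map_one, map_one]
  have hρx0 : ρ x0 ≠ 1 := by
    intro h
    apply hx0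
    have := congrArg (fun F : C(Γ, B0) => F 1) h
    simp only [hρa] at this
    simpa using this
  -- the centre modulo the kernel
  let ZP : Subgroup N1 :=
    { carrier := {x | ∀ y : N1, ρ (x * y) = ρ (y * x)}
      mul_mem' := by
        intro a b ha hb y
        simp only [Set.mem_ofPred_eq] at ha hb
        calc ρ (a * b * y) = ρ a * ρ (b * y) := by rw [← map_mul, mul_assoc]
          _ = ρ a * ρ (y * b) := by rw [hb]
          _ = ρ (a * y) * ρ b := by rw [← map_mul, ← map_mul, mul_assoc]
          _ = ρ (y * a) * ρ b := by rw [ha]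
          _ = _ := by rw [← map_mul, mul_assoc]
      one_mem' := by intro y; simp
      inv_mem' := by
        intro a ha y
        simp only [Set.mem_ofPred_eq] at ha ⊢
        have h1 := ha (a⁻¹ * y * a⁻¹)
        have h2 : a * (a⁻¹ * y * a⁻¹) = y * a⁻¹ := by group
        have h3 : (a⁻¹ * y * a⁻¹) * a = a⁻¹ * y := by group
        rw [h2, h3] at h1
        exact h1.symm }
  have hZPc : ∀ a ∈ ZP, ∀ b, ρ a * ρ b = ρ b * ρ a := by
    intro a ha b
    rw [← map_mul, ← map_mul]; exact ha b
  have hZPcl : IsClosed (ZP : Set N1) := by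
    have : (ZP : Set N1) = ⋂ y : N1, {x | ρ (x * y) = ρ (y * x)} := by
      ext x; simp only [Set.mem_iInter]; exact Iff.rfl
    rw [this]
    exact isClosed_iInter fun y => isClosed_eq (hρ.comp (by fun_prop)) (hρ.comp (by fun_prop))
  have hZPn : ∀ g : Γ, ∀ x ∈ ZP, MulAut.conjNormal g x ∈ ZP := by
    intro g x hx y
    have h1 := hinv _ _ (hx (MulAut.conjNormal g⁻¹ y)) g
    have e : MulAut.conjNormal g (MulAut.conjNormal g⁻¹ y) = y := by
      apply Subtype.ext
      simp
    rw [map_mul (MulAut.conjNormal g), map_mul (MulAut.conjNormal g), e] at h1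
    exact h1
  -- (i)
  have hi : ∀ g ∈ N, ∀ x ∈ ZP, ρ (MulAut.conjNormal g x) = ρ x := by
    let T : Subgroup Γ :=
      { carrier := {g | ∀ x ∈ ZP, ρ (MulAut.conjNormal g x) = ρ x}
        mul_mem' := by
          intro a b ha hb x hx
          rw [map_mul, MulAut.mul_apply, ha _ (hZPn b x hx), hb x hx]
        one_mem' := by intro x hx; simp
        inv_mem' := by
          intro a ha x hx
          have := ha _ (hZPn a⁻¹ x hx)
          rw [← MulAut.mul_apply, ← map_mul, mul_inv_cancel, map_one, MulAut.one_apply] at this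
          exact this.symm }
    have hTo : IsOpen (T : Set Γ) := by
      apply Subgroup.isOpen_of_mem_nhds _ (g := 1)
      have h1 := hunif (1 : Γ) (ZP : Set N1) hZPcl.isCompact
        (fun g x => ρ (x⁻¹ * MulAut.conjNormal g x))
        (hρ.comp ((continuous_snd.inv).mul hconj)) (by intro x hx; simp)
      filter_upwards [h1] with g hg x hx
      let f : ZP →* C(Γ, B0) :=
        { toFun := fun s => ρ ((s : N1)⁻¹ * MulAut.conjNormal g (s : N1))
          map_one' := by simp
          map_mul' := by
            intro a b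
            have e1 : ((a * b : ZP) : N1)⁻¹ * MulAut.conjNormal g ((a * b : ZP) : N1) =
              (b : N1)⁻¹ * ((a : N1)⁻¹ * MulAut.conjNormal g (a : N1)) * MulAut.conjNormal g (b : N1) := by
              simp only [Subgroup.coe_mul, mul_inv_rev, map_mul, mul_assoc]
            rw [e1, map_mul, map_mul, hZPc _ (inv_mem b.2), mul_assoc, ← map_mul] }
      have h2 := nss f (fun s => hg s s.2) ⟨x, hx⟩
      have h3 : ρ (x⁻¹ * MulAut.conjNormal g x) = 1 := h2
      calc ρ (MulAut.conjNormal g x) = ρ x * ρ (x⁻¹ * MulAut.conjNormal g x) := by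
            rw [← map_mul]; congr 1; group
        _ = ρ x := by rw [h3, mul_one]
    have hTN := hNO (T.comap N.subtype) (hTo.preimage continuous_subtype_val)
    intro g hg
    have : (⟨g, hg⟩ : N) ∈ T.comap N.subtype := by rw [hTN]; trivial
    exact this
  -- commutators as elements of N1
  let cm : N1 → Γ → N1 := fun x y => x * (MulAut.conjNormal y x)⁻¹
  have hcm : ∀ x y, ((cm x y : N1) : Γ) = ⁅(x : Γ), y⁆ := by
    intro x y
    simp [cm, MulAut.conjNormal_apply, commutatorElement_def, mul_assoc]
  have hcmc : Continuous (fun p : Γ × N1 => cm p.2 p.1) := continuous_snd.mul hconj.inv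
  -- (ii)
  have hii : ∀ x : N1, (∀ y ∈ N, cm x y ∈ ZP) → ∀ y ∈ N, ρ (cm x y) = 1 := by
    have hmulx : ∀ x x' : N1, ∀ y, cm (x * x') y = (MulAut.conjNormal (x : Γ) (cm x' y)) * cm x y := by
      intro x x' y
      apply Subtype.ext
      simp only [Subgroup.coe_mul, hcm, MulAut.conjNormal_apply]
      simp only [commutatorElement_def]; group
    have hmuly : ∀ x : N1, ∀ y y', cm x (y * y') = cm x y * MulAut.conjNormal y (cm x y') := by
      intro x y y'
      apply Subtype.ext
      simp only [Subgroup.coe_mul, hcm, MulAut.conjNormal_apply]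
      simp only [commutatorElement_def]; group
    have hinvx : ∀ x : N1, ∀ y, cm x⁻¹ y = MulAut.conjNormal (x⁻¹ : Γ) (cm x y)⁻¹ := by
      intro x y
      apply Subtype.ext
      simp only [Subgroup.coe_inv, hcm, MulAut.conjNormal_apply]
      simp only [commutatorElement_def]; group
    have hinvy : ∀ x : N1, ∀ y, cm x y⁻¹ = MulAut.conjNormal y⁻¹ (cm x y)⁻¹ := by
      intro x y
      apply Subtype.ext
      simp only [Subgroup.coe_inv, hcm, MulAut.conjNormal_apply]
      simp only [commutatorElement_def]; group
    let X2 : Subgroup N1 :=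
      { carrier := {x | ∀ y ∈ N, cm x y ∈ ZP}
        mul_mem' := by
          intro a b ha hb y hy
          rw [hmulx]
          exact mul_mem (hZPn _ _ (hb y hy)) (ha y hy)
        one_mem' := by
          intro y hy
          have : cm 1 y = 1 := by simp [cm]
          rw [this]; exact one_mem _
        inv_mem' := by
          intro a ha y hy
          rw [hinvx]
          exact hZPn _ _ (inv_mem (ha y hy)) }
    have hX2cl : IsClosed (X2 : Set N1) := by
      have : (X2 : Set N1) = ⋂ y ∈ N, (fun x => cm x y) ⁻¹' (ZP : Set N1) := by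
        ext x; simp only [Set.mem_iInter]; exact Iff.rfl
      rw [this]
      refine isClosed_biInter fun y _ => hZPcl.preimage ?_
      exact hcmc.comp (by fun_prop : Continuous (fun x : N1 => (y, x)))
    let T2 : Subgroup N :=
      { carrier := {y | ∀ x ∈ X2, ρ (cm x y) = 1}
        mul_mem' := by
          intro a b ha hb x hx
          rw [Subgroup.coe_mul, hmuly, map_mul, ha x hx, hinv1 _ (hb x hx), one_mul]
        one_mem' := by
          intro x hx
          have : cm x ((1 : N) : Γ) = 1 := by simp [cm]
          rw [this, map_one]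
        inv_mem' := by
          intro a ha x hx
          rw [Subgroup.coe_inv, hinvy]
          apply hinv1
          have h1 : ρ ((cm x a)⁻¹) * ρ (cm x a) = 1 := by
            rw [← map_mul, inv_mul_cancel, map_one]
          rw [ha x hx, mul_one] at h1
          exact h1 }
    have hT2o : IsOpen (T2 : Set N) := by
      apply Subgroup.isOpen_of_mem_nhds _ (g := 1)
      have h1 := hunif (1 : N) (X2 : Set N1) hX2cl.isCompact
        (fun g x => ρ (cm x (g : Γ)))
        (hρ.comp (hcmc.comp (by fun_prop : Continuous (fun p : N × N1 => ((p.1 : Γ), p.2)))))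
        (by
          intro x hx
          have : cm x ((1 : N) : Γ) = 1 := by simp [cm]
          rw [this, map_one])
      filter_upwards [h1] with g hg x hx
      let f : X2 →* C(Γ, B0) :=
        { toFun := fun s => ρ (cm (s : N1) (g : Γ))
          map_one' := by
            have : cm ((1 : X2) : N1) (g : Γ) = 1 := by simp [cm]
            rw [this, map_one]
          map_mul' := by
            intro a b
            rw [Subgroup.coe_mul, hmulx, map_mul]
            have hb := b.2 (g : Γ) g.2
            have e1 : ρ (MulAut.conjNormal ((a : N1) : Γ) (cm (b : N1) (g : Γ))) = ρ (cm (b : N1) (g : Γ)) :=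
              hi _ (hN1N (a : N1).2) _ hb
            rw [e1]
            exact hZPc _ hb _ }
      exact nss f (fun s => hg s s.2) ⟨x, hx⟩
    have hT2 := hNO T2 hT2o
    intro x hx y hy
    have : (⟨y, hy⟩ : N) ∈ T2 := by rw [hT2]; trivial
    exact this x hx
  -- (iii)
  obtain ⟨d, hdc, hd0, hdn⟩ := length_fn ρ hρ
  have hZtop : ∀ x : N1, x ∈ ZP := by
    by_contra hcon
    have hd1 : ¬ ∀ x : N1, d x ≤ 1 / 4 := by
      intro h
      apply hcon
      intro x
      exact (hd0 x).1 (hdn ⊤ (fun x _ => h x) x trivial)
    push Not at hd1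
    obtain ⟨x1, hx1⟩ := hd1
    let incl : N1 →* N := Subgroup.inclusion hN1N
    have hincl : Continuous incl := by
      apply Continuous.subtype_mk
      exact continuous_subtype_val
    have hinclv : ∀ x, ((incl x : N) : Γ) = x := fun x => rfl
    obtain ⟨O, hO, hOd⟩ := isOpen_induced_iff.1 (isOpen_lt (continuous_const (y := (1 / 4 : ℝ))) hdc)
    have hOd' : ∀ x : N1, (x : Γ) ∈ O ↔ 1 / 4 < d x := by
      intro x
      have : x ∈ (Subtype.val ⁻¹' O : Set N1) ↔ x ∈ {b : N1 | 1 / 4 < d b} := by rw [hOd]
      exact this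
    have hN1'n : (N1.subgroupOf N).Normal := inferInstance
    have hd1z : d 1 = 0 := (hd0 1).2 (fun y => by simp)
    obtain ⟨x, hxA, hxR⟩ := exists_avoid (hLN.subgroup N) (N1.subgroupOf N)
      (A := incl '' {x : N1 | 1 / 4 ≤ d x}) (O := (Subtype.val : N → Γ) ⁻¹' O)
      ((isClosed_le continuous_const hdc).isCompact.image hincl)
      (by rintro _ ⟨y, _, rfl⟩; exact y.2)
      (by
        rintro ⟨y, hy, hy1⟩
        have : y = 1 := by
          apply Subtype.ext
          have := congrArg Subtype.val hy1
          exact this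
        rw [this] at hy
        simp only [Set.mem_ofPred_eq] at hy
        rw [hd1z] at hy
        norm_num at hy)
      ⟨incl x1, x1, hx1.le, rfl⟩ (hO.preimage continuous_subtype_val)
      (by
        intro y hy hyO
        have hy' : (y : Γ) ∈ N1 := hy
        exact ⟨⟨y, hy'⟩, ((hOd' ⟨y, hy'⟩).1 hyO).le, rfl⟩)
    obtain ⟨x', hx', rfl⟩ := hxA
    have hRd : ∀ r : N1, incl r ∈ Rn (incl x') → d r = 0 := by
      apply hdn ((Rn (incl x')).comap incl)
      intro r hr
      by_contra hr2
      push Not at hr2
      exact hxR (incl r) hr ((hOd' r).2 hr2)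
    have h2 : ∀ y ∈ N, ρ (cm x' y) = 1 := by
      apply hii
      intro y hy
      apply (hd0 _).1
      apply hRd
      have : incl (cm x' y) = ⁅incl x', (⟨y, hy⟩ : N)⁆ := by
        apply Subtype.ext
        rw [hinclv, hcm]
        simp [commutatorElement_def, hinclv]
      rw [this]
      exact comm_mem_Rn _ _
    have h3 : d x' = 0 := by
      rw [hd0]
      intro y
      have h4 := h2 y (hN1N y.2)
      have h5 : x' * y = cm x' y * (y * x') := by
        apply Subtype.ext
        simp only [Subgroup.coe_mul, hcm, commutatorElement_def]; group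
      rw [h5, map_mul, h4, one_mul]
    simp only [Set.mem_ofPred_eq] at hx'
    rw [h3] at hx'
    norm_num at hx'
  have hcommρ : ∀ a b, ρ a * ρ b = ρ b * ρ a := fun a b => hZPc a (hZtop a) b
  have hNtriv : ∀ g ∈ N, ∀ x : N1, ρ (MulAut.conjNormal g x) = ρ x := fun g hg x => hi g hg x (hZtop x)
  -- (iv) differences
  have hdlmem : ∀ γ : Γ, ∀ y ∈ N, dl γ y ∈ N1 := by
    intro γ y hy
    have h1 : ⁅y, γ⁆ ∈ N1 := comm_mem_gc hy γ
    have := inv_mem h1
    rwa [commutatorElement_inv] at this
  let δ : Γ → N → N1 := fun γ y => ⟨dl γ (y : Γ), hdlmem γ y y.2⟩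
  have hδc : Continuous (Function.uncurry δ) := by
    apply Continuous.subtype_mk (f := fun p : Γ × N => dl p.1 (p.2 : Γ))
    simp only [dl, commutatorElement_def]
    fun_prop
  have hδmul : ∀ γ y y', ρ (δ γ (y * y')) = ρ (δ γ y) * ρ (δ γ y') := by
    intro γ y y'
    have e1 : δ γ (y * y') = δ γ y * MulAut.conjNormal (y : Γ) (δ γ y') := by
      apply Subtype.ext
      simp only [Subgroup.coe_mul, MulAut.conjNormal_apply, δ]
      simp only [dl, commutatorElement_def]; group
    rw [e1, map_mul, hNtriv _ y.2]
  let C' : Subgroup Γ :=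
    { carrier := {γ | ∀ y, ρ (δ γ y) = 1}
      mul_mem' := by
        intro a b ha hb y
        have e1 : δ (a * b) y = MulAut.conjNormal a (δ b y) * δ a y := by
          apply Subtype.ext
          simp only [Subgroup.coe_mul, MulAut.conjNormal_apply, δ]
          simp only [dl, commutatorElement_def]; group
        rw [e1, map_mul, hinv1 _ (hb y), ha y, one_mul]
      one_mem' := by
        intro y
        have : δ 1 y = 1 := by
          apply Subtype.ext
          simp [δ, dl]
        rw [this, map_one]
      inv_mem' := by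
        intro a ha y
        have e1 : δ a⁻¹ y = MulAut.conjNormal a⁻¹ (δ a y)⁻¹ := by
          apply Subtype.ext
          simp only [Subgroup.coe_inv, MulAut.conjNormal_apply, δ]
          simp only [dl, commutatorElement_def]; group
        rw [e1]
        apply hinv1
        have h1 : ρ ((δ a y)⁻¹) * ρ (δ a y) = 1 := by
          rw [← map_mul, inv_mul_cancel, map_one]
        rw [ha y, mul_one] at h1
        exact h1 }
  have hC'o : IsOpen (C' : Set Γ) := by
    apply Subgroup.isOpen_of_mem_nhds _ (g := 1)
    have h1 := hunif (1 : Γ) (Set.univ : Set N) isCompact_univ (fun g y => ρ (δ g y))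
      (hρ.comp hδc) (by
        intro y _
        have : δ 1 y = 1 := by
          apply Subtype.ext
          simp [δ, dl]
        rw [this, map_one])
    filter_upwards [h1] with g hg y
    let f : N →* C(Γ, B0) :=
      { toFun := fun s => ρ (δ g s)
        map_one' := by
          have : δ g 1 = 1 := by
            apply Subtype.ext
            simp [δ, dl]
          rw [this, map_one]
        map_mul' := fun a b => hδmul g a b }
    exact nss f (fun s => hg s trivial) y
  have hfi : Finite (Γ ⧸ C') := by
    have : DiscreteTopology (Γ ⧸ C') := QuotientGroup.discreteTopology hC'o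
    exact finite_of_compact_of_discrete
  have hpow : ∀ γ : Γ, ∃ m : ℕ, 1 ≤ m ∧ γ ^ m ∈ C' := by
    intro γ
    have hfi' : C'.FiniteIndex := Subgroup.finiteIndex_of_finite_quotient
    obtain ⟨m, hm0, -, hm⟩ := Subgroup.exists_pow_mem_of_index_ne_zero (H := C') hfi'.index_ne_zero γ
    exact ⟨m, hm0, hm⟩
  -- (v) every γ acts trivially
  have hfinal : ∀ γ : Γ, ∀ y : N, ρ (δ γ y) = 1 := by
    intro γ
    obtain ⟨m, hm1, hm⟩ := hpow γ
    have hδconj : ∀ a b : Γ, ∀ y : N, δ (a * b) y = MulAut.conjNormal a (δ b y) * δ a y := by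
      intro a b y
      apply Subtype.ext
      simp only [Subgroup.coe_mul, MulAut.conjNormal_apply, δ]
      simp only [dl, commutatorElement_def]; group
    -- the map on N1
    let E : N1 → N1 := fun a => MulAut.conjNormal γ a * a⁻¹
    have hEv : ∀ a : N1, ((E a : N1) : Γ) = dl γ (a : Γ) := by
      intro a
      simp [E, dl, commutatorElement_def, MulAut.conjNormal_apply]
    have hinvρ : ∀ a b : N1, ρ a = ρ b → ρ a⁻¹ = ρ b⁻¹ := by
      intro a b hab
      have h1 : ρ a⁻¹ * ρ a = 1 := by rw [← map_mul, inv_mul_cancel, map_one]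
      have h2 : ρ b * ρ b⁻¹ = 1 := by rw [← map_mul, mul_inv_cancel, map_one]
      calc ρ a⁻¹ = ρ a⁻¹ * (ρ b * ρ b⁻¹) := by rw [h2, mul_one]
        _ = (ρ a⁻¹ * ρ a) * ρ b⁻¹ := by rw [hab, mul_assoc]
        _ = ρ b⁻¹ := by rw [h1, one_mul]
    have hEcongr : ∀ a b : N1, ρ a = ρ b → ρ (E a) = ρ (E b) := by
      intro a b hab
      simp only [E]
      rw [map_mul, map_mul, hinv a b hab, hinvρ a b hab]
    have hEmul : ∀ a b : N1, ρ (E (a * b)) = ρ (E a) * ρ (E b) := by
      intro a b
      have e1 : E (a * b) = MulAut.conjNormal γ a * (E b * a⁻¹) := by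
        simp only [E, map_mul, mul_inv_rev, mul_assoc]
      rw [e1, map_mul, map_mul, hcommρ (E b) a⁻¹, ← mul_assoc, ← map_mul]
    have hFmem : ∀ k : ℕ, ∀ y : N, (dl γ)^[k + 1] (y : Γ) ∈ N1 := by
      intro k y
      rw [Function.iterate_succ_apply]
      exact dl_iter_mem (hdlmem γ y y.2) γ k
    let F : ℕ → N → N1 := fun k y => ⟨(dl γ)^[k + 1] (y : Γ), hFmem k y⟩
    have hF0 : ∀ y, F 0 y = δ γ y := fun y => rfl
    have hFs : ∀ k y, F (k + 1) y = E (F k y) := by
      intro k y
      apply Subtype.ext
      rw [hEv]
      change (dl γ)^[k + 1 + 1] (y : Γ) = dl γ ((dl γ)^[k + 1] (y : Γ))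
      rw [Function.iterate_succ_apply']
    have hFmul : ∀ k y y', ρ (F k (y * y')) = ρ (F k y) * ρ (F k y') := by
      intro k
      induction k with
      | zero => intro y y'; exact hδmul γ y y'
      | succ k ih =>
        intro y y'
        rw [hFs, hFs, hFs, ← hEmul]
        apply hEcongr
        rw [ih, map_mul]
    have hFc : ∀ k, Continuous (fun y => ρ (F k y)) := by
      intro k
      apply hρ.comp
      induction k with
      | zero => exact hδc.comp (by fun_prop : Continuous (fun y : N => (γ, y)))
      | succ k ih =>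
        have hEc : Continuous E := by
          have h1 : Continuous (fun a : N1 => (MulAut.conjNormal γ a : N1)) :=
            hconj.comp (by fun_prop : Continuous (fun y : N1 => (γ, y)))
          exact h1.mul continuous_inv
        have h2 : Continuous (fun y => E (F k y)) := hEc.comp ih
        exact h2.congr (fun y => (hFs k y).symm)
    have hF1 : ∀ k, ρ (F k 1) = 1 := by
      intro k
      have : F k 1 = 1 := by
        apply Subtype.ext
        exact dl_iter_one γ (k + 1)
      rw [this, map_one]
    let f : ℕ → (N →* C(Γ, B0)) := fun k =>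
      { toFun := fun y => ρ (F k y)
        map_one' := hF1 k
        map_mul' := hFmul k }
    have hfa : ∀ k y, f k y = ρ (F k y) := fun k y => rfl
    have hex : ∃ k, ∀ y, ρ (F k y) = 1 := by
      have hcl : ∀ k, IsClosed ((f k).ker : Set N) := by
        intro k
        have : ((f k).ker : Set N) = (fun y => ρ (F k y)) ⁻¹' {1} := by
          ext x; simp [MonoidHom.mem_ker, hfa]
        rw [this]
        exact isClosed_singleton.preimage (hFc k)
      have hun : (⋃ k, ((f k).ker : Set N)) = Set.univ := by
        apply Set.eq_univ_of_forall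
        intro y
        obtain ⟨n, hn⟩ := exists_dl_iter_eq_one hLN γ (y : Γ)
        refine Set.mem_iUnion.2 ⟨n, ?_⟩
        change f n y = 1
        rw [hfa]
        have : F n y = 1 := by
          apply Subtype.ext
          change (dl γ)^[n + 1] (y : Γ) = 1
          rw [Function.iterate_succ_apply', hn, dl_one]
        rw [this, map_one]
      obtain ⟨k, hk⟩ := nonempty_interior_of_iUnion_of_closed hcl hun
      obtain ⟨g, hg⟩ := hk
      refine ⟨k, fun y => ?_⟩
      have ho : IsOpen ((f k).ker : Set N) :=
        Subgroup.isOpen_of_mem_nhds _ (mem_interior_iff_mem_nhds.1 hg)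
      have : y ∈ (f k).ker := by rw [hNO _ ho]; trivial
      exact this
    have hmin : ∀ k, (∀ y, ρ (F k y) = 1) → ∀ y, ρ (F 0 y) = 1 := by
      intro k
      induction k with
      | zero => exact fun h => h
      | succ k ih =>
        intro h
        apply ih
        have hpw : ∀ y, (f k y) ^ m = 1 := by
          intro y
          rw [hfa]
          have hu : (dl γ)^[k] (y : Γ) ∈ N := dl_iter_mem y.2 γ k
          let u : N := ⟨(dl γ)^[k] (y : Γ), hu⟩
          have hv : F k y = δ γ u := by
            apply Subtype.ext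
            change (dl γ)^[k + 1] (y : Γ) = dl γ ((dl γ)^[k] (y : Γ))
            rw [Function.iterate_succ_apply']
          have hv1 : ρ (MulAut.conjNormal γ (F k y)) = ρ (F k y) := by
            have h1 := h y
            rw [hFs] at h1
            have h2 : MulAut.conjNormal γ (F k y) = E (F k y) * F k y := by
              simp only [E]; group
            rw [h2, map_mul, h1, one_mul]
          have hj : ∀ j : ℕ, ρ (δ (γ ^ j) u) = ρ (F k y) ^ j := by
            intro j
            induction j with
            | zero =>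
              have : δ (γ ^ 0) u = 1 := by
                apply Subtype.ext
                simp [δ, dl]
              rw [this, map_one, pow_zero]
            | succ j ihj =>
              rw [pow_succ' γ j, hδconj, map_mul]
              have h3 : ρ (MulAut.conjNormal γ (δ (γ ^ j) u)) = ρ (F k y) ^ j := by
                have h4 := hinv (δ (γ ^ j) u) ((F k y) ^ j) (by rw [ihj, map_pow]) γ
                rw [h4, map_pow, map_pow, hv1]
              rw [h3, ← hv, pow_succ]
          rw [← hj m]
          exact hm u
        intro y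
        exact hNO.trivial_of_pow (f k) (hFc k) m hm1 hpw y
    obtain ⟨k, hk⟩ := hex
    intro y
    rw [← hF0]
    exact hmin k hk y
  -- conclusion
  apply hρx0
  have hle : gc N ≤ ρ.ker.map N1.subtype := by
    apply gc_le
    · rw [Subgroup.coe_map]
      apply hN1cl.isClosedEmbedding_subtypeVal.isClosedMap
      have : ((ρ.ker : Subgroup N1) : Set N1) = ρ ⁻¹' {1} := by
        ext x; simp [MonoidHom.mem_ker]
      rw [this]
      exact isClosed_singleton.preimage hρ
    · intro y hy g
      have h1 := hfinal g ⟨y, hy⟩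
      refine ⟨(δ g ⟨y, hy⟩)⁻¹, ?_, ?_⟩
      · exact inv_mem (show δ g ⟨y, hy⟩ ∈ ρ.ker from h1)
      · simp [δ, dl]
  obtain ⟨z, hz1, hz2⟩ := hle x0.2
  have : z = x0 := Subtype.ext hz2
  rw [← this]; exact hz1

end Pool.Agent.Helper944.LN
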