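import Pool.Agent.Helper944.LN.Word

set_option autoImplicit false
set_option linter.unusedVariables false
set_option linter.unusedSectionVars false

namespace Pool.Agent.Helper944.LN

open Subgroup Topology
open scoped commutatorElement

/-- topologically perfect nontrivial groups satisfying the hypothesis (H). -/
structure Perf (G : Type*) [Group G] [TopologicalSpace G] [IsTopologicalGroup G] : Prop where
  ln : LocNil G
  H : ∀ N : Subgroup G, N.Normal → IsClosed (N : Set G) → N ≠ ⊤ → IsCompact (N : Set G)
  perf : (commutator G).topologicalClosure = ⊤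
  nontriv : Nontrivial G

lemma LocNil.quotient {G : Type*} [Group G] (h : LocNil G) (C : Subgroup G) [C.Normal] :
    LocNil (G ⧸ C) := by
  classical
  intro s
  let t : Finset G := s.image Quotient.out
  have h1 : Subgroup.closure (s : Set (G ⧸ C)) =
      (Subgroup.closure (t : Set G)).map (QuotientGroup.mk' C) := by
    rw [MonoidHom.map_closure]
    congr 1
    ext q
    simp only [t, Finset.coe_image, Set.mem_image, Finset.mem_coe, exists_exists_and_eq_and,
      QuotientGroup.coe_mk']
    constructor
    · intro hq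
      exact ⟨q, hq, QuotientGroup.out_eq' q⟩
    · rintro ⟨a, ha, rfl⟩
      have : ((Quotient.out a : G) : G ⧸ C) = a := QuotientGroup.out_eq' a
      rwa [this]
  rw [h1, Subgroup.isNilpotent_iff_lowerCentralSeries]
  obtain ⟨n, hn⟩ := (Subgroup.isNilpotent_iff_lowerCentralSeries _).1 (h t)
  exact ⟨n, by rw [← Subgroup.map_lowerCentralSeries, hn, Subgroup.map_bot]⟩

variable {G : Type*} [Group G] [TopologicalSpace G] [IsTopologicalGroup G]

lemma Perf.quotient (hG : Perf G) (C : Subgroup G) [C.Normal] (hC : C ≠ ⊤) : Perf (G ⧸ C) where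
  ln := hG.ln.quotient C
  H := by
    intro N hN hNc hNt
    have h1 : IsCompact ((N.comap (QuotientGroup.mk' C) : Subgroup G) : Set G) := by
      apply hG.H
      · exact hN.comap _
      · exact hNc.preimage QuotientGroup.continuous_mk
      · intro h
        apply hNt
        rw [eq_top_iff]
        intro q _
        obtain ⟨g, rfl⟩ := QuotientGroup.mk'_surjective C q
        have : g ∈ N.comap (QuotientGroup.mk' C) := by rw [h]; trivial
        exact this
    have h2 := h1.image (f := (QuotientGroup.mk' C)) QuotientGroup.continuous_mk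
    have h3 : (QuotientGroup.mk' C) '' ((N.comap (QuotientGroup.mk' C) : Subgroup G) : Set G)
        = (N : Set (G ⧸ C)) := by
      rw [Subgroup.coe_comap]
      exact Set.image_preimage_eq _ (QuotientGroup.mk'_surjective C)
    rwa [h3] at h2
  perf := by
    rw [eq_top_iff]
    intro q _
    obtain ⟨g, rfl⟩ := QuotientGroup.mk'_surjective C q
    have hg : g ∈ (commutator G).topologicalClosure := by rw [hG.perf]; trivial
    have hg' : g ∈ _root_.closure ((commutator G : Subgroup G) : Set G) := hg
    have h1 : QuotientGroup.mk' C g ∈ _root_.closure ((commutator (G ⧸ C) : Subgroup (G ⧸ C)) : Set (G ⧸ C)) := by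
      refine map_mem_closure (f := QuotientGroup.mk' C) QuotientGroup.continuous_mk hg' ?_
      intro x hx
      have : (commutator G).map (QuotientGroup.mk' C) ≤ commutator (G ⧸ C) := by
        rw [commutator_def, commutator_def, Subgroup.map_commutator]
        exact Subgroup.commutator_mono le_top le_top
      exact this ⟨x, hx, rfl⟩
    exact h1
  nontriv := by
    rw [QuotientGroup.nontrivial_iff]
    exact hC

omit [IsTopologicalGroup G] in
lemma continuous_comm [ContinuousMul G] [ContinuousInv G] (x : G) : Continuous (fun g : G => ⁅x, g⁆) := by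
  simp only [commutatorElement_def]; fun_prop

omit [IsTopologicalGroup G] in
lemma continuous_comm' [ContinuousMul G] [ContinuousInv G] (x : G) : Continuous (fun g : G => ⁅g, x⁆) := by
  simp only [commutatorElement_def]; fun_prop

/-- Grün's lemma for topologically perfect groups. -/
theorem grun (hp : (commutator G).topologicalClosure = ⊤) (K : Subgroup G) [hKn : K.Normal]
    (hK : IsClosed (K : Set G)) (x : G) (h : ∀ g k : G, ⁅⁅x, g⁆, k⁆ ∈ K) : ∀ g, ⁅x, g⁆ ∈ K := by
  have hc : ∀ g k : G, Commute ((⁅x, g⁆ : G) : G ⧸ K) (k : G ⧸ K) := by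
    intro g k
    have := h g k
    rw [← QuotientGroup.eq_one_iff] at this
    rw [← commutatorElement_eq_one_iff_commute]
    rw [← this]
    simp [commutatorElement_def]
  let f : G →* (G ⧸ K) :=
    { toFun := fun g => ((⁅x, g⁆ : G) : G ⧸ K)
      map_one' := by simp
      map_mul' := by
        intro a b
        have h1 : (⁅x, a * b⁆ : G) = ⁅x, a⁆ * (a * ⁅x, b⁆ * a⁻¹) := by
          simp only [commutatorElement_def]; group
        rw [h1]
        have h2 := (hc b a).eq
        rw [QuotientGroup.mk_mul, QuotientGroup.mk_mul, QuotientGroup.mk_mul, ← h2]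
        simp [mul_assoc] }
  have hker : commutator G ≤ f.ker := by
    rw [commutator_def, Subgroup.commutator_le]
    intro a _ b _
    rw [MonoidHom.mem_ker, map_commutatorElement, commutatorElement_eq_one_iff_commute]
    exact hc a _
  have hcl : IsClosed ((f.ker : Subgroup G) : Set G) := by
    have : ((f.ker : Subgroup G) : Set G) = (fun g : G => ⁅x, g⁆) ⁻¹' (K : Set G) := by
      ext g
      simp only [SetLike.mem_coe, MonoidHom.mem_ker, Set.mem_preimage]
      exact QuotientGroup.eq_one_iff _
    rw [this]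
    exact hK.preimage (continuous_comm x)
  have htop : f.ker = ⊤ := by
    rw [eq_top_iff, ← hp]
    exact Subgroup.topologicalClosure_minimal _ hker hcl
  intro g
  have : g ∈ f.ker := by rw [htop]; trivial
  rw [MonoidHom.mem_ker] at this
  exact (QuotientGroup.eq_one_iff _).1 this

lemma isClosed_center' [T2Space G] : IsClosed ((Subgroup.center G : Subgroup G) : Set G) := by
  have : ((Subgroup.center G : Subgroup G) : Set G) = ⋂ g : G, {x | g * x = x * g} := by
    ext x
    simp [Subgroup.mem_center_iff]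
  rw [this]
  exact isClosed_iInter fun g => isClosed_eq (by fun_prop) (by fun_prop)

lemma mem_center_iff_comm {x : G} : x ∈ Subgroup.center G ↔ ∀ g : G, ⁅x, g⁆ = 1 := by
  rw [Subgroup.mem_center_iff]
  refine forall_congr' fun g => ?_
  rw [commutatorElement_eq_one_iff_mul_comm]
  exact eq_comm

/-- A noncentral closed normal subgroup contains a smaller one. -/
theorem no_minimal [LocallyCompactSpace G] [T2Space G] (hG : Perf G) (N : Subgroup G)
    [hN : N.Normal] (hNc : IsClosed (N : Set G)) (hnc : ¬ N ≤ Subgroup.center G)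
    (hmin : ∀ R : Subgroup G, R.Normal → IsClosed (R : Set G) → R ≤ N → R ≠ N →
      R ≤ Subgroup.center G) : False := by
  obtain ⟨x0, hx0, hx0c⟩ := Set.not_subset.1 hnc
  obtain ⟨K, hKc, hKx, hKU⟩ := exists_compact_subset (isClosed_center' (G := G)).isOpen_compl hx0c
  obtain ⟨x, hxA, hx⟩ := exists_avoid hG.ln N (A := K ∩ N) (O := interior K)
    (hKc.inter_right hNc) Set.inter_subset_right
    (fun h => hKU h.1 (one_mem _)) ⟨x0, interior_subset hKx, hx0⟩ isOpen_interior
    (fun y hy hyO => ⟨interior_subset hyO, hy⟩)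
  let R := (Rn x).topologicalClosure
  have hRn : R.Normal := Subgroup.is_normal_topologicalClosure _
  have hRc : IsClosed (R : Set G) := Subgroup.isClosed_topologicalClosure _
  have hRN : R ≤ N := Subgroup.topologicalClosure_minimal _ (Rn_le_of_mem hxA.2) hNc
  have hne : R ≠ N := by
    intro h
    have h1 : x0 ∈ R := by rw [h]; exact hx0
    have h2 : x0 ∈ _root_.closure ((Rn x : Subgroup G) : Set G) := h1
    rw [mem_closure_iff] at h2
    obtain ⟨r, hr1, hr2⟩ := h2 _ isOpen_interior hKx
    exact hx r hr2 hr1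
  have hRz := hmin R hRn hRc hRN hne
  have h3 : ∀ g, ⁅x, g⁆ ∈ (⊥ : Subgroup G) := by
    apply grun hG.perf ⊥
    · simp
    · intro g k
      rw [Subgroup.mem_bot]
      have : ⁅x, g⁆ ∈ Subgroup.center G := hRz (Subgroup.le_topologicalClosure _ (comm_mem_Rn x g))
      exact (mem_center_iff_comm.1 this) k
  exact hKU hxA.1 (mem_center_iff_comm.2 (fun g => Subgroup.mem_bot.1 (h3 g)))

lemma Perf.not_center_top [T2Space G] (hG : Perf G) : ¬ (⊤ : Subgroup G) ≤ Subgroup.center G := by
  intro h
  have h1 : commutator G = ⊥ := by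
    rw [commutator_def, Subgroup.commutator_eq_bot_iff_le_centralizer]
    intro x hx
    have := h hx
    rw [Subgroup.mem_centralizer_iff]
    intro y _
    exact (Subgroup.mem_center_iff.1 this) y
  have h2 := hG.perf
  rw [h1] at h2
  have h3 : (⊥ : Subgroup G).topologicalClosure = ⊥ := by
    apply le_antisymm _ bot_le
    exact Subgroup.topologicalClosure_minimal _ le_rfl (by simp)
  rw [h3] at h2
  have := hG.nontriv
  exact bot_ne_top h2

/-- There is a proper noncentral closed normal subgroup. -/
theorem exists_proper [LocallyCompactSpace G] [T2Space G] (hG : Perf G) :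
    ∃ N : Subgroup G, N.Normal ∧ IsClosed (N : Set G) ∧ N ≠ ⊤ ∧ ¬ N ≤ Subgroup.center G := by
  by_contra hcon
  push Not at hcon
  exact no_minimal hG ⊤ isClosed_univ hG.not_center_top
    (fun R h1 h2 _ h3 => hcon R h1 h2 h3)

/-- Thin noncentral closed normal subgroups exist. -/
theorem exists_thin [LocallyCompactSpace G] [T2Space G] (hG : Perf G) {U : Set G} (hU : IsOpen U)
    (h1U : (1 : G) ∈ U) :
    ∃ N : Subgroup G, N.Normal ∧ IsClosed (N : Set G) ∧ N ≠ ⊤ ∧ ¬ N ≤ Subgroup.center G ∧
      ∀ n ∈ N, ∃ z ∈ Subgroup.center G, z⁻¹ * n ∈ U := by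
  by_contra hcon
  push Not at hcon
  let W : Set G := ⋃ z ∈ (Subgroup.center G : Set G), (fun n => z⁻¹ * n) ⁻¹' U
  have hW : IsOpen W := isOpen_biUnion fun z _ => hU.preimage (by fun_prop)
  have hWc : ∀ n, n ∉ W → n ∉ Subgroup.center G := by
    intro n hn hz
    apply hn
    simp only [W, Set.mem_iUnion, Set.mem_preimage]
    exact ⟨n, hz, by simpa using h1U⟩
  let S : Set (Set G) := {s | ∃ N : Subgroup G, (N : Set G) = s ∧ N.Normal ∧ IsClosed (N : Set G) ∧
    N ≠ ⊤ ∧ ¬ N ≤ Subgroup.center G}
  have hSW : ∀ s ∈ S, (s ∩ Wᶜ).Nonempty := by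
    rintro s ⟨N, rfl, h1, h2, h3, h4⟩
    obtain ⟨n, hn, hn'⟩ := hcon N h1 h2 h3 h4
    refine ⟨n, hn, ?_⟩
    simp only [W, Set.mem_compl_iff, Set.mem_iUnion, not_exists, Set.mem_preimage]
    intro z hz
    exact hn' z hz
  obtain ⟨N0, hN0⟩ := exists_proper hG
  obtain ⟨m, -, hm⟩ := zorn_superset_nonempty S (by
    intro c hc hchain hcne
    obtain ⟨s0, hs0⟩ := hcne
    choose! F hF using fun s (hs : s ∈ c) => hc hs
    let N : Subgroup G := ⨅ s : c, F s
    have hNs : ∀ s ∈ c, (N : Set G) ⊆ s := by
      intro s hs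
      rw [← (hF s hs).1]
      exact SetLike.coe_subset_coe.2 (iInf_le (fun s : c => F s) ⟨s, hs⟩)
    have hNle : N ≤ F s0 := iInf_le (fun s : c => F s) ⟨s0, hs0⟩
    have hNcl : IsClosed (N : Set G) := by
      rw [Subgroup.coe_iInf]
      exact isClosed_iInter fun s => (hF s s.2).2.2.1
    have hne : ((⋂ s : c, ((s : Set G) ∩ Wᶜ))).Nonempty := by
      have : Nonempty c := ⟨⟨s0, hs0⟩⟩
      apply IsCompact.nonempty_iInter_of_directed_nonempty_isCompact_isClosed
      · rintro ⟨s, hs⟩ ⟨t, ht⟩
        rcases hchain.total hs ht with h | h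
        · exact ⟨⟨s, hs⟩, subset_rfl, Set.inter_subset_inter_left _ h⟩
        · exact ⟨⟨t, ht⟩, Set.inter_subset_inter_left _ h, subset_rfl⟩
      · intro s
        exact hSW s (hc s.2)
      · intro s
        have h1 := hF s s.2
        have h2 : IsCompact (s : Set G) := by
          rw [← h1.1]
          exact hG.H _ h1.2.1 h1.2.2.1 h1.2.2.2.1
        exact h2.inter_right hW.isClosed_compl
      · intro s
        have h1 := hF s s.2
        have h2 : IsClosed (s : Set G) := by
          rw [← h1.1]
          exact h1.2.2.1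
        exact h2.inter hW.isClosed_compl
    obtain ⟨n, hn⟩ := hne
    rw [Set.mem_iInter] at hn
    have hnN : n ∈ N := by
      rw [Subgroup.mem_iInf]
      intro s
      have := (hn s).1
      rw [← (hF s s.2).1] at this
      exact this
    refine ⟨N, ⟨N, rfl, ?_, hNcl, ?_, ?_⟩, hNs⟩
    · exact Subgroup.normal_iInf_normal fun s => (hF s s.2).2.1
    · intro h
      rw [h] at hNle
      exact (hF s0 hs0).2.2.2.1 (top_le_iff.1 hNle)
    · intro h
      exact hWc n (hn ⟨s0, hs0⟩).2 (h hnN)) (N0 : Set G)
    ⟨N0, rfl, hN0.1, hN0.2.1, hN0.2.2.1, hN0.2.2.2⟩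
  obtain ⟨N, hNm, h1, h2, h3, h4⟩ := hm.prop
  refine no_minimal hG N h2 h4 ?_
  intro R hR1 hR2 hRN hRne
  by_contra hRc
  have hRt : R ≠ ⊤ := by
    intro h
    rw [h, top_le_iff] at hRN
    exact h3 hRN
  have : (R : Set G) ∈ S := ⟨R, rfl, hR1, hR2, hRt, hRc⟩
  have h5 : m ⊆ (R : Set G) := hm.le_of_le this (by rw [← hNm]; exact hRN)
  rw [← hNm] at h5
  exact hRne (le_antisymm hRN h5)

end Pool.Agent.Helper944.LN
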