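import Pool.Agent.Helper944.LN.Perf

set_option autoImplicit false
set_option linter.unusedVariables false
set_option linter.unusedSectionVars false

namespace Pool.Agent.Helper944.LN

open Subgroup Topology
open scoped commutatorElement

section alg

variable {G : Type*} [Group G]

/-- the difference operator. -/
def dl (u : G) (y : G) : G := ⁅u, y⁆

lemma dl_mem {N : Subgroup G} [hN : N.Normal] {y : G} (hy : y ∈ N) (u : G) : dl u y ∈ N := by
  have := mul_mem (hN.conj_mem _ hy u) (inv_mem hy)
  simpa [dl, commutatorElement_def, mul_assoc] using this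

lemma dl_iter_mem {N : Subgroup G} [hN : N.Normal] {y : G} (hy : y ∈ N) (u : G) (n : ℕ) :
    (dl u)^[n] y ∈ N := by
  induction n with
  | zero => exact hy
  | succ n ih => rw [Function.iterate_succ_apply']; exact dl_mem ih u

lemma dl_mul {N : Subgroup G} [hN : N.Normal] (hc : ∀ a ∈ N, ∀ b ∈ N, a * b = b * a) {a b : G}
    (ha : a ∈ N) (hb : b ∈ N) (u : G) : dl u (a * b) = dl u a * dl u b := by
  have h1 : dl u (a * b) = dl u a * (a * dl u b * a⁻¹) := by
    simp only [dl, commutatorElement_def]; group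
  rw [h1, hc a ha _ (dl_mem hb u)]
  group

lemma dl_iter_mul {N : Subgroup G} [hN : N.Normal] (hc : ∀ a ∈ N, ∀ b ∈ N, a * b = b * a) {a b : G}
    (ha : a ∈ N) (hb : b ∈ N) (u : G) (n : ℕ) :
    (dl u)^[n] (a * b) = (dl u)^[n] a * (dl u)^[n] b := by
  induction n with
  | zero => rfl
  | succ n ih =>
    rw [Function.iterate_succ_apply', ih, dl_mul hc (dl_iter_mem ha u n) (dl_iter_mem hb u n),
      Function.iterate_succ_apply', Function.iterate_succ_apply']

lemma dl_one (u : G) : dl u 1 = 1 := by simp [dl]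

lemma dl_iter_one (u : G) (n : ℕ) : (dl u)^[n] 1 = 1 := by
  induction n with
  | zero => rfl
  | succ n ih => rw [Function.iterate_succ_apply', ih, dl_one]

lemma dl_iter_inv {N : Subgroup G} [hN : N.Normal] (hc : ∀ a ∈ N, ∀ b ∈ N, a * b = b * a) {a : G}
    (ha : a ∈ N) (u : G) (n : ℕ) :
    (dl u)^[n] (a⁻¹) = ((dl u)^[n] a)⁻¹ := by
  have := dl_iter_mul hc ha (inv_mem ha) u n
  rw [mul_inv_cancel, dl_iter_one] at this
  exact (inv_eq_of_mul_eq_one_right this.symm).symm

lemma dl_iter_conj (u : G) (y : G) (n : ℕ) : (dl u)^[n] (u * y * u⁻¹) = u * (dl u)^[n] y * u⁻¹ := by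
  induction n with
  | zero => rfl
  | succ n ih =>
    rw [Function.iterate_succ_apply', ih, Function.iterate_succ_apply']
    simp only [dl, commutatorElement_def]; group

/-- if `v` and `w` act in the same way on `N`, the iterated differences agree. -/
lemma dl_iter_congr {N : Subgroup G} [hN : N.Normal] {v w : G}
    (h : ∀ y ∈ N, v * y * v⁻¹ = w * y * w⁻¹) {y : G} (hy : y ∈ N) (n : ℕ) :
    (dl v)^[n] y = (dl w)^[n] y := by
  induction n with
  | zero => rfl
  | succ n ih =>
    rw [Function.iterate_succ_apply', Function.iterate_succ_apply', ih]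
    have := h _ (dl_iter_mem hy w n)
    simp only [dl, commutatorElement_def] at this ⊢
    rw [this]

lemma step_alg {N C0 : Subgroup G} [hN : N.Normal] [hC0 : C0.Normal]
    (hc : ∀ a ∈ N, ∀ b ∈ N, a * b = b * a) (hCN : C0 ≤ N) {x : G} (hx : x ∈ N)
    (hxC : ∀ g : G, dl g x ∈ C0) {u b z u' : G}
    (hub : ∀ y ∈ N, (u * b) * y * (u * b)⁻¹ = (z * u') * y * (z * u')⁻¹)
    (hzu : ∀ y ∈ N, (u' * z) * y * (u' * z)⁻¹ = (z * u') * y * (z * u')⁻¹)
    (hbC : ∀ c ∈ C0, b * c * b⁻¹ = c) (hzC : ∀ c ∈ C0, z * c * z⁻¹ = c) (e : ℕ)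
    (h1 : ∀ y ∈ N, (dl u)^[e + 2] y = 1) (h2 : ∀ y ∈ N, (dl u')^[e + 2] y = 1) :
    (dl u)^[e + 1] (dl b x) = 1 := by
  have hcC : ∀ a ∈ C0, ∀ b ∈ C0, a * b = b * a := fun a ha b hb => hc a (hCN ha) b (hCN hb)
  -- `z u'` kills `x` after `e+2` steps
  have h3 : (dl (z * u'))^[e + 2] x = 1 := by
    have e1 : dl (z * u') x = dl u' x * dl z x := by
      have : dl (z * u') x = (z * dl u' x * z⁻¹) * dl z x := by
        simp only [dl, commutatorElement_def]; group
      rw [this, hzC _ (hxC u')]
    have e2 : ∀ c ∈ C0, ∀ n, (dl (z * u'))^[n] c = (dl u')^[n] c := by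
      intro c hcc n
      apply dl_iter_congr (N := C0) _ hcc
      intro y hy
      have : z * (u' * y * u'⁻¹) * z⁻¹ = u' * y * u'⁻¹ := hzC _ (hC0.conj_mem _ hy u')
      rw [← this]; group
    have e3 : dl u' (dl z x) = 1 := by
      have a1 : u' * dl z x * u'⁻¹ = dl z x := by
        have b1 : (u' * z) * x * (u' * z)⁻¹ = (z * u') * x * (z * u')⁻¹ := hzu x hx
        have b2 : u' * dl z x * u'⁻¹ = ((u' * z) * x * (u' * z)⁻¹) * (u' * x * u'⁻¹)⁻¹ := by
          simp only [dl, commutatorElement_def]; group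
        have b3 : u' * x * u'⁻¹ = dl u' x * x := by
          simp only [dl, commutatorElement_def]; group
        rw [b2, b1]
        have b4 : (z * u') * x * (z * u')⁻¹ = z * (u' * x * u'⁻¹) * z⁻¹ := by group
        rw [b4, b3]
        have b5 : z * (dl u' x * x) * z⁻¹ * (dl u' x * x)⁻¹ =
            (z * dl u' x * z⁻¹) * dl z x * (dl u' x)⁻¹ := by
          simp only [dl, commutatorElement_def]; group
        rw [b5, hzC _ (hxC u'), hc _ (hCN (hxC u')) _ (hCN (hxC z))]
        group
      have : dl u' (dl z x) = (u' * dl z x * u'⁻¹) * (dl z x)⁻¹ := by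
        simp only [dl, commutatorElement_def]
      rw [this, a1]; group
    rw [Function.iterate_succ_apply, e1, e2 _ (mul_mem (hxC u') (hxC z)),
      dl_iter_mul hcC (hxC u') (hxC z), Function.iterate_succ_apply (dl u') e (dl z x), e3,
      dl_iter_one, mul_one]
    have := h2 x hx
    rwa [Function.iterate_succ_apply] at this
  have h4 : (dl (u * b))^[e + 2] x = 1 := by
    rw [dl_iter_congr (N := N) hub hx]; exact h3
  have e1 : dl (u * b) x = dl u x * (u * dl b x * u⁻¹) := by
    have a1 : dl (u * b) x = (u * dl b x * u⁻¹) * dl u x := by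
      simp only [dl, commutatorElement_def]; group
    rw [a1]
    exact hc _ (hN.conj_mem _ (hCN (hxC b)) u) _ (hCN (hxC u))
  have e2 : ∀ c ∈ C0, ∀ n, (dl (u * b))^[n] c = (dl u)^[n] c := by
    intro c hcc n
    apply dl_iter_congr (N := C0) _ hcc
    intro y hy
    have : b * y * b⁻¹ = y := hbC _ hy
    calc u * b * y * (u * b)⁻¹ = u * (b * y * b⁻¹) * u⁻¹ := by group
      _ = u * y * u⁻¹ := by rw [this]
  have hm : u * dl b x * u⁻¹ ∈ C0 := hC0.conj_mem _ (hxC b) u
  rw [Function.iterate_succ_apply, e1, e2 _ (mul_mem (hxC u) hm), dl_iter_mul hcC (hxC u) hm] at h4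
  have h5 : (dl u)^[e + 1] (dl u x) = 1 := by
    have := h1 x hx
    rwa [Function.iterate_succ_apply] at this
  rw [h5, one_mul, dl_iter_conj] at h4
  have h6 : (dl u)^[e + 1] (dl b x) = 1 := by
    have := congrArg (fun t => u⁻¹ * t * u) h4
    simpa [mul_assoc] using this
  exact h6

lemma exists_dl_iter_eq_one (hLN : LocNil G) (g x : G) : ∃ n, (dl g)^[n] x = 1 := by
  classical
  let F : Subgroup G := Subgroup.closure (({g, x} : Finset G) : Set G)
  obtain ⟨n, hn⟩ := (Subgroup.isNilpotent_iff_lowerCentralSeries F).1 (hLN {g, x})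
  have hg : g ∈ F := Subgroup.subset_closure (by simp)
  have hx : x ∈ F := Subgroup.subset_closure (by simp)
  have h : ∀ k, (dl g)^[k] x ∈ F.lowerCentralSeries k := by
    intro k
    induction k with
    | zero => exact hx
    | succ k ih =>
      rw [Function.iterate_succ_apply', Subgroup.lowerCentralSeries_succ, Subgroup.commutator_comm]
      exact Subgroup.commutator_mem_commutator hg ih
  refine ⟨n, ?_⟩
  have := h n
  rwa [hn, Subgroup.mem_bot] at this

end alg

section top

variable {G : Type*} [Group G] [TopologicalSpace G] [IsTopologicalGroup G]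

lemma continuous_dl (u : G) : Continuous (dl u) := by
  unfold dl; simp only [commutatorElement_def]; fun_prop

lemma continuous_dl_iter_right (u : G) (n : ℕ) : Continuous (fun y => (dl u)^[n] y) :=
  (continuous_dl u).iterate n

lemma continuous_dl_iter_left (y : G) (n : ℕ) : Continuous (fun u => (dl u)^[n] y) := by
  induction n with
  | zero => exact continuous_const
  | succ n ih =>
    simp only [Function.iterate_succ_apply']
    simp only [dl, commutatorElement_def] at ih ⊢
    fun_prop

lemma isOpen_forall {K V : Set G} (hK : IsCompact K) (hV : IsOpen V) {f : G → G → G}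
    (hf : Continuous (Function.uncurry f)) : IsOpen {x | ∀ b ∈ K, f x b ∈ V} := by
  rw [isOpen_iff_mem_nhds]
  intro x hx
  exact hK.eventually_forall_of_forall_eventually (P := fun x b => f x b ∈ V)
    (fun b hb => (hV.preimage hf).mem_nhds (hx b hb))

/-- closedness of centralizers. -/
lemma isClosed_centralizer' [T2Space G] (S : Set G) :
    IsClosed ((Subgroup.centralizer S : Subgroup G) : Set G) := by
  have : ((Subgroup.centralizer S : Subgroup G) : Set G) = ⋂ s ∈ S, {x | s * x = x * s} := by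
    ext x
    simp [Subgroup.mem_centralizer_iff]
  rw [this]
  exact isClosed_biInter fun g _ => isClosed_eq (by fun_prop) (by fun_prop)

/-- the closed subgroup generated by commutators of `N` with `G`. -/
def gc (N : Subgroup G) : Subgroup G := (⁅N, (⊤ : Subgroup G)⁆).topologicalClosure

instance (N : Subgroup G) [N.Normal] : (gc N).Normal := Subgroup.is_normal_topologicalClosure _

lemma isClosed_gc (N : Subgroup G) : IsClosed (gc N : Set G) := Subgroup.isClosed_topologicalClosure _

lemma comm_mem_gc {N : Subgroup G} {x : G} (hx : x ∈ N) (g : G) : ⁅x, g⁆ ∈ gc N :=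
  Subgroup.le_topologicalClosure _ (Subgroup.commutator_mem_commutator hx trivial)

lemma gc_le {N K : Subgroup G} (hK : IsClosed (K : Set G)) (h : ∀ x ∈ N, ∀ g, ⁅x, g⁆ ∈ K) :
    gc N ≤ K :=
  Subgroup.topologicalClosure_minimal _ (Subgroup.commutator_le.2 fun x hx g _ => h x hx g) hK

lemma gc_le_self {N : Subgroup G} [hN : N.Normal] (hNc : IsClosed (N : Set G)) : gc N ≤ N := by
  apply gc_le hNc
  intro x hx g
  have := mul_mem hx (hN.conj_mem _ (inv_mem hx) g)
  simpa [commutatorElement_def, mul_assoc] using this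

lemma gc_gc (hp : (commutator G).topologicalClosure = ⊤) (N : Subgroup G) [hN : N.Normal] :
    gc (gc N) = gc N := by
  apply le_antisymm (gc_le_self (isClosed_gc N))
  apply gc_le (isClosed_gc _)
  intro x hx
  apply grun hp _ (isClosed_gc _)
  intro g k
  exact comm_mem_gc (comm_mem_gc hx g) k

/-- The descent. -/
theorem descent [LocallyCompactSpace G] [T2Space G] (hG : Perf G) (V : Subgroup G)
    (hVo : IsOpen (V : Set G)) (hcore : ∀ K : Subgroup G, K.Normal → K ≤ V → K = ⊥)
    (hop : ∀ K : Subgroup G, K.Normal → IsOpen (K : Set G) → K = ⊤) :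
    ∀ e : ℕ, ∀ N : Subgroup G, N.Normal → IsClosed (N : Set G) → N ≠ ⊤ →
      (∀ a ∈ N, ∀ b ∈ N, a * b = b * a) → ∀ Ω : Set G, IsOpen Ω → Ω.Nonempty →
      (∀ u ∈ Ω, ∀ x ∈ N, (dl u)^[e + 1] x = 1) → N ≤ Subgroup.center G := by
  intro e
  induction e with
  | zero =>
    intro N hN hNc hNt hcomm Ω hΩ hΩn h
    have h1 : IsOpen ((Subgroup.centralizer (N : Set G) : Subgroup G) : Set G) := by
      obtain ⟨u, hu⟩ := hΩn
      refine Subgroup.isOpen_of_mem_nhds _ (g := u) (Filter.mem_of_superset (hΩ.mem_nhds hu) ?_)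
      intro v hv
      rw [SetLike.mem_coe, Subgroup.mem_centralizer_iff]
      intro y hy
      have := h v hv y hy
      simp only [zero_add, Function.iterate_one, dl] at this
      exact (commutatorElement_eq_one_iff_mul_comm.1 this).symm
    have h2 := hop _ inferInstance h1
    intro y hy
    rw [Subgroup.mem_center_iff]
    intro g
    have : g ∈ Subgroup.centralizer (N : Set G) := by rw [h2]; trivial
    exact ((Subgroup.mem_centralizer_iff.1 this) y hy).symm
  | succ e ih =>
    intro N hN hNc hNt hcomm Ω hΩ hΩn h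
    by_contra hNz
    have hNcpt : IsCompact (N : Set G) := hG.H N hN hNc hNt
    set C : Subgroup G := Subgroup.centralizer (N : Set G) with hCdef
    have hCcl : IsClosed (C : Set G) := isClosed_centralizer' _
    have hCn : C.Normal := inferInstance
    have hCt : C ≠ ⊤ := by
      intro hC
      apply hNz
      intro y hy
      rw [Subgroup.mem_center_iff]
      intro g
      have : g ∈ Subgroup.centralizer (N : Set G) := by rw [← hCdef, hC]; trivial
      exact ((Subgroup.mem_centralizer_iff.1 this) y hy).symm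
    have hCmem : ∀ {c y : G}, c ∈ C → y ∈ N → c * y * c⁻¹ = y := by
      intro c y hc hy
      have := Subgroup.mem_centralizer_iff.1 hc y hy
      rw [← this]; group
    obtain ⟨u0, hu0⟩ := hΩn
    -- the small open set U1
    let O0 : Set G := {v | ∀ x ∈ (N : Set G), dl v x ∈ (V : Set G)}
    have hO0 : IsOpen O0 := isOpen_forall (f := fun v x => dl v x) hNcpt hVo (by
      simp only [dl, commutatorElement_def, Function.uncurry_def]; fun_prop)
    have h1O0 : (1 : G) ∈ O0 := fun x _ => by
      have : dl 1 x = 1 := by simp [dl]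
      rw [this]; exact one_mem V
    have hs : (fun v => u0 * v) ⁻¹' Ω ∈ 𝓝 (1 : G) :=
      (hΩ.preimage (by fun_prop)).mem_nhds (by simpa using hu0)
    obtain ⟨V', hV'o, hV'1, hV'2⟩ := exists_open_nhds_one_split hs
    let U1 : Set G := V' ∩ (O0 ∩ O0⁻¹)
    have hU1o : IsOpen U1 := hV'o.inter (hO0.inter hO0.inv)
    have h1U1 : (1 : G) ∈ U1 := ⟨hV'1, h1O0, by simpa using h1O0⟩
    -- thin subgroup in the quotient
    have : IsClosed (C : Set G) := hCcl
    have hH : Perf (G ⧸ C) := hG.quotient C hCt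
    obtain ⟨M', hM'n, hM'c, hM't, hM'z, hM'⟩ := exists_thin hH
      (U := (QuotientGroup.mk : G → G ⧸ C) '' U1)
      (QuotientGroup.isOpenMap_coe _ hU1o) ⟨1, h1U1, rfl⟩
    have hM1le : gc M' ≤ M' := gc_le_self hM'c
    have hM1gc : gc (gc M') = gc M' := gc_gc hH.perf M'
    let M : Subgroup G := (gc M').comap (QuotientGroup.mk' C)
    have hMn : M.Normal := Subgroup.Normal.comap inferInstance _
    have hMcl : IsClosed (M : Set G) := (isClosed_gc M').preimage QuotientGroup.continuous_mk
    have hMt : M ≠ ⊤ := by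
      intro hMt
      apply hM't
      rw [eq_top_iff]
      intro q _
      obtain ⟨g, rfl⟩ := QuotientGroup.mk'_surjective C q
      have : g ∈ M := by rw [hMt]; trivial
      exact hM1le this
    have hMcpt : IsCompact (M : Set G) := hG.H M hMn hMcl hMt
    have hMnC : ¬ M ≤ C := by
      intro hMC
      apply hM'z
      intro q hq
      rw [mem_center_iff_comm]
      intro k
      have h1 : ⁅q, k⁆ ∈ gc M' := comm_mem_gc hq k
      obtain ⟨g, hg⟩ := QuotientGroup.mk'_surjective C ⁅q, k⁆
      have h2 : g ∈ M := by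
        change QuotientGroup.mk' C g ∈ gc M'
        rw [hg]; exact h1
      rw [← hg]
      exact (QuotientGroup.eq_one_iff g).2 (hMC h2)
    -- decomposition of elements of M
    have hMdec : ∀ b ∈ M, ∃ z v : G, v ∈ U1 ∧ (∀ g : G, ⁅z, g⁆ ∈ C) ∧ b = z * v := by
      intro b hb
      obtain ⟨ζ, hζ, v, hv, hvζ⟩ := hM' _ (hM1le hb)
      refine ⟨b * v⁻¹, v, hv, ?_, by group⟩
      intro g
      have h1 : ((b * v⁻¹ : G) : G ⧸ C) = ζ := by
        have h2 : ((v : G) : G ⧸ C) = ζ⁻¹ * ((b : G) : G ⧸ C) := hvζ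
        rw [QuotientGroup.mk_mul, QuotientGroup.mk_inv, h2, mul_inv_rev, inv_inv, ← mul_assoc,
          mul_inv_cancel, one_mul]
      rw [← QuotientGroup.eq_one_iff]
      have h3 : ((⁅b * v⁻¹, g⁆ : G) : G ⧸ C) = ⁅ζ, (g : G ⧸ C)⁆ := by
        rw [← h1]; simp [commutatorElement_def]
      rw [h3]
      exact mem_center_iff_comm.1 hζ _
    -- the centralizer of M in N
    let C0 : Subgroup G := N ⊓ Subgroup.centralizer (M : Set G)
    have hC0n : C0.Normal := inferInstance
    have hC0cl : IsClosed (C0 : Set G) := hNc.inter (isClosed_centralizer' _)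
    have hC0N : C0 ≤ N := inf_le_left
    have hbC : ∀ b ∈ M, ∀ c ∈ C0, b * c * b⁻¹ = c := by
      intro b hb c hc
      have := Subgroup.mem_centralizer_iff.1 hc.2 b hb
      rw [this]; group
    -- central elements act trivially on C0
    have hzC : ∀ b ∈ M, ∀ z v : G, v ∈ U1 → (∀ g : G, ⁅z, g⁆ ∈ C) → b = z * v →
        ∀ c ∈ C0, z * c * z⁻¹ = c := by
      intro b hb z v hv hz hbz c hc
      -- the set of `dl z c`, generates a normal subgroup inside V
      let P : Subgroup G := Subgroup.normalClosure {dl z c}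
      have hconj : ∀ g : G, g * dl z c * g⁻¹ = dl z (g * c * g⁻¹) := by
        intro g
        have hk : ⁅z, g⁆ * (g * (z * c * z⁻¹) * g⁻¹) * ⁅z, g⁆⁻¹ = g * (z * c * z⁻¹) * g⁻¹ :=
          hCmem (hz g) (hN.conj_mem _ (hN.conj_mem _ (hC0N hc) z) g)
        have h1 : g * dl z c * g⁻¹ = (g * (z * c * z⁻¹) * g⁻¹) * (g * c * g⁻¹)⁻¹ := by
          simp only [dl, commutatorElement_def]; group
        rw [h1, ← hk]
        simp only [dl, commutatorElement_def]; group
      have hin : ∀ g : G, g * dl z c * g⁻¹ ∈ V := by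
        intro g
        rw [hconj g]
        set c' := g * c * g⁻¹ with hc'
        have hc'0 : c' ∈ C0 := hC0n.conj_mem _ hc g
        have h2 : z * c' * z⁻¹ = v⁻¹ * c' * v := by
          have hk : ⁅z, v⁻¹⁆ * (v⁻¹ * (z * c' * z⁻¹) * v) * ⁅z, v⁻¹⁆⁻¹ =
            v⁻¹ * (z * c' * z⁻¹) * v := by
            have := hCmem (hz v⁻¹) (hN.conj_mem _ (hN.conj_mem _ (hC0N hc'0) z) v⁻¹)
            simpa using this
          have h3 : (z * v) * c' * (z * v)⁻¹ = c' := by rw [← hbz]; exact hbC b hb c' hc'0
          have h4 : v⁻¹ * ((z * v) * c' * (z * v)⁻¹) * v = v⁻¹ * c' * v := by rw [h3]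
          rw [← h4]
          have hk2 : ⁅v⁻¹, z⁆ * (z * c' * z⁻¹) * ⁅v⁻¹, z⁆⁻¹ = z * c' * z⁻¹ := by
            have h5 : ⁅v⁻¹, z⁆ ∈ C := by
              have := inv_mem (hz v⁻¹)
              rwa [commutatorElement_inv] at this
            exact hCmem h5 (hN.conj_mem _ (hC0N hc'0) z)
          rw [← hk2]
          simp only [commutatorElement_def]; group
        have h3 : dl z c' = dl v⁻¹ c' := by
          simp only [dl, commutatorElement_def]
          rw [h2]; group
        rw [h3]
        exact hv.2.2 c' (hC0N hc'0)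
      have hPV : P ≤ V := by
        rw [show P = Subgroup.normalClosure {dl z c} from rfl, Subgroup.normalClosure,
          Subgroup.closure_le]
        intro y hy
        rw [Group.mem_conjugatesOfSet_iff] at hy
        obtain ⟨a, ha, hay⟩ := hy
        rw [Set.mem_singleton_iff] at ha
        subst ha
        obtain ⟨g, rfl⟩ := isConj_iff.1 hay
        exact hin g
      have hPbot : P = ⊥ := hcore P Subgroup.normalClosure_normal hPV
      have h6 : dl z c ∈ P := Subgroup.subset_normalClosure rfl
      rw [hPbot, Subgroup.mem_bot] at h6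
      simp only [dl, commutatorElement_def] at h6
      exact mul_inv_eq_one.1 h6
    -- N^
    let Nh : Subgroup G := N ⊓ (Subgroup.center (G ⧸ C0)).comap (QuotientGroup.mk' C0)
    have hNhn : Nh.Normal := inferInstance
    have hNh : ∀ x, x ∈ Nh ↔ x ∈ N ∧ ∀ g, dl g x ∈ C0 := by
      intro x
      refine and_congr Iff.rfl ?_
      change QuotientGroup.mk' C0 x ∈ Subgroup.center (G ⧸ C0) ↔ _
      rw [mem_center_iff_comm]
      constructor
      · intro hx g
        have := hx (g : G ⧸ C0)
        have h2 : ((⁅x, g⁆ : G) : G ⧸ C0) = 1 := by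
          rw [← this]; simp [commutatorElement_def]
        have h3 := inv_mem ((QuotientGroup.eq_one_iff _).1 h2)
        rwa [commutatorElement_inv] at h3
      · intro hx q
        obtain ⟨g, rfl⟩ := QuotientGroup.mk'_surjective C0 q
        have h3 := inv_mem (hx g)
        rw [dl, commutatorElement_inv] at h3
        have h2 := (QuotientGroup.eq_one_iff _).2 h3
        rw [← h2]; simp [commutatorElement_def]
    -- the key vanishing
    have hkey : ∀ b ∈ M, ∀ x ∈ Nh, ∀ u : G, (∃ v1 ∈ U1, u = u0 * v1) →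
        (∀ y ∈ N, (dl u)^[e + 2] y = 1) → (dl u)^[e + 1] (dl b x) = 1 := by
      rintro b hb x hx u ⟨v1, hv1, rfl⟩ h1
      obtain ⟨z, v, hv, hz, hbz⟩ := hMdec b hb
      obtain ⟨hxN, hxC⟩ := (hNh x).1 hx
      have hu' : u0 * v1 * v ∈ Ω := by
        rw [mul_assoc]; exact hV'2 v1 hv1.1 v hv.1
      refine step_alg (N := N) (C0 := C0) (z := z) (u' := u0 * v1 * v) hcomm hC0N hxN hxC ?_ ?_
        (hbC b hb) (hzC b hb z v hv hz hbz) e h1 (fun y hy => h _ hu' y hy)
      · intro y hy
        have hk : ⁅z, u0 * v1⁆ * ((u0 * v1) * z * v * y * v⁻¹ * z⁻¹ * (u0 * v1)⁻¹) *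
            ⁅z, u0 * v1⁆⁻¹ = (u0 * v1) * z * v * y * v⁻¹ * z⁻¹ * (u0 * v1)⁻¹ := by
          apply hCmem (hz _)
          have := hN.conj_mem y hy (u0 * v1 * z * v)
          have h2 : u0 * v1 * z * v * y * (u0 * v1 * z * v)⁻¹ =
            (u0 * v1) * z * v * y * v⁻¹ * z⁻¹ * (u0 * v1)⁻¹ := by group
          rwa [h2] at this
        have h3 : (u0 * v1 * b) * y * (u0 * v1 * b)⁻¹ =
          (u0 * v1) * z * v * y * v⁻¹ * z⁻¹ * (u0 * v1)⁻¹ := by rw [hbz]; group
        rw [h3, ← hk]
        simp only [commutatorElement_def]; group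
      · intro y hy
        have hk : ⁅z, u0 * v1 * v⁆ * ((u0 * v1 * v * z) * y * (u0 * v1 * v * z)⁻¹) *
            ⁅z, u0 * v1 * v⁆⁻¹ = (u0 * v1 * v * z) * y * (u0 * v1 * v * z)⁻¹ :=
          hCmem (hz _) (hN.conj_mem y hy _)
        rw [← hk]
        simp only [commutatorElement_def]; group
    -- Y
    let Y : Subgroup G := (⁅M, Nh⁆ : Subgroup G).topologicalClosure
    have hYn : Y.Normal := Subgroup.is_normal_topologicalClosure _
    have hYcl : IsClosed (Y : Set G) := Subgroup.isClosed_topologicalClosure _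
    have hYN : Y ≤ N := Subgroup.topologicalClosure_minimal _ (Subgroup.commutator_le.2
      (fun b hb x hx => dl_mem (N := N) hx.1 b)) hNc
    have hYt : Y ≠ ⊤ := by
      intro h'
      rw [h', top_le_iff] at hYN
      exact hNt hYN
    have hYz : Y ≤ Subgroup.center G := by
      apply ih Y hYn hYcl hYt (fun a ha b hb => hcomm a (hYN ha) b (hYN hb))
        ((fun v => u0 * v) '' (U1 ∩ (fun v => u0 * v) ⁻¹' Ω))
      · exact (Homeomorph.mulLeft u0).isOpenMap _ (hU1o.inter (hΩ.preimage (by fun_prop)))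
      · exact ⟨u0 * 1, 1, ⟨h1U1, by simpa using hu0⟩, rfl⟩
      · rintro u ⟨v1, ⟨hv1, hv1'⟩, rfl⟩ x hx
        let S : Subgroup G :=
          { carrier := {y | y ∈ N ∧ (dl (u0 * v1))^[e + 1] y = 1}
            mul_mem' := by
              rintro a b ⟨ha, ha'⟩ ⟨hb, hb'⟩
              exact ⟨mul_mem ha hb, by rw [dl_iter_mul hcomm ha hb, ha', hb', one_mul]⟩
            one_mem' := ⟨one_mem _, dl_iter_one _ _⟩
            inv_mem' := by
              rintro a ⟨ha, ha'⟩
              exact ⟨inv_mem ha, by rw [dl_iter_inv hcomm ha, ha', inv_one]⟩ }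
        have hScl : IsClosed (S : Set G) :=
          hNc.inter (isClosed_eq (continuous_dl_iter_right _ _) continuous_const)
        have hYS : Y ≤ S := by
          apply Subgroup.topologicalClosure_minimal _ _ hScl
          rw [Subgroup.commutator_le]
          intro b hb x hx
          exact ⟨dl_mem (N := N) hx.1 b, hkey b hb x hx _ ⟨v1, hv1, rfl⟩ (fun y hy => h _ hv1' y hy)⟩
        exact (hYS hx).2
    -- hence M centralizes Nh
    have hMC : ∀ x ∈ Nh, ∀ b ∈ M, dl b x = 1 := by
      intro x hx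
      obtain ⟨hxN, hxC⟩ := (hNh x).1 hx
      let Cx : Subgroup G := Subgroup.centralizer {x}
      have hCx : ∀ b ∈ M, ∀ g : G, ⁅b, g⁆ ∈ Cx := by
        intro b hb g
        -- conj of b by g
        have hb' : g * b⁻¹ * g⁻¹ ∈ M := hMn.conj_mem _ (inv_mem hb) g
        have hY1 : ∀ a ∈ M, ∀ w ∈ Nh, dl a w ∈ Subgroup.center G := fun a ha w hw =>
          hYz (Subgroup.le_topologicalClosure _ (Subgroup.commutator_mem_commutator ha hw))
        -- dl (g b⁻¹ g⁻¹) x = dl b⁻¹ x
        have h1 : dl (g * b⁻¹ * g⁻¹) x = dl b⁻¹ x := by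
          have hw : g⁻¹ * x * g ∈ Nh := by
            have := hNhn.conj_mem x hx g⁻¹
            simpa using this
          have h2 : dl (g * b⁻¹ * g⁻¹) x = g * dl b⁻¹ (g⁻¹ * x * g) * g⁻¹ := by
            simp only [dl, commutatorElement_def]; group
          have h3 := hY1 b⁻¹ (inv_mem hb) _ hw
          rw [h2]
          have h4 : g * dl b⁻¹ (g⁻¹ * x * g) * g⁻¹ = dl b⁻¹ (g⁻¹ * x * g) := by
            rw [(Subgroup.mem_center_iff.1 h3 g)]; group
          rw [h4]
          have h5 : g⁻¹ * x * g = dl g⁻¹ x * x := by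
            simp only [dl, commutatorElement_def]; group
          rw [h5, dl_mul hcomm (hC0N (hxC _)) hxN]
          have h6 : dl b⁻¹ (dl g⁻¹ x) = 1 := by
            have := hbC b⁻¹ (inv_mem hb) _ (hxC g⁻¹)
            simp only [dl, commutatorElement_def] at this ⊢
            rw [this]; group
          rw [h6, one_mul]
        rw [Subgroup.mem_centralizer_iff]
        intro y hy
        rw [Set.mem_singleton_iff.1 hy]
        have h7 : (g * b⁻¹ * g⁻¹) * x * (g * b⁻¹ * g⁻¹)⁻¹ = b⁻¹ * x * b := by
          have := congrArg (· * x) h1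
          simp only [dl, commutatorElement_def] at this
          simpa [mul_assoc] using this
        have h8 : ⁅b, g⁆ = b * (g * b⁻¹ * g⁻¹) := by
          simp only [commutatorElement_def]; group
        have h9 : ⁅b, g⁆ * x * ⁅b, g⁆⁻¹ = x := by
          calc ⁅b, g⁆ * x * ⁅b, g⁆⁻¹
              = b * ((g * b⁻¹ * g⁻¹) * x * (g * b⁻¹ * g⁻¹)⁻¹) * b⁻¹ := by rw [h8]; group
            _ = b * (b⁻¹ * x * b) * b⁻¹ := by rw [h7]
            _ = x := by group
        exact (mul_inv_eq_iff_eq_mul.1 h9).symm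
      have hCCx : C ≤ Cx := by
        intro c hc
        rw [Subgroup.mem_centralizer_iff]
        rintro _ rfl
        exact Subgroup.mem_centralizer_iff.1 hc _ hxN
      have hCxcl : IsClosed (Cx : Set G) := isClosed_centralizer' _
      have hcm : (Cx.map (QuotientGroup.mk' C)).comap (QuotientGroup.mk' C) = Cx := by
        rw [Subgroup.comap_map_eq, QuotientGroup.ker_mk', sup_eq_left.2 hCCx]
      have hmcl : IsClosed ((Cx.map (QuotientGroup.mk' C) : Subgroup (G ⧸ C)) : Set (G ⧸ C)) := by
        rw [← (QuotientGroup.isQuotientMap_mk C).isClosed_preimage]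
        have : (QuotientGroup.mk : G → G ⧸ C) ⁻¹'
            ((Cx.map (QuotientGroup.mk' C) : Subgroup (G ⧸ C)) : Set (G ⧸ C)) = (Cx : Set G) :=
          congrArg (fun S : Subgroup G => (S : Set G)) hcm
        rw [this]; exact hCxcl
      have h2 : gc M' ≤ Cx.map (QuotientGroup.mk' C) := by
        rw [← hM1gc]
        apply gc_le hmcl
        intro q hq k
        obtain ⟨b, rfl⟩ := QuotientGroup.mk'_surjective C q
        obtain ⟨g, rfl⟩ := QuotientGroup.mk'_surjective C k
        exact ⟨⁅b, g⁆, hCx b hq g, by simp [commutatorElement_def]⟩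
      have h3 : M ≤ Cx := by
        rw [← hcm]
        exact Subgroup.comap_mono h2
      intro b hb
      have := Subgroup.mem_centralizer_iff.1 (h3 hb) x rfl
      exact commutatorElement_eq_one_iff_mul_comm.2 this.symm
    -- final contradiction with the compactness lemma
    let N1 : Set G := {x | ∀ b ∈ (M : Set G), dl b x ∈ (V : Set G)}
    have hVcl : IsClosed (V : Set G) := V.isClosed_of_isOpen hVo
    have hN1o : IsOpen N1 := isOpen_forall (f := fun x b => dl b x) hMcpt hVo (by
      simp only [dl, commutatorElement_def, Function.uncurry_def]; fun_prop)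
    have hN1c : IsClosed N1 := by
      have : N1 = ⋂ b ∈ (M : Set G), (dl b) ⁻¹' (V : Set G) := by
        ext x; simp [N1]
      rw [this]
      exact isClosed_biInter fun b _ => hVcl.preimage (continuous_dl b)
    have hVcomm : ∀ R : Subgroup G, R.Normal → R ≤ N → (R : Set G) ⊆ N1 → ∀ r ∈ R, ∀ b ∈ M,
        dl b r = 1 := by
      intro R hR hRN hRN1 r hr b hb
      have h1 : ⁅M, R⁆ ≤ V := by
        rw [Subgroup.commutator_le]
        intro b hb r hr
        exact hRN1 hr b hb
      have h2 : ⁅M, R⁆ = ⊥ := hcore _ inferInstance h1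
      have h3 : ⁅b, r⁆ ∈ ⁅M, R⁆ := Subgroup.commutator_mem_commutator hb hr
      rw [h2, Subgroup.mem_bot] at h3
      exact h3
    obtain ⟨x, hxA, hxR⟩ := exists_avoid hG.ln N (A := N ∩ N1ᶜ) (O := N1ᶜ)
      (hNcpt.inter_right hN1o.isClosed_compl) Set.inter_subset_left
      (fun h' => h'.2 (fun b _ => by rw [dl_one]; exact one_mem V))
      (by
        by_contra hne
        rw [Set.not_nonempty_iff_eq_empty] at hne
        apply hMnC
        intro b hb
        rw [hCdef, Subgroup.mem_centralizer_iff]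
        intro y hy
        have hNN1 : (N : Set G) ⊆ N1 := by
          intro y hy
          by_contra hy1
          have : y ∈ (N : Set G) ∩ N1ᶜ := ⟨hy, hy1⟩
          rw [hne] at this
          exact this
        exact (commutatorElement_eq_one_iff_mul_comm.1 (hVcomm N hN le_rfl hNN1 y hy b hb)).symm)
      hN1c.isOpen_compl (fun y hy hyO => ⟨hy, hyO⟩)
    have hR1 : ((Rn x : Subgroup G) : Set G) ⊆ N1 := fun r hr => not_not.1 (hxR r hr)
    have hR2 := hVcomm (Rn x) inferInstance (Rn_le_of_mem hxA.1) hR1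
    have hxNh : x ∈ Nh := by
      rw [hNh]
      refine ⟨hxA.1, fun g => ?_⟩
      have h1 : dl g x ∈ Rn x := by
        have := inv_mem (comm_mem_Rn x g)
        rwa [commutatorElement_inv] at this
      refine ⟨Rn_le_of_mem hxA.1 h1, ?_⟩
      change dl g x ∈ Subgroup.centralizer (M : Set G)
      rw [Subgroup.mem_centralizer_iff]
      intro b hb
      exact commutatorElement_eq_one_iff_mul_comm.1 (hR2 _ h1 b hb)
    exact hxA.2 (fun b hb => by rw [hMC x hxNh b hb]; exact one_mem V)

end top

end Pool.Agent.Helper944.LN
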