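import Pool.Agent.Helper944.LN.TD

set_option autoImplicit false
set_option linter.unusedVariables false
set_option linter.unusedSectionVars false

namespace Pool.Agent.Helper944.LN

open Subgroup Topology
open scoped commutatorElement

variable {G : Type*} [Group G] [TopologicalSpace G] [IsTopologicalGroup G]

/-- uniform unipotence of a single element on a compact abelian normal subgroup. -/
lemma unif_one [T2Space G] (hLN : LocNil G) (N : Subgroup G) [hN : N.Normal]
    (hNc : IsCompact (N : Set G)) (hcomm : ∀ a ∈ N, ∀ b ∈ N, a * b = b * a) (g : G) :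
    ∃ c, ∀ x ∈ N, (dl g)^[c] x = 1 := by
  have : CompactSpace N := isCompact_iff_compactSpace.1 hNc
  let K : ℕ → Subgroup N := fun c =>
    { carrier := {x | (dl g)^[c] (x : G) = 1}
      mul_mem' := by
        intro a b ha hb
        simp only [Set.mem_ofPred_eq, Subgroup.coe_mul] at ha hb ⊢
        rw [dl_iter_mul hcomm a.2 b.2, ha, hb, one_mul]
      one_mem' := dl_iter_one _ _
      inv_mem' := by
        intro a ha
        simp only [Set.mem_ofPred_eq, Subgroup.coe_inv] at ha ⊢
        rw [dl_iter_inv hcomm a.2, ha, inv_one] }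
  have hKmem : ∀ c (x : N), x ∈ K c ↔ (dl g)^[c] (x : G) = 1 := fun c x => Iff.rfl
  have hKc : ∀ c, IsClosed (K c : Set N) := by
    intro c
    exact isClosed_eq ((continuous_dl_iter_right g c).comp continuous_subtype_val) continuous_const
  have hKu : ⋃ c, (K c : Set N) = Set.univ := by
    rw [Set.eq_univ_iff_forall]
    intro x
    obtain ⟨n, hn⟩ := exists_dl_iter_eq_one hLN g (x : G)
    exact Set.mem_iUnion.2 ⟨n, hn⟩
  have hmono : Monotone K := by
    apply monotone_nat_of_le_succ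
    intro c x hx
    rw [hKmem] at hx ⊢
    rw [Function.iterate_succ_apply', hx, dl_one]
  obtain ⟨c, hc⟩ := nonempty_interior_of_iUnion_of_closed hKc hKu
  obtain ⟨x0, hx0⟩ := hc
  have hKo : ∀ i, IsOpen (K (c + i) : Set N) := by
    intro i
    refine Subgroup.isOpen_of_mem_nhds _ (g := x0) ?_
    refine Filter.mem_of_superset (isOpen_interior.mem_nhds hx0) ?_
    exact interior_subset.trans (hmono (Nat.le_add_right c i))
  obtain ⟨i, hi⟩ := isCompact_univ.elim_directed_cover (fun i => (K (c + i) : Set N)) hKo (by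
    intro x _
    have : x ∈ ⋃ c, (K c : Set N) := by rw [hKu]; trivial
    obtain ⟨j, hj⟩ := Set.mem_iUnion.1 this
    exact Set.mem_iUnion.2 ⟨j, hmono (Nat.le_add_left j c) hj⟩)
    (Monotone.directed_le (fun a b hab => hmono (by omega)))
  exact ⟨c + i, fun x hx => hi (Set.mem_univ (⟨x, hx⟩ : N))⟩

/-- uniform unipotence of an open set of elements. -/
lemma unif_open [T2Space G] [LocallyCompactSpace G] (hLN : LocNil G) (N : Subgroup G)
    [hN : N.Normal] (hNc : IsCompact (N : Set G)) (hcomm : ∀ a ∈ N, ∀ b ∈ N, a * b = b * a) :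
    ∃ c, ∃ Ω : Set G, IsOpen Ω ∧ Ω.Nonempty ∧ ∀ u ∈ Ω, ∀ x ∈ N, (dl u)^[c + 1] x = 1 := by
  obtain ⟨c, hc⟩ := nonempty_interior_of_iUnion_of_closed
    (f := fun c => {u : G | ∀ x ∈ N, (dl u)^[c] x = 1}) (by
      intro c
      have : {u : G | ∀ x ∈ N, (dl u)^[c] x = 1} = ⋂ x ∈ (N : Set G), {u | (dl u)^[c] x = 1} := by
        ext u; simp
      rw [this]
      exact isClosed_biInter fun x _ => isClosed_eq (continuous_dl_iter_left x c) continuous_const)
    (by
      rw [Set.eq_univ_iff_forall]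
      intro u
      obtain ⟨c, hc⟩ := unif_one hLN N hNc hcomm u
      exact Set.mem_iUnion.2 ⟨c, hc⟩)
  refine ⟨c, _, isOpen_interior, hc, fun u hu x hx => ?_⟩
  have := interior_subset hu x hx
  rw [Function.iterate_succ_apply', this, dl_one]

theorem td_contra [LocallyCompactSpace G] [T2Space G] (hG : Perf G) (V : Subgroup G)
    (hVo : IsOpen (V : Set G)) (hcore : ∀ K : Subgroup G, K.Normal → K ≤ V → K = ⊥)
    (hop : ∀ K : Subgroup G, K.Normal → IsOpen (K : Set G) → K = ⊤) : False := by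
  obtain ⟨N, hN, hNc, hNt, hNz, hNd⟩ := exists_thin hG hVo (one_mem V)
  have hcomm : ∀ a ∈ N, ∀ b ∈ N, a * b = b * a := by
    have h1 : ⁅N, N⁆ ≤ V := by
      rw [Subgroup.commutator_le]
      intro a ha b hb
      obtain ⟨z, hz, hza⟩ := hNd a ha
      obtain ⟨w, hw, hwb⟩ := hNd b hb
      have e1 : ⁅a, b⁆ = ⁅z⁻¹ * a, w⁻¹ * b⁆ := by
        have hz' := Subgroup.mem_center_iff.1 (inv_mem hz)
        have hw' := Subgroup.mem_center_iff.1 (inv_mem hw)
        simp only [commutatorElement_def, mul_inv_rev, inv_inv]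
        calc a * b * a⁻¹ * b⁻¹ = (z⁻¹ * w⁻¹) * (a * b * a⁻¹ * b⁻¹) * (z⁻¹ * w⁻¹)⁻¹ := by
              have : (z⁻¹ * w⁻¹) ∈ Subgroup.center G := mul_mem (inv_mem hz) (inv_mem hw)
              rw [← Subgroup.mem_center_iff.1 this]; group
          _ = z⁻¹ * (w⁻¹ * a) * b * (a⁻¹) * b⁻¹ * w * z := by group
          _ = z⁻¹ * (a * w⁻¹) * b * (a⁻¹) * b⁻¹ * w * z := by rw [hw' a]
          _ = z⁻¹ * a * (w⁻¹ * b) * (a⁻¹ * (z * (z⁻¹ * b⁻¹)) * w * z) := by group
          _ = z⁻¹ * a * (w⁻¹ * b) * (a⁻¹ * (z * (b⁻¹ * z⁻¹)) * w * z) := by rw [hz' b⁻¹]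
          _ = z⁻¹ * a * (w⁻¹ * b) * (a⁻¹ * z) * (b⁻¹ * (z⁻¹ * (w * z))) := by group
          _ = z⁻¹ * a * (w⁻¹ * b) * (a⁻¹ * z) * (b⁻¹ * (z⁻¹ * (z * w))) := by
              rw [(Subgroup.mem_center_iff.1 hz w)]
          _ = _ := by group
      rw [e1, commutatorElement_def]
      exact mul_mem (mul_mem (mul_mem hza hwb) (inv_mem hza)) (inv_mem hwb)
    have h2 : ⁅N, N⁆ = ⊥ := hcore _ inferInstance h1
    intro a ha b hb
    have h3 : ⁅a, b⁆ ∈ ⁅N, N⁆ := Subgroup.commutator_mem_commutator ha hb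
    rw [h2, Subgroup.mem_bot] at h3
    exact commutatorElement_eq_one_iff_mul_comm.1 h3
  obtain ⟨c, Ω, hΩo, hΩn, hΩ⟩ := unif_open hG.ln N (hG.H N hN hNc hNt) hcomm
  exact hNz (descent hG V hVo hcore hop c N hN hNc hNt hcomm Ω hΩo hΩn hΩ)

/-- If every open normal subgroup is everything, then every open subgroup is everything. -/
theorem open_eq_top [LocallyCompactSpace G] [T2Space G] (hG : Perf G)
    (hop : ∀ K : Subgroup G, K.Normal → IsOpen (K : Set G) → K = ⊤) (V : Subgroup G)
    (hVo : IsOpen (V : Set G)) : V = ⊤ := by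
  by_contra hVt
  let K := V.normalCore
  have hKn : K.Normal := Subgroup.normalCore_normal V
  have hKV : K ≤ V := Subgroup.normalCore_le V
  have hKt : K ≠ ⊤ := by
    intro h
    rw [h, top_le_iff] at hKV
    exact hVt hKV
  have hVcl : IsClosed (V : Set G) := V.isClosed_of_isOpen hVo
  have hKcl : IsClosed (K : Set G) := by
    have : (K : Set G) = ⋂ g : G, (fun x => g * x * g⁻¹) ⁻¹' (V : Set G) := by
      ext x
      simp only [Set.mem_iInter, Set.mem_preimage, SetLike.mem_coe]
      exact Iff.rfl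
    rw [this]
    exact isClosed_iInter fun g => hVcl.preimage (by fun_prop)
  have hKcl' : IsClosed (K : Set G) := hKcl
  have hQ : Perf (G ⧸ K) := hG.quotient K hKt
  have hcm : (V.map (QuotientGroup.mk' K)).comap (QuotientGroup.mk' K) = V := by
    rw [Subgroup.comap_map_eq, QuotientGroup.ker_mk', sup_eq_left.2 hKV]
  refine td_contra hQ (V.map (QuotientGroup.mk' K)) ?_ ?_ ?_
  · exact QuotientGroup.isOpenMap_coe _ hVo
  · intro L hL hLV
    have h1 : L.comap (QuotientGroup.mk' K) ≤ V := by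
      rw [← hcm]; exact Subgroup.comap_mono hLV
    have h2 : L.comap (QuotientGroup.mk' K) ≤ K := by
      have : (L.comap (QuotientGroup.mk' K)).Normal := hL.comap _
      exact Subgroup.normal_le_normalCore.2 h1
    rw [eq_bot_iff]
    intro q hq
    obtain ⟨g, rfl⟩ := QuotientGroup.mk'_surjective K q
    exact (QuotientGroup.eq_one_iff g).2 (h2 hq)
  · intro L hL hLo
    have h1 := hop (L.comap (QuotientGroup.mk' K)) (hL.comap _)
      (hLo.preimage QuotientGroup.continuous_mk)
    rw [eq_top_iff]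
    intro q _
    obtain ⟨g, rfl⟩ := QuotientGroup.mk'_surjective K q
    have : g ∈ L.comap (QuotientGroup.mk' K) := by rw [h1]; trivial
    exact this

end Pool.Agent.Helper944.LN
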