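import Mathlib

set_option autoImplicit false
set_option linter.unusedVariables false
set_option linter.unusedSectionVars false

namespace Pool.Agent.Helper944.LN

open Subgroup Topology
open scoped commutatorElement

/-- locally nilpotent (in the form used in the statement). -/
def LocNil (G : Type*) [Group G] : Prop :=
  ∀ s : Finset G, Group.IsNilpotent (Subgroup.closure (s : Set G))

variable {G : Type*} [Group G] [TopologicalSpace G] [IsTopologicalGroup G]

/-- `Wd φ` : `φ` is a continuous self map of `G` which preserves normal subgroups and pushes the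
lower central series of every large enough subgroup one step down. -/
def Wd (φ : G → G) : Prop :=
  Continuous φ ∧ (∀ N : Subgroup G, N.Normal → ∀ y ∈ N, φ y ∈ N) ∧
  ∃ Γ : Finset G, ∀ F : Subgroup G, (∀ γ ∈ Γ, γ ∈ F) → ∀ k, ∀ y ∈ F.lowerCentralSeries k,
    φ y ∈ F.lowerCentralSeries (k + 1)

lemma Wd.one : Wd (fun _ : G => (1 : G)) :=
  ⟨continuous_const, fun N _ y _ => one_mem _, ∅, fun F _ k y _ => one_mem _⟩

lemma Wd.mul {φ ψ : G → G} (h1 : Wd φ) (h2 : Wd ψ) : Wd (fun y => φ y * ψ y) := by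
  classical
  obtain ⟨c1, n1, Γ1, h1⟩ := h1
  obtain ⟨c2, n2, Γ2, h2⟩ := h2
  refine ⟨c1.mul c2, fun N hN y hy => mul_mem (n1 N hN y hy) (n2 N hN y hy), Γ1 ∪ Γ2,
    fun F hF k y hy => ?_⟩
  exact mul_mem (h1 F (fun γ hγ => hF γ (Finset.mem_union_left _ hγ)) k y hy)
    (h2 F (fun γ hγ => hF γ (Finset.mem_union_right _ hγ)) k y hy)

lemma Wd.inv {φ : G → G} (h1 : Wd φ) : Wd (fun y => (φ y)⁻¹) := by
  obtain ⟨c1, n1, Γ1, h1⟩ := h1
  exact ⟨c1.inv, fun N hN y hy => inv_mem (n1 N hN y hy), Γ1,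
    fun F hF k y hy => inv_mem (h1 F hF k y hy)⟩

omit [TopologicalSpace G] [IsTopologicalGroup G] in
lemma conj_mem_lcs (F : Subgroup G) (k : ℕ) {g y : G} (hg : g ∈ F)
    (hy : y ∈ F.lowerCentralSeries k) : g * y * g⁻¹ ∈ F.lowerCentralSeries k := by
  have := F.self_le_normalizer_lowerCentralSeries k hg
  rw [Subgroup.mem_normalizer_iff] at this
  exact (this y).1 hy

lemma Wd.conj {φ : G → G} (h1 : Wd φ) (g : G) : Wd (fun y => g * φ y * g⁻¹) := by
  classical
  obtain ⟨c1, n1, Γ1, h1⟩ := h1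
  refine ⟨by fun_prop, fun N hN y hy => hN.conj_mem _ (n1 N hN y hy) g, insert g Γ1,
    fun F hF k y hy => ?_⟩
  exact conj_mem_lcs F _ (hF g (by simp)) (h1 F (fun γ hγ => hF γ (by simp [hγ])) k y hy)

lemma Wd.comm (g : G) : Wd (fun y => ⁅y, g⁆) := by
  refine ⟨by simp only [commutatorElement_def]; fun_prop, fun N hN y hy => ?_, {g},
    fun F hF k y hy => ?_⟩
  · have := mul_mem hy (hN.conj_mem _ (inv_mem hy) g)
    simpa [commutatorElement_def, mul_assoc] using this
  · exact Subgroup.commutator_mem_commutator hy (hF g (by simp))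

/-- The normal closure of all commutators of `x`. -/
def Rn (x : G) : Subgroup G := Subgroup.normalClosure {c | ∃ g : G, c = ⁅x, g⁆}

instance (x : G) : (Rn x).Normal := Subgroup.normalClosure_normal

omit [TopologicalSpace G] [IsTopologicalGroup G] in
lemma comm_mem_Rn (x g : G) : ⁅x, g⁆ ∈ Rn x := Subgroup.subset_normalClosure ⟨g, rfl⟩

omit [TopologicalSpace G] [IsTopologicalGroup G] in
lemma Rn_le {x : G} {K : Subgroup G} [K.Normal] (h : ∀ g, ⁅x, g⁆ ∈ K) : Rn x ≤ K := by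
  apply Subgroup.normalClosure_le_normal
  rintro c ⟨g, rfl⟩
  exact h g

omit [TopologicalSpace G] [IsTopologicalGroup G] in
lemma Rn_le_of_mem {x : G} {K : Subgroup G} [hK : K.Normal] (h : x ∈ K) : Rn x ≤ K := by
  apply Rn_le
  intro g
  have := mul_mem h (hK.conj_mem _ (inv_mem h) g)
  simpa [commutatorElement_def, mul_assoc] using this

lemma exists_word {x r : G} (hr : r ∈ Rn x) : ∃ φ : G → G, Wd φ ∧ φ x = r := by
  let S : Subgroup G :=
    { carrier := {r | ∃ φ : G → G, Wd φ ∧ φ x = r}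
      mul_mem' := by
        rintro a b ⟨φ, h1, rfl⟩ ⟨ψ, h2, rfl⟩
        exact ⟨_, h1.mul h2, rfl⟩
      one_mem' := ⟨_, Wd.one, rfl⟩
      inv_mem' := by
        rintro a ⟨φ, h1, rfl⟩
        exact ⟨_, h1.inv, rfl⟩ }
  have hS : S.Normal := ⟨by
    rintro n ⟨φ, h1, rfl⟩ g
    exact ⟨_, h1.conj g, rfl⟩⟩
  have : Rn x ≤ S := Rn_le (fun g => ⟨_, Wd.comm g, rfl⟩)
  exact this hr

/-- The key compactness lemma: in a locally nilpotent topological group, a nonempty compact
subset `A ∌ 1` of a normal subgroup `N` contains some `x` such that the normal subgroup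
generated by the commutators of `x` avoids the relative interior of `A`. -/
theorem exists_avoid (hLN : LocNil G) (N : Subgroup G) [hN : N.Normal] {A O : Set G}
    (hAc : IsCompact A) (hAN : A ⊆ N) (hA1 : (1 : G) ∉ A) (hne : A.Nonempty)
    (hO : IsOpen O) (hON : ∀ y ∈ N, y ∈ O → y ∈ A) :
    ∃ x ∈ A, ∀ r ∈ Rn x, r ∉ O := by
  classical
  by_contra hcon
  push Not at hcon
  -- choose words
  have h1 : ∀ x : G, x ∈ A → ∃ φ : G → G, Wd φ ∧ φ x ∈ O := by
    intro x hx
    obtain ⟨r, hr, hrO⟩ := hcon x hx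
    obtain ⟨φ, hφ, rfl⟩ := exists_word hr
    exact ⟨φ, hφ, hrO⟩
  choose! φ hφ hφO using h1
  obtain ⟨t, htA, ht⟩ := hAc.elim_nhds_subcover (fun x => φ x ⁻¹' O) (fun x hx =>
    ((hφ x hx).1.isOpen_preimage _ hO).mem_nhds (hφO x hx))
  obtain ⟨x0, hx0⟩ := hne
  have h2 : ∀ x : G, ∃ Γ : Finset G, x ∈ A → ∀ F : Subgroup G, (∀ γ ∈ Γ, γ ∈ F) → ∀ k,
      ∀ y ∈ F.lowerCentralSeries k, φ x y ∈ F.lowerCentralSeries (k + 1) := by
    intro x
    by_cases hx : x ∈ A
    · obtain ⟨Γ, hΓ⟩ := (hφ x hx).2.2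
      exact ⟨Γ, fun _ => hΓ⟩
    · exact ⟨∅, fun h => absurd h hx⟩
  choose Γ hΓ using h2
  let s : Finset G := insert x0 (t.biUnion Γ)
  let F : Subgroup G := Subgroup.closure (s : Set G)
  have hFn : Group.IsNilpotent F := hLN s
  obtain ⟨c, hc⟩ := (Subgroup.isNilpotent_iff_lowerCentralSeries F).1 hFn
  have h3 : ∀ k, ∃ y ∈ A, y ∈ F.lowerCentralSeries k := by
    intro k
    induction k with
    | zero =>
      exact ⟨x0, hx0, Subgroup.subset_closure (by simp [s])⟩
    | succ k ih =>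
      obtain ⟨y, hyA, hyk⟩ := ih
      have := ht hyA
      simp only [Set.mem_iUnion] at this
      obtain ⟨x, hxt, hxy⟩ := this
      have hyk' : φ x y ∈ F.lowerCentralSeries (k + 1) := by
        refine hΓ x (htA x hxt) F (fun γ hγ => Subgroup.subset_closure ?_) k y hyk
        simp only [s, Finset.coe_insert, Set.mem_insert_iff, Finset.mem_coe, Finset.mem_biUnion]
        exact Or.inr ⟨x, hxt, hγ⟩
      have hyN : φ x y ∈ N := (hφ x (htA x hxt)).2.1 N hN y (hAN hyA)
      exact ⟨φ x y, hON _ hyN hxy, hyk'⟩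
  obtain ⟨y, hyA, hy⟩ := h3 c
  rw [hc, Subgroup.mem_bot] at hy
  exact hA1 (hy ▸ hyA)

end Pool.Agent.Helper944.LN
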